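import Pool.Agent.Work.MP_fd21e9_pr.ZAlg

/-! # Block upper bound for the partition function with free end -/

namespace Copoly

variable {E : Type*}

/-- Renewal identity. -/
private lemma ren (κ f : ℕ → (ℕ → E) → ℝ) {n : ℕ} (hn : 1 ≤ n) (x : ℕ → E) :
    ∑ s ∈ Finset.range n, Z κ s x * f (n - s) (sh s x) =
      f n x + ∑ i ∈ Finset.Icc 1 (n - 1), κ i x *
        ∑ s ∈ Finset.range (n - i), Z κ s (sh i x) * f (n - i - s) (sh s (sh i x)) := by
  obtain ⟨m, rfl⟩ : ∃ m, n = m + 1 := ⟨n - 1, by omega⟩
  rw [Finset.sum_range_succ', Z_zero, sh_zero, Nat.sub_zero, one_mul, add_comm]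
  congr 1
  have h1 : ∀ s ∈ Finset.range m, Z κ (s + 1) x * f (m + 1 - (s + 1)) (sh (s + 1) x) =
      ∑ i ∈ Finset.Icc 1 (s + 1), κ i x * Z κ (s + 1 - i) (sh i x) *
        f (m + 1 - (s + 1)) (sh (s + 1) x) := by
    intro s _
    rw [Z_first κ (by omega : 1 ≤ s + 1) x, Finset.sum_mul]
  rw [Finset.sum_congr rfl h1]
  simp only [Finset.mul_sum]
  rw [Finset.sum_sigma', Finset.sum_sigma']
  refine Finset.sum_nbij' (fun p => ⟨p.2, p.1 + 1 - p.2⟩) (fun p => ⟨p.1 + p.2 - 1, p.1⟩)
    ?_ ?_ ?_ ?_ ?_
  · rintro ⟨s, i⟩ h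
    simp only [Finset.mem_sigma, Finset.mem_range, Finset.mem_Icc] at h ⊢
    omega
  · rintro ⟨i, s⟩ h
    simp only [Finset.mem_sigma, Finset.mem_range, Finset.mem_Icc] at h ⊢
    omega
  · rintro ⟨s, i⟩ h
    simp only [Finset.mem_sigma, Finset.mem_range, Finset.mem_Icc] at h
    have : i + (s + 1 - i) - 1 = s := by omega
    simp only [this]
  · rintro ⟨i, s⟩ h
    simp only [Finset.mem_sigma, Finset.mem_range, Finset.mem_Icc] at h
    have : i + s - 1 + 1 - i = s := by omega
    simp only [this]
  · rintro ⟨s, i⟩ h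
    simp only [Finset.mem_sigma, Finset.mem_range, Finset.mem_Icc] at h
    have e1 : m + 1 - i - (s + 1 - i) = m + 1 - (s + 1) := by omega
    have e2 : i + (s + 1 - i) = s + 1 := by omega
    simp only [sh_sh, e1, e2]
    ring

theorem Zf_block {κ κf u : ℕ → (ℕ → E) → ℝ} {K Kf : ℕ → ℝ} (hκ : ∀ n x, 0 ≤ κ n x)
    (hκf : ∀ n x, 0 ≤ κf n x) (hK : ∀ n, 0 ≤ K n) (hKf : ∀ n, 0 ≤ Kf n)
    (hK1 : ∀ n, Kf n + ∑ i ∈ Finset.Icc 1 n, K i ≤ 1)
    (hu1 : ∀ n x, 1 ≤ u n x) (hu0 : ∀ x, u 0 x = 1)
    (hum : ∀ m n x, u (m + n) x ≤ u m x * u n (sh m x))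
    (hκu : ∀ n x, 1 ≤ n → κ n x ≤ K n * u n x)
    (hκfu : ∀ n x, κf n x ≤ Kf n * u n x) {L : ℕ} (hL : 1 ≤ L) (M : ℕ) (x : ℕ → E) :
    Zf κ κf (M * L) x ≤ ∏ i ∈ Finset.range M, Rb κ u L (sh (i * L) x) := by
  have hu : ∀ n x, 0 ≤ u n x := fun n x => le_trans zero_le_one (hu1 n x)
  have hZ : ∀ n x, 0 ≤ Z κ n x := Z_nonneg hκ
  have hZf : ∀ n x, 0 ≤ Zf κ κf n x := fun n x =>
    Finset.sum_nonneg fun s _ => mul_nonneg (hZ _ _) (hκf _ _)
  -- the first step decomposition of `Zf`
  have hstep : ∀ N x, Zf κ κf N x = κf N x +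
      ∑ i ∈ Finset.Icc 1 N, κ i x * Zf κ κf (N - i) (sh i x) := by
    intro N x
    have h := ren κ (fun m => κf (m - 1)) (by omega : 1 ≤ N + 1) x
    simp only [Nat.add_sub_cancel] at h
    have e1 : Zf κ κf N x = ∑ s ∈ Finset.range (N + 1), Z κ s x * κf (N + 1 - s - 1) (sh s x) := by
      unfold Zf
      refine Finset.sum_congr rfl fun s _ => ?_
      rw [show N + 1 - s - 1 = N - s by omega]
    rw [e1, h]
    congr 1
    refine Finset.sum_congr rfl fun i hi => ?_
    rw [Finset.mem_Icc] at hi
    congr 1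
    unfold Zf
    rw [show N + 1 - i = N - i + 1 by omega]
    refine Finset.sum_congr rfl fun s _ => ?_
    rw [show N - i + 1 - s - 1 = N - i - s by omega]
  have hZf0 : ∀ x, Zf κ κf 0 x ≤ 1 := by
    intro x
    have h1 := hκfu 0 x
    have h2 := hK1 0
    rw [hstep]
    simp only [hu0, mul_one] at h1
    simp only [Finset.Icc_eq_empty (by norm_num : ¬ (1 : ℕ) ≤ 0), Finset.sum_empty, add_zero] at h2 ⊢
    linarith
  -- the block weight dominates
  set R : (ℕ → E) → ℝ := Rb κ u L with hR
  have hsum0 : ∀ y, 0 ≤ ∑ b ∈ Finset.range L, ∑ a ∈ Finset.range (b + 1),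
      u a y * Z κ (b - a) (sh a y) * u (L - b) (sh b y) := fun y =>
    Finset.sum_nonneg fun b _ => Finset.sum_nonneg fun a _ =>
      mul_nonneg (mul_nonneg (hu _ _) (hZ _ _)) (hu _ _)
  have huR : ∀ y, u L y ≤ R y := by
    intro y
    rw [hR]
    unfold Rb
    linarith [hsum0 y]
  have hR0 : ∀ y, 0 ≤ R y := fun y => le_trans (hu L y) (huR y)
  set W : ℕ → (ℕ → E) → ℝ := fun c y => ∑ b ∈ Finset.range c, Z κ b y * u (c - b) (sh b y) with hW
  have hWR : ∀ n y, n < L → u n y * W (L - n) (sh n y) ≤ R y := by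
    intro n y hn
    have e : u n y * W (L - n) (sh n y) = ∑ b ∈ Finset.Ico n L,
        u n y * Z κ (b - n) (sh n y) * u (L - b) (sh b y) := by
      simp only [hW]
      rw [Finset.mul_sum, Finset.sum_Ico_eq_sum_range]
      refine Finset.sum_congr rfl fun b hb => ?_
      rw [Finset.mem_range] at hb
      rw [sh_sh, show n + b - n = b by omega, show L - n - b = L - (n + b) by omega]
      ring
    have h1 : ∑ b ∈ Finset.Ico n L, u n y * Z κ (b - n) (sh n y) * u (L - b) (sh b y) ≤
        ∑ b ∈ Finset.range L, ∑ a ∈ Finset.range (b + 1),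
          u a y * Z κ (b - a) (sh a y) * u (L - b) (sh b y) := by
      refine le_trans (Finset.sum_le_sum (g := fun b => ∑ a ∈ Finset.range (b + 1),
        u a y * Z κ (b - a) (sh a y) * u (L - b) (sh b y)) fun b hb => ?_)
        (Finset.sum_le_sum_of_subset_of_nonneg ?_ fun b _ _ => Finset.sum_nonneg fun a _ =>
          mul_nonneg (mul_nonneg (hu _ _) (hZ _ _)) (hu _ _))
      · rw [Finset.mem_Ico] at hb
        exact Finset.single_le_sum (f := fun a => u a y * Z κ (b - a) (sh a y) * u (L - b) (sh b y))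
          (fun a _ => mul_nonneg (mul_nonneg (hu _ _) (hZ _ _)) (hu _ _))
          (Finset.mem_range.2 (by omega))
      · intro b hb
        rw [Finset.mem_Ico] at hb
        exact Finset.mem_range.2 hb.2
    rw [e, hR]
    unfold Rb
    linarith [hu L y]
  have hW0 : ∀ c y, 0 ≤ W c y := fun c y =>
    Finset.sum_nonneg fun b _ => mul_nonneg (hZ _ _) (hu _ _)
  set P : ℕ → (ℕ → E) → ℝ := fun j y => ∏ i ∈ Finset.range j, R (sh (i * L) y) with hP
  have hP0 : ∀ j y, 0 ≤ P j y := fun j y => Finset.prod_nonneg fun i _ => hR0 _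
  have hPs : ∀ j y, P (j + 1) y = R y * P j (sh L y) := by
    intro j y
    simp only [hP]
    rw [Finset.prod_range_succ', Nat.zero_mul, sh_zero, mul_comm]
    congr 1
    refine Finset.prod_congr rfl fun i _ => ?_
    rw [sh_sh, show L + i * L = (i + 1) * L by ring]
  have huP : ∀ j y, u (j * L) y ≤ P j y := by
    intro j
    induction j with
    | zero => intro y; simp [hP, hu0]
    | succ j ih =>
      intro y
      rw [hPs, show (j + 1) * L = L + j * L by ring]
      exact le_trans (hum _ _ _) (mul_le_mul (huR y) (ih _) (hu _ _) (hR0 _))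
  -- main claim
  have main : ∀ N x j c, N = j * L + c → 1 ≤ c → c ≤ L →
      Zf κ κf N x ≤ W c x * P j (sh c x) := by
    intro N
    induction N using Nat.strong_induction_on with
    | _ N IH =>
      intro x j c hN hc hcL
      -- Lemma B
      have hB : ∀ j n y, n ≤ j * L → j * L - n < N →
          u n y * Zf κ κf (j * L - n) (sh n y) ≤ P j y := by
        intro j
        induction j with
        | zero =>
          intro n y hn _
          have hn0 : n = 0 := by omega
          subst hn0
          simp only [Nat.zero_mul, Nat.sub_zero, hu0, sh_zero, one_mul]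
          simpa [hP] using hZf0 y
        | succ j ih =>
          intro n y hn hlt
          rw [hPs]
          rcases Nat.lt_or_ge n L with h | h
          · have e : (j + 1) * L - n = j * L + (L - n) := by
              rw [show (j + 1) * L = j * L + L by ring]; omega
            have h1 := IH ((j + 1) * L - n) hlt (sh n y) j (L - n) e (by omega) (by omega)
            rw [sh_sh, show n + (L - n) = L by omega] at h1
            calc u n y * Zf κ κf ((j + 1) * L - n) (sh n y)
                ≤ u n y * (W (L - n) (sh n y) * P j (sh L y)) :=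
                  mul_le_mul_of_nonneg_left h1 (hu _ _)
              _ = (u n y * W (L - n) (sh n y)) * P j (sh L y) := by ring
              _ ≤ R y * P j (sh L y) := mul_le_mul_of_nonneg_right (hWR n y h) (hP0 _ _)
          · obtain ⟨n', rfl⟩ : ∃ n', n = L + n' := ⟨n - L, by omega⟩
            have e : (j + 1) * L - (L + n') = j * L - n' := by
              rw [show (j + 1) * L = j * L + L by ring]; omega
            have hle : n' ≤ j * L := by
              have : (j + 1) * L = j * L + L := by ring
              omega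
            have h1 := ih n' (sh L y) hle (by rw [e] at hlt; exact hlt)
            rw [e]
            rw [sh_sh] at h1
            calc u (L + n') y * Zf κ κf (j * L - n') (sh (L + n') y)
                ≤ (u L y * u n' (sh L y)) * Zf κ κf (j * L - n') (sh (L + n') y) :=
                  mul_le_mul_of_nonneg_right (hum _ _ _) (hZf _ _)
              _ = u L y * (u n' (sh L y) * Zf κ κf (j * L - n') (sh (L + n') y)) := by ring
              _ ≤ R y * P j (sh L y) := mul_le_mul (huR y) h1
                  (mul_nonneg (hu _ _) (hZf _ _)) (hR0 _)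
      -- decomposition
      rw [hstep]
      have hsplit : Finset.Icc 1 N = Finset.Icc 1 (c - 1) ∪ Finset.Icc c N := by
        ext i
        simp only [Finset.mem_Icc, Finset.mem_union]
        omega
      have hdisj : Disjoint (Finset.Icc 1 (c - 1)) (Finset.Icc c N) := by
        rw [Finset.disjoint_left]
        intro i h1 h2
        simp only [Finset.mem_Icc] at h1 h2
        omega
      rw [hsplit, Finset.sum_union hdisj]
      -- small first excursions
      have h2 : ∑ i ∈ Finset.Icc 1 (c - 1), κ i x * Zf κ κf (N - i) (sh i x) ≤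
          (∑ i ∈ Finset.Icc 1 (c - 1), κ i x * W (c - i) (sh i x)) * P j (sh c x) := by
        rw [Finset.sum_mul]
        refine Finset.sum_le_sum fun i hi => ?_
        rw [Finset.mem_Icc] at hi
        have h1 := IH (N - i) (by omega) (sh i x) j (c - i) (by omega) (by omega) (by omega)
        rw [sh_sh, show i + (c - i) = c by omega] at h1
        calc κ i x * Zf κ κf (N - i) (sh i x)
            ≤ κ i x * (W (c - i) (sh i x) * P j (sh c x)) := mul_le_mul_of_nonneg_left h1 (hκ _ _)
          _ = κ i x * W (c - i) (sh i x) * P j (sh c x) := by ring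
      have h2' : W c x = u c x + ∑ i ∈ Finset.Icc 1 (c - 1), κ i x * W (c - i) (sh i x) :=
        ren κ u hc x
      -- long first excursions
      have h3 : ∑ i ∈ Finset.Icc c N, κ i x * Zf κ κf (N - i) (sh i x) ≤
          (∑ i ∈ Finset.Icc c N, K i) * (u c x * P j (sh c x)) := by
        rw [Finset.sum_mul]
        refine Finset.sum_le_sum fun i hi => ?_
        rw [Finset.mem_Icc] at hi
        have e : N - i = j * L - (i - c) := by omega
        have h1 := hB j (i - c) (sh c x) (by omega) (by omega)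
        rw [sh_sh, show c + (i - c) = i by omega, ← e] at h1
        have h4 : u i x ≤ u c x * u (i - c) (sh c x) := by
          have := hum c (i - c) x
          rwa [show c + (i - c) = i by omega] at this
        calc κ i x * Zf κ κf (N - i) (sh i x)
            ≤ (K i * u i x) * Zf κ κf (N - i) (sh i x) :=
              mul_le_mul_of_nonneg_right (hκu i x (by omega)) (hZf _ _)
          _ ≤ (K i * (u c x * u (i - c) (sh c x))) * Zf κ κf (N - i) (sh i x) :=
              mul_le_mul_of_nonneg_right (mul_le_mul_of_nonneg_left h4 (hK i)) (hZf _ _)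
          _ = K i * (u c x * (u (i - c) (sh c x) * Zf κ κf (N - i) (sh i x))) := by ring
          _ ≤ K i * (u c x * P j (sh c x)) :=
              mul_le_mul_of_nonneg_left (mul_le_mul_of_nonneg_left h1 (hu _ _)) (hK i)
      have h4 : κf N x ≤ Kf N * (u c x * P j (sh c x)) := by
        refine le_trans (hκfu N x) (mul_le_mul_of_nonneg_left ?_ (hKf N))
        have := hum c (j * L) x
        rw [show c + j * L = N by omega] at this
        exact le_trans this (mul_le_mul_of_nonneg_left (huP _ _) (hu _ _))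
      have h5 : Kf N + ∑ i ∈ Finset.Icc c N, K i ≤ 1 := by
        refine le_trans ?_ (hK1 N)
        have : ∑ i ∈ Finset.Icc c N, K i ≤ ∑ i ∈ Finset.Icc 1 N, K i :=
          Finset.sum_le_sum_of_subset_of_nonneg (Finset.Icc_subset_Icc hc le_rfl) fun i _ _ => hK i
        linarith
      have h6 : 0 ≤ u c x * P j (sh c x) := mul_nonneg (hu _ _) (hP0 _ _)
      have h7 : (Kf N + ∑ i ∈ Finset.Icc c N, K i) * (u c x * P j (sh c x)) ≤
          1 * (u c x * P j (sh c x)) := mul_le_mul_of_nonneg_right h5 h6
      rw [h2']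
      nlinarith [h2, h3, h4, h7]
  rcases Nat.eq_zero_or_pos M with rfl | hM
  · simpa using hZf0 x
  · obtain ⟨j, rfl⟩ : ∃ j, M = j + 1 := ⟨M - 1, by omega⟩
    have h1 := main ((j + 1) * L) x j L (by ring) hL le_rfl
    change _ ≤ P (j + 1) x
    rw [hPs]
    refine le_trans h1 (mul_le_mul_of_nonneg_right ?_ (hP0 _ _))
    have := hWR 0 x (by omega)
    rwa [hu0, one_mul, sh_zero, Nat.sub_zero] at this

end Copoly
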