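import Pool.Agent.Work.MP_fd21e9_pr.MomGood

/-! # Bound on the mean logarithm of the block weight -/

open MeasureTheory ProbabilityTheory
open scoped ENNReal

namespace Copoly

variable {E : Type*} [MeasurableSpace E] {ν : Measure E} [IsProbabilityMeasure ν]

/-- Measurability of the block weight. -/
theorem Rb_meas {κ u : ℕ → (ℕ → E) → ℝ} (hκ : IsKernel κ) (hu : IsKernel u) (L : ℕ) :
    Measurable (Rb κ u L) := by
  change Measurable (fun x => u L x + ∑ b ∈ Finset.range L, ∑ a ∈ Finset.range (b + 1),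
    u a x * Z κ (b - a) (sh a x) * u (L - b) (sh b x))
  refine (hu.meas L).add ?_
  refine Finset.measurable_fun_sum _ (fun b _ => Finset.measurable_fun_sum _ (fun a _ => ?_))
  exact ((hu.meas a).mul ((Z_meas hκ.meas _).comp (measurable_sh a))).mul
    ((hu.meas _).comp (measurable_sh b))

omit [MeasurableSpace E] in
theorem one_le_Rb {κ u : ℕ → (ℕ → E) → ℝ} (hκ : ∀ n x, 0 ≤ κ n x) (hu1 : ∀ n x, 1 ≤ u n x)
    (L : ℕ) (x : ℕ → E) : 1 ≤ Rb κ u L x := by
  unfold Rb
  have h0 : ∀ n x, 0 ≤ u n x := fun n x => le_trans zero_le_one (hu1 n x)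
  have h : 0 ≤ ∑ b ∈ Finset.range L, ∑ a ∈ Finset.range (b + 1),
      u a x * Z κ (b - a) (sh a x) * u (L - b) (sh b x) :=
    Finset.sum_nonneg (fun b _ => Finset.sum_nonneg (fun a _ =>
      mul_nonneg (mul_nonneg (h0 _ _) (Z_nonneg hκ _ _)) (h0 _ _)))
  have := hu1 L x
  linarith

omit [MeasurableSpace E] in
private theorem prod_split3 {g : E → ℝ} {a b L : ℕ} (hab : a ≤ b) (hbL : b ≤ L) (x : ℕ → E) :
    ∏ j ∈ Finset.range L, g (x j) = (∏ j ∈ Finset.range a, g (x j)) *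
      (∏ j ∈ Finset.range (b - a), g (sh a x j)) * ∏ j ∈ Finset.range (L - b), g (sh b x j) := by
  have h1 : L = b + (L - b) := by omega
  have h2 : b = a + (b - a) := by omega
  conv_lhs => rw [h1]
  rw [Finset.prod_range_add]
  conv_lhs => rw [h2]
  rw [Finset.prod_range_add]
  have h3 : ∀ j, sh a x j = x (a + j) := fun j => by simp only [sh]; rw [Nat.add_comm]
  have h4 : ∀ j, sh b x j = x (b + j) := fun j => by simp only [sh]; rw [Nat.add_comm]
  simp only [h3, h4]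
  rw [← h2]

omit [MeasurableSpace E] in
/-- Crude bound on the block weight. -/
theorem Rb_crude {κ u : ℕ → (ℕ → E) → ℝ} {g : E → ℝ} (hκ : ∀ n x, 0 ≤ κ n x)
    (hu1 : ∀ n x, 1 ≤ u n x) (hg1 : ∀ e, 1 ≤ g e)
    (hZg : ∀ n x, Z κ n x ≤ ∏ j ∈ Finset.range n, g (x j))
    (hug : ∀ n x, u n x ≤ ∏ j ∈ Finset.range n, g (x j)) (L : ℕ) (x : ℕ → E) :
    Rb κ u L x ≤ (1 + (L : ℝ) ^ 2) * ∏ j ∈ Finset.range L, g (x j) := by
  have hu0 : ∀ n x, 0 ≤ u n x := fun n x => le_trans zero_le_one (hu1 n x)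
  have hg0 : ∀ e, 0 ≤ g e := fun e => le_trans zero_le_one (hg1 e)
  have hP0 : ∀ (n : ℕ) (x : ℕ → E), 0 ≤ ∏ j ∈ Finset.range n, g (x j) :=
    fun n x => Finset.prod_nonneg (fun j _ => hg0 _)
  set P : ℝ := ∏ j ∈ Finset.range L, g (x j) with hP
  have hterm : ∀ b ∈ Finset.range L, ∀ a ∈ Finset.range (b + 1),
      u a x * Z κ (b - a) (sh a x) * u (L - b) (sh b x) ≤ P := by
    intro b hb a ha
    rw [Finset.mem_range] at hb ha
    rw [hP, prod_split3 (g := g) (a := a) (b := b) (L := L) (by omega) hb.le x]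
    refine mul_le_mul (mul_le_mul (hug a x) (hZg _ _) (Z_nonneg hκ _ _) (hP0 a x))
      (hug _ _) (hu0 _ _) (mul_nonneg (hP0 a x) (hP0 _ _))
  unfold Rb
  have h1 : ∑ b ∈ Finset.range L, ∑ a ∈ Finset.range (b + 1),
      u a x * Z κ (b - a) (sh a x) * u (L - b) (sh b x) ≤ (L : ℝ) ^ 2 * P := by
    calc ∑ b ∈ Finset.range L, ∑ a ∈ Finset.range (b + 1),
          u a x * Z κ (b - a) (sh a x) * u (L - b) (sh b x)
        ≤ ∑ b ∈ Finset.range L, (L : ℝ) * P := by
          refine Finset.sum_le_sum (fun b hb => ?_)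
          calc ∑ a ∈ Finset.range (b + 1), u a x * Z κ (b - a) (sh a x) * u (L - b) (sh b x)
              ≤ ∑ a ∈ Finset.range (b + 1), P := Finset.sum_le_sum (hterm b hb)
            _ = ((b + 1 : ℕ) : ℝ) * P := by
                rw [Finset.sum_const, Finset.card_range, nsmul_eq_mul]
            _ ≤ (L : ℝ) * P := by
                refine mul_le_mul_of_nonneg_right ?_ (hP0 L x)
                exact_mod_cast Finset.mem_range.mp hb
      _ = (L : ℝ) ^ 2 * P := by
          rw [Finset.sum_const, Finset.card_range, nsmul_eq_mul]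
          ring
  have h2 := hug L x
  have h3 : (1 + (L : ℝ) ^ 2) * P = P + (L : ℝ) ^ 2 * P := by ring
  rw [h3]
  exact add_le_add h2 h1

private theorem int_coord {g : E → ℝ} (hgi : Integrable g ν) (j : ℕ) :
    Integrable (fun x : ℕ → E => g (x j)) (mu ν) := by
  have hmp : MeasurePreserving (Function.eval j) (mu ν) ν :=
    measurePreserving_eval_infinitePi (fun _ : ℕ => ν) j
  exact hmp.integrable_comp_of_integrable hgi

private theorem integral_coord {g : E → ℝ} (hgm : Measurable g) (j : ℕ) :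
    ∫ x : ℕ → E, g (x j) ∂(mu ν) = ∫ e, g e ∂ν := by
  have hmp : MeasurePreserving (Function.eval j) (mu ν) ν :=
    measurePreserving_eval_infinitePi (fun _ : ℕ => ν) j
  have h := integral_map (μ := mu ν) (φ := Function.eval j) (f := g)
    hmp.measurable.aemeasurable (by rw [hmp.map_eq]; exact hgm.aestronglyMeasurable)
  rw [hmp.map_eq] at h
  exact h.symm

omit [MeasurableSpace E] in
private theorem log_Rb_le {κ u : ℕ → (ℕ → E) → ℝ} {g : E → ℝ} (hκ : ∀ n x, 0 ≤ κ n x)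
    (hu1 : ∀ n x, 1 ≤ u n x) (hg1 : ∀ e, 1 ≤ g e)
    (hZg : ∀ n x, Z κ n x ≤ ∏ j ∈ Finset.range n, g (x j))
    (hug : ∀ n x, u n x ≤ ∏ j ∈ Finset.range n, g (x j)) (L : ℕ) (x : ℕ → E) :
    Real.log (Rb κ u L x) ≤ Real.log (1 + (L : ℝ) ^ 2) +
      ∑ j ∈ Finset.range L, Real.log (g (x j)) := by
  have hg0 : ∀ e, 0 < g e := fun e => lt_of_lt_of_le zero_lt_one (hg1 e)
  have h1 := Rb_crude hκ hu1 hg1 hZg hug L x
  have h2 : 0 < Rb κ u L x := lt_of_lt_of_le zero_lt_one (one_le_Rb hκ hu1 L x)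
  have h3 : 0 < ∏ j ∈ Finset.range L, g (x j) := Finset.prod_pos (fun j _ => hg0 _)
  refine le_trans (Real.log_le_log h2 h1) ?_
  rw [Real.log_mul (by positivity) h3.ne', Real.log_prod (fun j _ => (hg0 _).ne')]

theorem Rb_integrable {κ u : ℕ → (ℕ → E) → ℝ} {g : E → ℝ} (hκ : IsKernel κ) (hu : IsKernel u)
    (hu1 : ∀ n x, 1 ≤ u n x) (hgm : Measurable g) (hg1 : ∀ e, 1 ≤ g e) (hgi : Integrable g ν)
    (hZg : ∀ n x, Z κ n x ≤ ∏ j ∈ Finset.range n, g (x j))
    (hug : ∀ n x, u n x ≤ ∏ j ∈ Finset.range n, g (x j)) (L : ℕ) :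
    Integrable (fun x => Real.log (Rb κ u L x)) (mu ν) := by
  have hbd : Integrable (fun x : ℕ → E => Real.log (1 + (L : ℝ) ^ 2) +
      ∑ j ∈ Finset.range L, g (x j)) (mu ν) :=
    (integrable_const _).add (integrable_finsetSum _ (fun j _ => int_coord hgi j))
  refine hbd.mono' (Real.measurable_log.comp (Rb_meas hκ hu L)).aestronglyMeasurable ?_
  refine Filter.Eventually.of_forall (fun x => ?_)
  have h1 := one_le_Rb hκ.nonneg hu1 L x
  rw [Real.norm_eq_abs, abs_of_nonneg (Real.log_nonneg h1)]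
  refine le_trans (log_Rb_le hκ.nonneg hu1 hg1 hZg hug L x) ?_
  refine add_le_add le_rfl (Finset.sum_le_sum (fun j _ => ?_))
  exact Real.log_le_self (le_trans zero_le_one (hg1 _))

private theorem ennr_sum_rpow {ι : Type*} (s : Finset ι) (f : ι → ℝ≥0∞) {θ : ℝ} (hθ : 0 < θ)
    (hθ1 : θ ≤ 1) : (∑ i ∈ s, f i) ^ θ ≤ ∑ i ∈ s, f i ^ θ := by
  classical
  induction s using Finset.induction_on with
  | empty => simp [ENNReal.zero_rpow_of_pos hθ]
  | insert i s hi ih =>
    rw [Finset.sum_insert hi, Finset.sum_insert hi]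
    exact le_trans (ENNReal.rpow_add_le_add_rpow _ _ hθ.le hθ1) (add_le_add le_rfl ih)

/-- The restricted moment of the block weight. -/
theorem Rb_mom {κ₀ κ u : ℕ → (ℕ → E) → ℝ} (hκ₀ : IsKernel κ₀) (hκ : IsKernel κ)
    (hu : IsKernel u) {θ : ℝ} (hθ : 0 < θ) (hθ1 : θ ≤ 1) {l : ℕ} {y : ℝ} {L : ℕ}
    {Cu B : ℝ≥0∞} (hCu : 1 ≤ Cu) (hmu : ∀ n, mom ν θ (u n) ≤ Cu)
    (hB : ∑ m ∈ Finset.range L, vv ν κ₀ κ l y θ m ≤ B) :
    ∫⁻ x in noWin κ₀ l y L, ENNReal.ofReal (Rb κ u L x ^ θ) ∂(mu ν) ≤ Cu + Cu ^ 2 * L * B := by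
  have hθ0 := hθ.le
  -- the pointwise bound
  set T : ℕ → ℕ → (ℕ → E) → ℝ≥0∞ := fun b a x =>
    ENNReal.ofReal (u a x ^ θ) * ENNReal.ofReal (Z κ (b - a) (sh a x) ^ θ) *
      ENNReal.ofReal (u (L - b) (sh b x) ^ θ) with hT
  have hpt : ∀ x, ENNReal.ofReal (Rb κ u L x ^ θ) ≤ ENNReal.ofReal (u L x ^ θ) +
      ∑ b ∈ Finset.range L, ∑ a ∈ Finset.range (b + 1), T b a x := by
    intro x
    have hR0 : 0 ≤ ∑ b ∈ Finset.range L, ∑ a ∈ Finset.range (b + 1),
        u a x * Z κ (b - a) (sh a x) * u (L - b) (sh b x) :=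
      Finset.sum_nonneg (fun b _ => Finset.sum_nonneg (fun a _ =>
        mul_nonneg (mul_nonneg (hu.nonneg _ _) (Z_nonneg hκ.nonneg _ _)) (hu.nonneg _ _)))
    unfold Rb
    rw [← ENNReal.ofReal_rpow_of_nonneg (add_nonneg (hu.nonneg _ _) hR0) hθ0,
      ENNReal.ofReal_add (hu.nonneg _ _) hR0]
    refine le_trans (ENNReal.rpow_add_le_add_rpow _ _ hθ0 hθ1) ?_
    refine add_le_add (ENNReal.ofReal_rpow_of_nonneg (hu.nonneg _ _) hθ0).le ?_
    rw [ENNReal.ofReal_sum_of_nonneg (fun b _ => Finset.sum_nonneg (fun a _ =>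
        mul_nonneg (mul_nonneg (hu.nonneg _ _) (Z_nonneg hκ.nonneg _ _)) (hu.nonneg _ _)))]
    refine le_trans (ennr_sum_rpow _ _ hθ hθ1) (Finset.sum_le_sum (fun b _ => ?_))
    rw [ENNReal.ofReal_sum_of_nonneg (fun a _ =>
        mul_nonneg (mul_nonneg (hu.nonneg _ _) (Z_nonneg hκ.nonneg _ _)) (hu.nonneg _ _))]
    refine le_trans (ennr_sum_rpow _ _ hθ hθ1) (Finset.sum_le_sum (fun a _ => ?_))
    rw [hT]
    simp only
    rw [ENNReal.ofReal_mul (mul_nonneg (hu.nonneg _ _) (Z_nonneg hκ.nonneg _ _)),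
      ENNReal.ofReal_mul (hu.nonneg _ _), ENNReal.mul_rpow_of_nonneg _ _ hθ0,
      ENNReal.mul_rpow_of_nonneg _ _ hθ0,
      ENNReal.ofReal_rpow_of_nonneg (hu.nonneg _ _) hθ0,
      ENNReal.ofReal_rpow_of_nonneg (Z_nonneg hκ.nonneg _ _) hθ0,
      ENNReal.ofReal_rpow_of_nonneg (hu.nonneg _ _) hθ0]
  have hum : ∀ n, Measurable (fun x => ENNReal.ofReal (u n x ^ θ)) :=
    fun n => ((hu.meas n).pow_const θ).ennreal_ofReal
  have hzm : ∀ n, Measurable (fun x => ENNReal.ofReal (Z κ n x ^ θ)) :=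
    fun n => ((Z_meas hκ.meas n).pow_const θ).ennreal_ofReal
  have hTm : ∀ b a, Measurable (T b a) := by
    intro b a
    exact ((hum a).mul ((hzm (b - a)).comp (measurable_sh a))).mul
      ((hum (L - b)).comp (measurable_sh b))
  have hA := measurableSet_noWin hκ₀.meas l y L
  -- each term
  have hterm : ∀ b ∈ Finset.range L, ∀ a ∈ Finset.range (b + 1),
      ∫⁻ x in noWin κ₀ l y L, T b a x ∂(mu ν) ≤ Cu ^ 2 * vv ν κ₀ κ l y θ (b - a) := by
    intro b hb a ha
    rw [Finset.mem_range] at hb ha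
    have hN := measurableSet_noWin hκ₀.meas l y (b - a)
    set w : (ℕ → E) → ℝ≥0∞ := (noWin κ₀ l y (b - a)).indicator
      (fun x => ENNReal.ofReal (Z κ (b - a) x ^ θ)) with hw
    have hwm : Measurable w := (hzm (b - a)).indicator hN
    have h1 : ∫⁻ x in noWin κ₀ l y L, T b a x ∂(mu ν) ≤
        ∫⁻ x, ENNReal.ofReal (u a x ^ θ) * w (sh a x) *
          ENNReal.ofReal (u (L - b) (sh (a + (b - a)) x) ^ θ) ∂(mu ν) := by
      refine le_trans (setLIntegral_mono' hA (fun x hx => ?_)) (setLIntegral_le_lintegral _ _)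
      have hab : a + (b - a) = b := by omega
      have hmem : sh a x ∈ noWin κ₀ l y (b - a) := noWin_sh l y (by omega) hx
      rw [hab, hw, Set.indicator_of_mem hmem, hT]
    refine le_trans h1 ?_
    have hd1 : Dep a (fun x => ENNReal.ofReal (u a x ^ θ)) := by
      intro x y hxy
      simp only
      rw [hu.dep a x y hxy]
    have hd2 : Dep (b - a) w := by
      intro x x' hxy
      have e1 := noWin_dep hκ₀.dep l y (b - a) x x' hxy
      have e2 : Z κ (b - a) x = Z κ (b - a) x' := Z_dep hκ.dep (b - a) x x' hxy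
      simp only at e1
      rw [hw]
      by_cases hx : x ∈ noWin κ₀ l y (b - a)
      · have hx' : x' ∈ noWin κ₀ l y (b - a) := e1 ▸ hx
        rw [Set.indicator_of_mem hx, Set.indicator_of_mem hx', e2]
      · have hx' : x' ∉ noWin κ₀ l y (b - a) := fun h => hx (e1.symm ▸ h)
        rw [Set.indicator_of_notMem hx, Set.indicator_of_notMem hx']
    have h2 := lintegral_mul_sh3 (ν := ν) (a := a) (b := b - a) (hum a) hwm (hum (L - b)) hd1 hd2
    have h3 : ∫⁻ x, ENNReal.ofReal (u a x ^ θ) * w (sh a x) *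
          ENNReal.ofReal (u (L - b) (sh (a + (b - a)) x) ^ θ) ∂(mu ν) =
        mom ν θ (u a) * vv ν κ₀ κ l y θ (b - a) * mom ν θ (u (L - b)) := by
      rw [h2]
      unfold mom vv
      rw [hw, lintegral_indicator hN]
    rw [h3]
    calc mom ν θ (u a) * vv ν κ₀ κ l y θ (b - a) * mom ν θ (u (L - b))
        ≤ Cu * vv ν κ₀ κ l y θ (b - a) * Cu := by
          gcongr
          · exact hmu a
          · exact hmu (L - b)
      _ = Cu ^ 2 * vv ν κ₀ κ l y θ (b - a) := by ring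
  calc ∫⁻ x in noWin κ₀ l y L, ENNReal.ofReal (Rb κ u L x ^ θ) ∂(mu ν)
      ≤ ∫⁻ x in noWin κ₀ l y L, (ENNReal.ofReal (u L x ^ θ) +
        ∑ b ∈ Finset.range L, ∑ a ∈ Finset.range (b + 1), T b a x) ∂(mu ν) :=
        lintegral_mono (fun x => hpt x)
    _ = ∫⁻ x in noWin κ₀ l y L, ENNReal.ofReal (u L x ^ θ) ∂(mu ν) +
        ∑ b ∈ Finset.range L, ∑ a ∈ Finset.range (b + 1),
          ∫⁻ x in noWin κ₀ l y L, T b a x ∂(mu ν) := by
        rw [lintegral_add_left (hum L), lintegral_finsetSum _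
          (fun b _ => Finset.measurable_fun_sum _ (fun a _ => hTm b a))]
        congr 1
        refine Finset.sum_congr rfl (fun b _ => ?_)
        rw [lintegral_finsetSum _ (fun a _ => hTm b a)]
    _ ≤ Cu + ∑ b ∈ Finset.range L, ∑ a ∈ Finset.range (b + 1),
          Cu ^ 2 * vv ν κ₀ κ l y θ (b - a) := by
        refine add_le_add ?_ (Finset.sum_le_sum (fun b hb => Finset.sum_le_sum (hterm b hb)))
        exact le_trans (setLIntegral_le_lintegral _ _) (hmu L)
    _ ≤ Cu + ∑ b ∈ Finset.range L, Cu ^ 2 * B := by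
        refine add_le_add le_rfl (Finset.sum_le_sum (fun b hb => ?_))
        rw [← Finset.mul_sum]
        refine mul_le_mul_right (le_trans ?_ hB) _
        have hrefl := Finset.sum_range_reflect (fun m => vv ν κ₀ κ l y θ m) (b + 1)
        have he : ∑ a ∈ Finset.range (b + 1), vv ν κ₀ κ l y θ (b - a) =
            ∑ j ∈ Finset.range (b + 1), vv ν κ₀ κ l y θ (b + 1 - 1 - j) := by
          simp
        rw [he, hrefl]
        exact Finset.sum_le_sum_of_subset (by
          intro m hm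
          rw [Finset.mem_range] at *
          omega)
    _ = Cu + Cu ^ 2 * L * B := by
        rw [Finset.sum_const, Finset.card_range, nsmul_eq_mul]
        ring

private theorem int_lin {F1 F2 F3 : (ℕ → E) → ℝ} (h1 : Integrable F1 (mu ν))
    (h2 : Integrable F2 (mu ν)) (h3 : Integrable F3 (mu ν)) (a b c d : ℝ) :
    ∫ x, (a * F1 x + b * F2 x + c * F3 x + d) ∂(mu ν) =
      a * (∫ x, F1 x ∂(mu ν)) + b * (∫ x, F2 x ∂(mu ν)) + c * (∫ x, F3 x ∂(mu ν)) + d := by
  have i1 : Integrable (fun x => a * F1 x) (mu ν) := h1.const_mul a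
  have i2 : Integrable (fun x => b * F2 x) (mu ν) := h2.const_mul b
  have i3 : Integrable (fun x => c * F3 x) (mu ν) := h3.const_mul c
  have i12 : Integrable (fun x => a * F1 x + b * F2 x) (mu ν) := i1.add i2
  have i123 : Integrable (fun x => a * F1 x + b * F2 x + c * F3 x) (mu ν) := i12.add i3
  rw [integral_add i123 (integrable_const d), integral_add i12 i3, integral_add i1 i2,
    integral_const_mul, integral_const_mul, integral_const_mul]
  simp

/-- Main bound of this file. The constant `C` depends only on `ν`, `g`, `θ`, `Cu`. -/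
theorem ER_bound {g : E → ℝ} (hgm : Measurable g) (hg1 : ∀ e, 1 ≤ g e) (hgi : Integrable g ν)
    {θ : ℝ} (hθ : 0 < θ) (hθ1 : θ ≤ 1) {Cu : ℝ} (hCu : 1 ≤ Cu) :
    ∃ C : ℝ, 0 < C ∧ ∀ (κ₀ κ u : ℕ → (ℕ → E) → ℝ), IsKernel κ₀ → IsKernel κ → IsKernel u →
      (∀ n x, 1 ≤ u n x) →
      (∀ n x, Z κ n x ≤ ∏ j ∈ Finset.range n, g (x j)) →
      (∀ n x, u n x ≤ ∏ j ∈ Finset.range n, g (x j)) →
      (∀ n, mom ν θ (u n) ≤ ENNReal.ofReal Cu) →
      ∀ (l : ℕ) (y : ℝ) (L : ℕ) (B : ℝ), 1 ≤ L → 1 ≤ B →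
      (∑ m ∈ Finset.range L, vv ν κ₀ κ l y θ m ≤ ENNReal.ofReal B) →
      ((mu ν) (noWin κ₀ l y L)ᶜ ≤ ENNReal.ofReal ((L : ℝ) ^ (-2 : ℝ))) →
      ∫ x, Real.log (Rb κ u L x) ∂(mu ν) ≤ C * (1 + Real.log L + Real.log B) := by
  have hG : 0 ≤ ∫ e, g e ∂ν := integral_nonneg (fun e => le_trans zero_le_one (hg1 e))
  have hlc : 0 ≤ Real.log Cu := Real.log_nonneg hCu
  have hl2 : 0 < Real.log 2 := Real.log_pos one_lt_two
  have hθi : 0 < 1 / θ := one_div_pos.mpr hθ
  refine ⟨1 / θ * (1 + Real.log 2 + 2 * Real.log Cu) + Real.log 2 +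
    (1 + 4 * ∫ e, g e ∂ν) / 2 + 1 / θ + 2, by positivity, ?_⟩
  intro κ₀ κ u hκ₀ hκ hu hu1 hZg hug hmu l y L B hL hB hV hP
  have hLr : (1 : ℝ) ≤ L := by exact_mod_cast hL
  have hL0 : (0 : ℝ) < L := by linarith
  set A : Set (ℕ → E) := noWin κ₀ l y L with hAdef
  have hA : MeasurableSet A := measurableSet_noWin hκ₀.meas l y L
  set M : ℝ := Cu + Cu ^ 2 * L * B with hM
  have hCu2 : 1 ≤ Cu ^ 2 := one_le_pow₀ hCu
  have hCL : 1 ≤ Cu ^ 2 * L := by nlinarith
  have hCLB : 1 ≤ Cu ^ 2 * L * B := by nlinarith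
  have hM1 : 1 ≤ M := by rw [hM]; linarith
  have hM0 : 0 < M := by linarith
  have hlogM : Real.log M ≤ Real.log 2 + 2 * Real.log Cu + Real.log L + Real.log B := by
    have h1 : M ≤ 2 * (Cu ^ 2 * L * B) := by
      have h2 : Cu ≤ Cu ^ 2 * L * B := by
        have h3 : Cu ≤ Cu ^ 2 := by nlinarith
        have h4 : Cu ^ 2 ≤ Cu ^ 2 * L := by nlinarith
        have h5 : Cu ^ 2 * L ≤ Cu ^ 2 * L * B := by nlinarith
        linarith
      rw [hM]; linarith
    refine le_trans (Real.log_le_log hM0 h1) ?_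
    rw [Real.log_mul (by norm_num) (by positivity), Real.log_mul (by positivity) (by positivity),
      Real.log_mul (by positivity) (by positivity), Real.log_pow]
    push_cast
    linarith
  have hMom : ∫⁻ x in A, ENNReal.ofReal (Rb κ u L x ^ θ) ∂(mu ν) ≤ ENNReal.ofReal M := by
    have h := Rb_mom hκ₀ hκ hu hθ hθ1 (Cu := ENNReal.ofReal Cu) (B := ENNReal.ofReal B)
      (l := l) (y := y) (L := L) (by simpa using ENNReal.ofReal_le_ofReal hCu) hmu hV
    refine le_trans h (le_of_eq ?_)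
    rw [hM, ENNReal.ofReal_add (by positivity) (by positivity),
      ENNReal.ofReal_mul (by positivity), ENNReal.ofReal_mul (by positivity),
      ENNReal.ofReal_pow (by positivity), ENNReal.ofReal_natCast]
  have hR1 : ∀ x, 1 ≤ Rb κ u L x := one_le_Rb hκ.nonneg hu1 L
  have hR0 : ∀ x, 0 < Rb κ u L x := fun x => lt_of_lt_of_le zero_lt_one (hR1 x)
  -- F1
  have hF1m : Measurable (fun x => Rb κ u L x ^ θ) := (Rb_meas hκ hu L).pow_const θ
  have hF1i : Integrable (fun x => Rb κ u L x ^ θ) ((mu ν).restrict A) := by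
    refine ⟨hF1m.aestronglyMeasurable, ?_⟩
    rw [hasFiniteIntegral_iff_ofReal
      (Filter.Eventually.of_forall (fun x => Real.rpow_nonneg (hR0 x).le θ))]
    exact lt_of_le_of_lt hMom ENNReal.ofReal_lt_top
  have hF1b : ∫ x in A, Rb κ u L x ^ θ ∂(mu ν) ≤ M := by
    rw [integral_eq_lintegral_of_nonneg_ae
      (Filter.Eventually.of_forall (fun x => Real.rpow_nonneg (hR0 x).le θ))
      hF1m.aestronglyMeasurable]
    exact ENNReal.toReal_le_of_le_ofReal hM0.le hMom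
  set F1 : (ℕ → E) → ℝ := A.indicator (fun x => Rb κ u L x ^ θ) with hF1
  have hF1I : Integrable F1 (mu ν) := (integrable_indicator_iff hA).mpr hF1i
  have hF1B : ∫ x, F1 x ∂(mu ν) ≤ M := by
    rw [hF1, integral_indicator hA]; exact hF1b
  -- F2
  set F2 : (ℕ → E) → ℝ := Aᶜ.indicator (fun _ => (1 : ℝ)) with hF2
  have hF2I : Integrable F2 (mu ν) := (integrable_const (1 : ℝ)).indicator hA.compl
  have hF2B : ∫ x, F2 x ∂(mu ν) ≤ ((L : ℝ) ^ 2)⁻¹ := by
    rw [hF2, integral_indicator hA.compl, setIntegral_const, smul_eq_mul, mul_one]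
    have h1 : ((L : ℝ) ^ (-2 : ℝ)) = ((L : ℝ) ^ 2)⁻¹ := by
      rw [Real.rpow_neg hL0.le]
      norm_num
    rw [h1] at hP
    exact ENNReal.toReal_le_of_le_ofReal (by positivity) hP
  -- F3
  set F3 : (ℕ → E) → ℝ := fun x => ∑ j ∈ Finset.range L, 4 * g (x j) with hF3
  have hF3I : Integrable F3 (mu ν) :=
    integrable_finsetSum _ (fun j _ => (int_coord hgi j).const_mul 4)
  have hF3B : ∫ x, F3 x ∂(mu ν) = L * (4 * ∫ e, g e ∂ν) := by
    rw [hF3, integral_finsetSum _ (fun j _ => (int_coord hgi j).const_mul 4)]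
    have : ∀ j ∈ Finset.range L, ∫ x : ℕ → E, 4 * g (x j) ∂(mu ν) = 4 * ∫ e, g e ∂ν := by
      intro j _
      rw [integral_const_mul, integral_coord hgm j]
    rw [Finset.sum_congr rfl this, Finset.sum_const, Finset.card_range, nsmul_eq_mul]
  -- the pointwise bound
  have hpt : ∀ x, Real.log (Rb κ u L x) ≤ 1 / θ * (F1 x / M + Real.log M) +
      Real.log (1 + (L : ℝ) ^ 2) + (1 / 2) * ((L : ℝ) ^ 2 * F2 x + F3 x / L) := by
    intro x
    have hlM : 0 ≤ Real.log M := Real.log_nonneg hM1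
    have hl1 : 0 ≤ Real.log (1 + (L : ℝ) ^ 2) := Real.log_nonneg (by nlinarith)
    have hF3x : 0 ≤ F3 x := Finset.sum_nonneg
      (fun j _ => mul_nonneg (by norm_num) (le_trans zero_le_one (hg1 _)))
    have hF3L : 0 ≤ F3 x / L := div_nonneg hF3x hL0.le
    by_cases hx : x ∈ A
    · have e1 : F1 x = Rb κ u L x ^ θ := by rw [hF1, Set.indicator_of_mem hx]
      have e2 : F2 x = 0 := by
        rw [hF2, Set.indicator_of_notMem (by simpa using hx)]
      rw [e1, e2]
      have hpw : 0 < Rb κ u L x ^ θ := Real.rpow_pos_of_pos (hR0 x) θ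
      have h1 : Real.log (Rb κ u L x) = 1 / θ * Real.log (Rb κ u L x ^ θ) := by
        rw [Real.log_rpow (hR0 x)]
        field_simp
      have h2 : Real.log (Rb κ u L x ^ θ) ≤ Rb κ u L x ^ θ / M + Real.log M := by
        have h3 := Real.log_le_self (div_nonneg hpw.le hM0.le)
        rw [Real.log_div hpw.ne' hM0.ne'] at h3
        linarith
      have h4 : 1 / θ * Real.log (Rb κ u L x ^ θ) ≤
          1 / θ * (Rb κ u L x ^ θ / M + Real.log M) := mul_le_mul_of_nonneg_left h2 hθi.le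
      rw [h1]
      linarith
    · have e1 : F1 x = 0 := by rw [hF1, Set.indicator_of_notMem hx]
      have e2 : F2 x = 1 := by
        rw [hF2, Set.indicator_of_mem (by simpa using hx)]
      rw [e1, e2]
      have h1 := log_Rb_le hκ.nonneg hu1 hg1 hZg hug L x
      have h2 : ∑ j ∈ Finset.range L, Real.log (g (x j)) ≤
          (1 / 2) * ((L : ℝ) ^ 2 * 1 + F3 x / L) := by
        have h3 : ∀ j ∈ Finset.range L, Real.log (g (x j)) ≤
            (1 / 2) * ((L : ℝ) + 4 * g (x j) / L) := by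
          intro j _
          have hg0 : 0 < g (x j) := lt_of_lt_of_le zero_lt_one (hg1 _)
          have hs0 : 0 < Real.sqrt (g (x j)) := Real.sqrt_pos.mpr hg0
          have h4 : Real.log (g (x j)) ≤ 2 * Real.sqrt (g (x j)) := by
            have h5 : Real.log (g (x j)) = 2 * Real.log (Real.sqrt (g (x j))) := by
              rw [Real.log_sqrt hg0.le]; ring
            rw [h5]
            have := Real.log_le_self hs0.le
            linarith
          have h6 : 2 * Real.sqrt (g (x j)) ≤ (1 / 2) * ((L : ℝ) + 4 * g (x j) / L) := by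
            have h7 : 4 * g (x j) / L = (2 * Real.sqrt (g (x j))) ^ 2 / L := by
              rw [mul_pow, Real.sq_sqrt hg0.le]; norm_num
            rw [h7]
            set s := 2 * Real.sqrt (g (x j)) with hs
            have h8 : (1 / 2) * ((L : ℝ) + s ^ 2 / L) - s = (L - s) ^ 2 / (2 * L) := by
              field_simp
              ring
            have h9 : 0 ≤ (L - s) ^ 2 / (2 * L) := by positivity
            linarith
          linarith
        refine le_trans (Finset.sum_le_sum h3) (le_of_eq ?_)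
        rw [← Finset.mul_sum, Finset.sum_add_distrib, Finset.sum_const, Finset.card_range,
          nsmul_eq_mul, ← Finset.sum_div, hF3]
        ring
      have h10 : 0 ≤ 1 / θ * (0 / M + Real.log M) := by
        rw [zero_div, zero_add]
        exact mul_nonneg hθi.le hlM
      linarith
  have hI : Integrable (fun x => 1 / θ * (F1 x / M + Real.log M) +
      Real.log (1 + (L : ℝ) ^ 2) + (1 / 2) * ((L : ℝ) ^ 2 * F2 x + F3 x / L)) (mu ν) :=
    ((((hF1I.div_const M).add (integrable_const _)).const_mul _).add (integrable_const _)).add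
      (((hF2I.const_mul _).add (hF3I.div_const _)).const_mul _)
  have hInt := integral_mono (Rb_integrable hκ hu hu1 hgm hg1 hgi hZg hug L) hI hpt
  refine le_trans hInt ?_
  have hval : ∫ x, (1 / θ * (F1 x / M + Real.log M) +
      Real.log (1 + (L : ℝ) ^ 2) + (1 / 2) * ((L : ℝ) ^ 2 * F2 x + F3 x / L)) ∂(mu ν) =
      1 / θ * ((∫ x, F1 x ∂(mu ν)) / M + Real.log M) + Real.log (1 + (L : ℝ) ^ 2) +
      (1 / 2) * ((L : ℝ) ^ 2 * (∫ x, F2 x ∂(mu ν)) + (∫ x, F3 x ∂(mu ν)) / L) := by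
    have hlin := int_lin hF1I hF2I hF3I (1 / θ / M) ((1 / 2) * (L : ℝ) ^ 2) ((1 / 2) / (L : ℝ))
      (1 / θ * Real.log M + Real.log (1 + (L : ℝ) ^ 2))
    have he : ∀ x, 1 / θ * (F1 x / M + Real.log M) + Real.log (1 + (L : ℝ) ^ 2) +
        (1 / 2) * ((L : ℝ) ^ 2 * F2 x + F3 x / L) =
        1 / θ / M * F1 x + (1 / 2) * (L : ℝ) ^ 2 * F2 x + (1 / 2) / (L : ℝ) * F3 x +
          (1 / θ * Real.log M + Real.log (1 + (L : ℝ) ^ 2)) := fun x => by ring
    simp only [he]
    rw [hlin]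
    ring
  rw [hval, hF3B]
  have k1 : (∫ x, F1 x ∂(mu ν)) / M ≤ 1 := (div_le_one hM0).mpr hF1B
  have k2 : (L : ℝ) ^ 2 * (∫ x, F2 x ∂(mu ν)) ≤ 1 := by
    have h1 : (L : ℝ) ^ 2 * (∫ x, F2 x ∂(mu ν)) ≤ (L : ℝ) ^ 2 * ((L : ℝ) ^ 2)⁻¹ :=
      mul_le_mul_of_nonneg_left hF2B (by positivity)
    rwa [mul_inv_cancel₀ (by positivity)] at h1
  have k3 : (L * (4 * ∫ e, g e ∂ν)) / L = 4 * ∫ e, g e ∂ν := by
    field_simp
  rw [k3]
  have k4 : Real.log (1 + (L : ℝ) ^ 2) ≤ Real.log 2 + 2 * Real.log L := by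
    have h1 : 1 + (L : ℝ) ^ 2 ≤ 2 * (L : ℝ) ^ 2 := by nlinarith
    refine le_trans (Real.log_le_log (by positivity) h1) ?_
    rw [Real.log_mul (by norm_num) (by positivity), Real.log_pow]
    push_cast
    linarith
  have hlL : 0 ≤ Real.log L := Real.log_nonneg hLr
  have hlB : 0 ≤ Real.log B := Real.log_nonneg hB
  have k5 : 1 / θ * ((∫ x, F1 x ∂(mu ν)) / M + Real.log M) ≤
      1 / θ * (1 + (Real.log 2 + 2 * Real.log Cu + Real.log L + Real.log B)) :=
    mul_le_mul_of_nonneg_left (add_le_add k1 hlogM) hθi.le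
  set G : ℝ := ∫ e, g e ∂ν
  set T : ℝ := 1 / θ
  have k6 : 0 ≤ T * (1 + Real.log 2 + 2 * Real.log Cu) + Real.log 2 + (1 + 4 * G) / 2 := by
    positivity
  have k7 : 0 ≤ (T * (1 + Real.log 2 + 2 * Real.log Cu) + Real.log 2 + (1 + 4 * G) / 2) *
      (Real.log L + Real.log B) := mul_nonneg k6 (add_nonneg hlL hlB)
  nlinarith [mul_nonneg hθi.le hlL, mul_nonneg hθi.le hlB]

end Copoly
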