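import Pool.Agent.Work.MP_fd21e9_pr.Mgf
import Pool.Agent.Work.MP_fd21e9_pr.Block
import Pool.Agent.Work.MP_fd21e9_pr.ERb

/-! # The free energy: existence and elementary properties -/

open MeasureTheory ProbabilityTheory Filter Topology
open scoped ENNReal

namespace Copoly

variable {ν : Measure ℝ} {K : ℕ → ℝ} {α lam : ℝ}

/-- Mean log partition function with free end. -/
noncomputable def AA (ν : Measure ℝ) (K : ℕ → ℝ) (lam h : ℝ) (N : ℕ) : ℝ :=
  ∫ x, Real.log (Zf (ker K lam h) (kerf K lam h) N x) ∂(mu ν)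

/-! ## Integrals of one-site functions -/

private theorem one_site_integrable (hν : ChargeLaw ν) {φ : ℝ → ℝ} (hφ : Integrable φ ν) (j : ℕ) :
    Integrable (fun x : ℕ → ℝ => φ (x j)) (mu ν) := by
  have := hν.prob
  have hmp : MeasurePreserving (fun x : ℕ → ℝ => x j) (mu ν) ν :=
    measurePreserving_eval_infinitePi (fun _ : ℕ => ν) j
  exact hmp.integrable_comp_of_integrable hφ

private theorem one_site_integral (hν : ChargeLaw ν) {φ : ℝ → ℝ} (hφ : AEStronglyMeasurable φ ν)
    (j : ℕ) : ∫ x, φ (x j) ∂(mu ν) = ∫ e, φ e ∂ν := by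
  have := hν.prob
  have hmp : MeasurePreserving (fun x : ℕ → ℝ => x j) (mu ν) ν :=
    measurePreserving_eval_infinitePi (fun _ : ℕ => ν) j
  have h1 := integral_map (μ := mu ν) (φ := fun x : ℕ → ℝ => x j) (f := φ)
    (measurable_pi_apply j).aemeasurable (by rw [hmp.map_eq]; exact hφ)
  rw [hmp.map_eq] at h1
  exact h1.symm

private theorem sh_integrable (hν : ChargeLaw ν) {F : (ℕ → ℝ) → ℝ} (hF : Integrable F (mu ν))
    (m : ℕ) : Integrable (fun x => F (sh m x)) (mu ν) := by
  have := hν.prob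
  exact (mp_sh (ν := ν) m).integrable_comp_of_integrable hF

private theorem sh_integral (hν : ChargeLaw ν) {F : (ℕ → ℝ) → ℝ} (hF : Integrable F (mu ν))
    (m : ℕ) : ∫ x, F (sh m x) ∂(mu ν) = ∫ x, F x ∂(mu ν) := by
  have := hν.prob
  have hmp := mp_sh (ν := ν) m
  have h1 := integral_map (μ := mu ν) (φ := (sh m : (ℕ → ℝ) → (ℕ → ℝ))) (f := F)
    (measurable_sh m).aemeasurable (by rw [hmp.map_eq]; exact hF.aestronglyMeasurable)
  rw [hmp.map_eq] at h1
  exact h1.symm

/-! ## Elementary facts on the kernels -/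

private theorem measurable_En (lam h : ℝ) (n : ℕ) : Measurable (En lam h n) := by
  unfold En
  refine Measurable.const_mul ?_ _
  refine Finset.measurable_sum _ fun j _ => ?_
  fun_prop

private theorem measurable_kerf (K : ℕ → ℝ) (lam h : ℝ) (n : ℕ) : Measurable (kerf K lam h n) := by
  unfold kerf
  exact Measurable.const_mul (((measurable_En lam h n).exp.const_add 1).div_const 2) _

private theorem measurable_Zf (hK : InterArrival α K) (lam h : ℝ) (N : ℕ) :
    Measurable (Zf (ker K lam h) (kerf K lam h) N) := by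
  unfold Zf
  refine Finset.measurable_sum _ fun s _ => ?_
  refine Measurable.mul (Z_meas (isKernel_ker hK.nonneg lam h).meas s) ?_
  exact (measurable_kerf K lam h (N - s)).comp (measurable_sh s)

private theorem Kpos_eventually (hK : InterArrival α K) : ∀ᶠ n in atTop, 0 < K n := by
  obtain ⟨c, hc, ht⟩ := hK.tail
  have h1 : ∀ᶠ n : ℕ in atTop, c / 2 < K n * (n : ℝ) ^ (1 + α) :=
    ht.eventually (lt_mem_nhds (by linarith))
  filter_upwards [h1, eventually_ge_atTop 1] with n hn hn1
  have hp : 0 < (n : ℝ) ^ (1 + α) := Real.rpow_pos_of_pos (by exact_mod_cast hn1) _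
  by_contra hcon
  push Not at hcon
  have : K n * (n : ℝ) ^ (1 + α) ≤ 0 := mul_nonpos_of_nonpos_of_nonneg hcon hp.le
  linarith

private theorem Kbar_anti (hK : InterArrival α K) {m n : ℕ} (h : m ≤ n) :
    Kbar K n ≤ Kbar K m := by
  unfold Kbar
  have : ∑ i ∈ Finset.range (m + 1), K i ≤ ∑ i ∈ Finset.range (n + 1), K i :=
    Finset.sum_le_sum_of_subset_of_nonneg
      (Finset.range_subset_range.mpr (by omega)) (fun i _ _ => hK.nonneg i)
  linarith

private theorem Kbar_pos (hK : InterArrival α K) (m : ℕ) : 0 < Kbar K m := by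
  obtain ⟨n, hn, hmn⟩ := ((Kpos_eventually hK).and (eventually_ge_atTop (m + 1))).exists
  obtain ⟨k, rfl⟩ : ∃ k, n = k + 1 := ⟨n - 1, by omega⟩
  have h1 := Kbar_succ (K := K) k
  have h2 := Kbar_nonneg hK (k + 1)
  have h3 := Kbar_anti hK (m := m) (n := k) (by omega)
  linarith

private theorem K_le_one (hK : InterArrival α K) (n : ℕ) : K n ≤ 1 := by
  rcases Nat.eq_zero_or_pos n with rfl | hn
  · rw [hK.zero]; exact zero_le_one
  · have h := K_sum_le hK n
    have h2 : K n ≤ ∑ i ∈ Finset.Icc 1 n, K i :=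
      Finset.single_le_sum (f := K) (fun i _ => hK.nonneg i) (Finset.mem_Icc.mpr ⟨hn, le_rfl⟩)
    linarith

private theorem Kbar_le_one (hK : InterArrival α K) (n : ℕ) : Kbar K n ≤ 1 := by
  have := Kbar_add hK n
  have h2 : 0 ≤ ∑ i ∈ Finset.Icc 1 n, K i := Finset.sum_nonneg fun i _ => hK.nonneg i
  linarith

private theorem Kbar_zero (hK : InterArrival α K) : Kbar K 0 = 1 := by
  simp [Kbar, hK.zero]

private theorem kerf_zero (hK : InterArrival α K) (lam h : ℝ) (x : ℕ → ℝ) :
    kerf K lam h 0 x = 1 := by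
  simp [kerf, Kbar_zero hK, En]

private theorem kerf_lower (hK : InterArrival α K) (lam h : ℝ) (n : ℕ) (x : ℕ → ℝ) :
    Kbar K n / 2 ≤ kerf K lam h n x := by
  unfold kerf
  have h1 := Kbar_nonneg hK n
  have h2 := Real.exp_pos (En lam h n x)
  nlinarith

private theorem Z_ker_nonneg (hK : InterArrival α K) (lam h : ℝ) (n : ℕ) (x : ℕ → ℝ) :
    0 ≤ Z (ker K lam h) n x := Z_nonneg (isKernel_ker hK.nonneg lam h).nonneg n x

private theorem kerf_le_Zf (hK : InterArrival α K) (lam h : ℝ) (N : ℕ) (x : ℕ → ℝ) :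
    kerf K lam h N x ≤ Zf (ker K lam h) (kerf K lam h) N x := by
  unfold Zf
  have h1 := Finset.single_le_sum (s := Finset.range (N + 1))
    (f := fun s => Z (ker K lam h) s x * kerf K lam h (N - s) (sh s x))
    (fun s _ => mul_nonneg (Z_ker_nonneg hK lam h s x) (kerf_nonneg hK _ _))
    (Finset.mem_range.mpr (Nat.succ_pos N))
  simpa [Z_zero, sh_zero] using h1

private theorem Z_le_Zf (hK : InterArrival α K) (lam h : ℝ) (N : ℕ) (x : ℕ → ℝ) :
    Z (ker K lam h) N x ≤ Zf (ker K lam h) (kerf K lam h) N x := by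
  unfold Zf
  have h1 := Finset.single_le_sum (s := Finset.range (N + 1))
    (f := fun s => Z (ker K lam h) s x * kerf K lam h (N - s) (sh s x))
    (fun s _ => mul_nonneg (Z_ker_nonneg hK lam h s x) (kerf_nonneg hK _ _))
    (Finset.mem_range.mpr (Nat.lt_succ_self N))
  simpa [kerf_zero hK] using h1

private theorem Zf_lower (hK : InterArrival α K) (lam h : ℝ) (N : ℕ) (x : ℕ → ℝ) :
    Kbar K N / 2 ≤ Zf (ker K lam h) (kerf K lam h) N x :=
  (kerf_lower hK lam h N x).trans (kerf_le_Zf hK lam h N x)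

private theorem Zf_pos (hK : InterArrival α K) (lam h : ℝ) (N : ℕ) (x : ℕ → ℝ) :
    0 < Zf (ker K lam h) (kerf K lam h) N x :=
  lt_of_lt_of_le (half_pos (Kbar_pos hK N)) (Zf_lower hK lam h N x)

private theorem Z_lower (hK : InterArrival α K) (lam h : ℝ) {n : ℕ} (hn : 1 ≤ n) (x : ℕ → ℝ) :
    K n / 2 ≤ Z (ker K lam h) n x :=
  (ker_lower hK.nonneg n x).trans (kernel_le_Z (isKernel_ker hK.nonneg lam h).nonneg hn x)

private theorem Z_pos (hK : InterArrival α K) (lam h : ℝ) {n : ℕ} (hn : 1 ≤ n) (hKn : 0 < K n)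
    (x : ℕ → ℝ) : 0 < Z (ker K lam h) n x :=
  lt_of_lt_of_le (half_pos hKn) (Z_lower hK lam h hn x)

/-! ## First-excursion recursion -/

/-- First-excursion recursion for the free partition function. -/
theorem Zf_first (hK : InterArrival α K) (h : ℝ) (N : ℕ) (x : ℕ → ℝ) :
    Zf (ker K lam h) (kerf K lam h) N x = kerf K lam h N x +
      ∑ i ∈ Finset.Icc 1 N, ker K lam h i x *
        Zf (ker K lam h) (kerf K lam h) (N - i) (sh i x) := by
  set κ := ker K lam h with hκ
  set κf := kerf K lam h with hκf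
  have e1 : Zf κ κf N x = κf N x + ∑ s ∈ Finset.Icc 1 N, Z κ s x * κf (N - s) (sh s x) := by
    unfold Zf
    rw [Finset.sum_range_succ']
    simp only [Z_zero, sh_zero, Nat.sub_zero, one_mul]
    rw [add_comm]
    congr 1
    rw [Finset.range_eq_Ico, Finset.sum_Ico_add' (fun s => Z κ s x * κf (N - s) (sh s x)) 0 N 1]
    rfl
  rw [e1]
  congr 1
  have e2 : ∀ s ∈ Finset.Icc 1 N, Z κ s x * κf (N - s) (sh s x) =
      ∑ i ∈ Finset.Icc 1 s, κ i x * (Z κ (s - i) (sh i x) * κf (N - s) (sh s x)) := by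
    intro s hs
    rw [Z_first κ (Finset.mem_Icc.mp hs).1 x, Finset.sum_mul]
    exact Finset.sum_congr rfl fun i _ => by ring
  rw [Finset.sum_congr rfl e2]
  rw [Finset.sum_comm' (s' := fun i => Finset.Icc i N) (t' := Finset.Icc 1 N)
    (h := by
      intro a b
      simp only [Finset.mem_Icc]
      omega)]
  refine Finset.sum_congr rfl fun i hi => ?_
  have hi' := Finset.mem_Icc.mp hi
  unfold Zf
  rw [Finset.mul_sum]
  have e3 : Finset.Icc i N = Finset.Ico (0 + i) ((N - i + 1) + i) := by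
    ext a
    simp only [Finset.mem_Icc, Finset.mem_Ico]
    omega
  rw [e3, ← Finset.sum_Ico_add' (fun s => κ i x * (Z κ (s - i) (sh i x) * κf (N - s) (sh s x)))
    0 (N - i + 1) i, ← Finset.range_eq_Ico]
  refine Finset.sum_congr rfl fun t ht => ?_
  have ht' := Finset.mem_range.mp ht
  rw [sh_sh]
  have e4 : t + i - i = t := by omega
  have e5 : N - (t + i) = N - i - t := by omega
  have e6 : t + i = i + t := by omega
  rw [e4, e5, e6]

/-- Crude upper bound for the free partition function. -/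
private theorem Zf_crude (hK : InterArrival α K) (h : ℝ) (N : ℕ) (x : ℕ → ℝ) :
    Zf (ker K lam h) (kerf K lam h) N x ≤ ∏ j ∈ Finset.range N, gfun lam h (x j) := by
  induction N using Nat.strong_induction_on generalizing x with
  | _ N ih =>
    rw [Zf_first hK h N x]
    have hP : ∀ (n : ℕ) (y : ℕ → ℝ), 0 ≤ ∏ j ∈ Finset.range n, gfun lam h (y j) := by
      intro n y
      exact Finset.prod_nonneg fun j _ => zero_le_one.trans (one_le_gfun _)
    have h1 : kerf K lam h N x ≤ Kbar K N * ∏ j ∈ Finset.range N, gfun lam h (x j) :=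
      (kerf_le_uker hK N x).trans
        (mul_le_mul_of_nonneg_left (uker_crude N x) (Kbar_nonneg hK N))
    have h2 : ∀ i ∈ Finset.Icc 1 N, ker K lam h i x *
        Zf (ker K lam h) (kerf K lam h) (N - i) (sh i x) ≤
        K i * ∏ j ∈ Finset.range N, gfun lam h (x j) := by
      intro i hi
      have hi' := Finset.mem_Icc.mp hi
      have e : ∏ j ∈ Finset.range N, gfun lam h (x j) =
          (∏ j ∈ Finset.range i, gfun lam h (x j)) *
          ∏ j ∈ Finset.range (N - i), gfun lam h (sh i x j) := by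
        have : N = i + (N - i) := by omega
        conv_lhs => rw [this]
        rw [Finset.prod_range_add]
        congr 1
        refine Finset.prod_congr rfl fun j _ => ?_
        simp [sh, add_comm]
      rw [e, ← mul_assoc]
      refine mul_le_mul ?_ (ih (N - i) (by omega) (sh i x)) (Zf_pos hK lam h _ _).le ?_
      · exact (ker_le_uker hK.nonneg i x hi'.1).trans
          (mul_le_mul_of_nonneg_left (uker_crude i x) (hK.nonneg i))
      · exact mul_nonneg (hK.nonneg i) (hP i x)
    calc kerf K lam h N x + ∑ i ∈ Finset.Icc 1 N, ker K lam h i x *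
        Zf (ker K lam h) (kerf K lam h) (N - i) (sh i x)
        ≤ Kbar K N * ∏ j ∈ Finset.range N, gfun lam h (x j) +
          ∑ i ∈ Finset.Icc 1 N, K i * ∏ j ∈ Finset.range N, gfun lam h (x j) :=
          add_le_add h1 (Finset.sum_le_sum h2)
      _ = (Kbar K N + ∑ i ∈ Finset.Icc 1 N, K i) * ∏ j ∈ Finset.range N, gfun lam h (x j) := by
          rw [← Finset.sum_mul]; ring
      _ = ∏ j ∈ Finset.range N, gfun lam h (x j) := by rw [Kbar_add hK N, one_mul]

/-! ## Integrability of the logarithms -/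

private theorem log_gfun_nonneg (lam h e : ℝ) : 0 ≤ Real.log (gfun lam h e) :=
  Real.log_nonneg (one_le_gfun e)

private theorem log_gfun_integrable (hν : ChargeLaw ν) (lam h : ℝ) :
    Integrable (fun e => Real.log (gfun lam h e)) ν := by
  refine Integrable.mono' (integrable_gfun hν lam h)
    (measurable_gfun lam h).log.aestronglyMeasurable ?_
  refine Eventually.of_forall fun e => ?_
  rw [Real.norm_of_nonneg (log_gfun_nonneg lam h e)]
  exact (Real.log_le_sub_one_of_pos (zero_lt_one.trans_le (one_le_gfun e))).trans (by linarith)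

private theorem integrable_of_sandwich (hν : ChargeLaw ν) (lam h : ℝ) {F : (ℕ → ℝ) → ℝ}
    (hF : Measurable F) {c : ℝ} (hc : 0 < c) (n : ℕ) (hlow : ∀ x, c ≤ F x)
    (hup : ∀ x, F x ≤ ∏ j ∈ Finset.range n, gfun lam h (x j)) :
    Integrable (fun x => Real.log (F x)) (mu ν) := by
  have hint : Integrable (fun x : ℕ → ℝ => |Real.log c| +
      ∑ j ∈ Finset.range n, Real.log (gfun lam h (x j))) (mu ν) := by
    have := hν.prob
    refine (integrable_const _).add (integrable_finsetSum _ fun j _ => ?_)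
    exact one_site_integrable hν (log_gfun_integrable hν lam h) j
  refine Integrable.mono' hint hF.log.aestronglyMeasurable (Eventually.of_forall fun x => ?_)
  have hs : 0 ≤ ∑ j ∈ Finset.range n, Real.log (gfun lam h (x j)) :=
    Finset.sum_nonneg fun j _ => log_gfun_nonneg lam h (x j)
  have h1 : Real.log c ≤ Real.log (F x) := Real.log_le_log hc (hlow x)
  have h2 : Real.log (F x) ≤ ∑ j ∈ Finset.range n, Real.log (gfun lam h (x j)) := by
    rw [← Real.log_prod (fun j _ => (zero_lt_one.trans_le (one_le_gfun (x j))).ne')]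
    exact Real.log_le_log (hc.trans_le (hlow x)) (hup x)
  rw [Real.norm_eq_abs, abs_le]
  constructor
  · have := neg_abs_le (Real.log c)
    linarith
  · have := abs_nonneg (Real.log c)
    linarith

private theorem integral_log_le (hν : ChargeLaw ν) (lam h : ℝ) {F : (ℕ → ℝ) → ℝ}
    (hF : Measurable F) {c : ℝ} (hc : 0 < c) (n : ℕ) (hlow : ∀ x, c ≤ F x)
    (hup : ∀ x, F x ≤ ∏ j ∈ Finset.range n, gfun lam h (x j)) :
    ∫ x, Real.log (F x) ∂(mu ν) ≤ n * ∫ e, Real.log (gfun lam h e) ∂ν := by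
  have := hν.prob
  have hi := log_gfun_integrable hν lam h
  calc ∫ x, Real.log (F x) ∂(mu ν)
      ≤ ∫ x, ∑ j ∈ Finset.range n, Real.log (gfun lam h (x j)) ∂(mu ν) := by
        refine integral_mono (integrable_of_sandwich hν lam h hF hc n hlow hup)
          (integrable_finsetSum _ fun j _ => one_site_integrable hν hi j) fun x => ?_
        show Real.log (F x) ≤ _
        rw [← Real.log_prod (fun j _ => (zero_lt_one.trans_le (one_le_gfun (x j))).ne')]
        exact Real.log_le_log (hc.trans_le (hlow x)) (hup x)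
    _ = ∑ j ∈ Finset.range n, ∫ e, Real.log (gfun lam h e) ∂ν := by
        rw [integral_finsetSum _ fun j _ => one_site_integrable hν hi j]
        refine Finset.sum_congr rfl fun j _ => ?_
        exact one_site_integral hν hi.aestronglyMeasurable j
    _ = n * ∫ e, Real.log (gfun lam h e) ∂ν := by
        rw [Finset.sum_const, Finset.card_range, nsmul_eq_mul]

private theorem logZfInt (hν : ChargeLaw ν) (hK : InterArrival α K) (h : ℝ) (N : ℕ) :
    Integrable (fun x => Real.log (Zf (ker K lam h) (kerf K lam h) N x)) (mu ν) :=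
  integrable_of_sandwich hν lam h (measurable_Zf hK lam h N) (half_pos (Kbar_pos hK N)) N
    (Zf_lower hK lam h N) (Zf_crude hK h N)

/-- Integrability of the logarithm of the free partition function. -/
theorem logZf_integrable (hν : ChargeLaw ν) (_hα : 0 < α) (hK : InterArrival α K) (h : ℝ)
    (N : ℕ) : Integrable (fun x => Real.log (Zf (ker K lam h) (kerf K lam h) N x)) (mu ν) :=
  logZfInt hν hK h N

/-- Integrability of the logarithm of the constrained partition function. -/
theorem logZ_integrable (hν : ChargeLaw ν) (hK : InterArrival α K) (h : ℝ) {n : ℕ} (hn : 1 ≤ n)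
    (hKn : 0 < K n) : Integrable (fun x => Real.log (Z (ker K lam h) n x)) (mu ν) :=
  integrable_of_sandwich hν lam h (Z_meas (isKernel_ker hK.nonneg lam h).meas n) (half_pos hKn) n
    (Z_lower hK lam h hn) (Zker_crude hK n)

/-! ## One-step comparison -/

private theorem En_addF (lam h : ℝ) (m n : ℕ) (x : ℕ → ℝ) :
    En lam h (m + n) x = En lam h m x + -2 * lam * ∑ j ∈ Finset.range n, (x (m + j) + h) := by
  unfold En
  rw [Finset.sum_range_add, mul_add]

private theorem En_add_abs (hl : 0 < lam) (h : ℝ) (m n : ℕ) (x : ℕ → ℝ) :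
    |En lam h (m + n) x - En lam h m x| ≤ 2 * lam * ∑ j ∈ Finset.range n, |x (m + j) + h| := by
  rw [En_addF, add_sub_cancel_left, abs_mul]
  have e : |-2 * lam| = 2 * lam := by
    rw [show -2 * lam = -(2 * lam) by ring, abs_neg, abs_of_pos (by linarith)]
  rw [e]
  exact mul_le_mul_of_nonneg_left (Finset.abs_sum_le_sum_abs _ _) (by linarith)

private theorem exp_compare {a b w : ℝ} (hab : a ≤ b + w) (hw : 0 ≤ w) :
    (1 + Real.exp a) / 2 ≤ Real.exp w * ((1 + Real.exp b) / 2) := by
  have h1 : Real.exp a ≤ Real.exp w * Real.exp b := by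
    rw [← Real.exp_add]; exact Real.exp_le_exp.mpr (by linarith)
  have h2 : 1 ≤ Real.exp w := Real.one_le_exp hw
  linarith

private theorem Zf_succ (hK : InterArrival α K) (h : ℝ) (N : ℕ) (x : ℕ → ℝ) :
    Zf (ker K lam h) (kerf K lam h) (N + 1) x = ∑ s ∈ Finset.range (N + 1),
      Z (ker K lam h) s x * (Kbar K (N - s) *
        ((1 + Real.exp (En lam h (N - s + 1) (sh s x))) / 2)) := by
  unfold Zf
  rw [Finset.sum_range_succ, Nat.sub_self, kerf_zero hK, mul_one,
    Z_last (ker K lam h) (Nat.succ_le_succ (Nat.zero_le N)) x, ← Finset.sum_add_distrib]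
  refine Finset.sum_congr rfl fun s hs => ?_
  have hs' := Finset.mem_range.mp hs
  have e : N + 1 - s = N - s + 1 := by omega
  rw [e, ← mul_add]
  congr 1
  unfold kerf ker
  rw [Kbar_succ (N - s)]
  ring

private theorem step_up (hK : InterArrival α K) (hl : 0 < lam) (h : ℝ) (N : ℕ) (x : ℕ → ℝ) :
    Zf (ker K lam h) (kerf K lam h) (N + 1) x ≤
      Real.exp (2 * lam * |x N + h|) * Zf (ker K lam h) (kerf K lam h) N x := by
  rw [Zf_succ hK h N x]
  unfold Zf
  rw [Finset.mul_sum]
  refine Finset.sum_le_sum fun s hs => ?_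
  have hs' := Finset.mem_range.mp hs
  have h1 := En_add_abs hl h (N - s) 1 (sh s x)
  have e : sh s x (N - s + 0) = x N := by
    simp only [sh]; congr 1; omega
  rw [Finset.sum_range_one, e] at h1
  have h2 := (abs_le.mp h1).2
  have hw : 0 ≤ 2 * lam * |x N + h| := mul_nonneg (by linarith) (abs_nonneg _)
  have h3 := exp_compare (a := En lam h (N - s + 1) (sh s x)) (b := En lam h (N - s) (sh s x))
    (w := 2 * lam * |x N + h|) (by linarith) hw
  unfold kerf
  calc Z (ker K lam h) s x * (Kbar K (N - s) *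
        ((1 + Real.exp (En lam h (N - s + 1) (sh s x))) / 2))
      ≤ Z (ker K lam h) s x * (Kbar K (N - s) *
        (Real.exp (2 * lam * |x N + h|) * ((1 + Real.exp (En lam h (N - s) (sh s x))) / 2))) := by
        refine mul_le_mul_of_nonneg_left ?_ (Z_ker_nonneg hK lam h s x)
        exact mul_le_mul_of_nonneg_left h3 (Kbar_nonneg hK _)
    _ = _ := by ring

private theorem step_down (hK : InterArrival α K) (hl : 0 < lam) (h : ℝ) (N : ℕ) (x : ℕ → ℝ) :
    Zf (ker K lam h) (kerf K lam h) N x ≤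
      Real.exp (2 * lam * |x N + h|) * Zf (ker K lam h) (kerf K lam h) (N + 1) x := by
  rw [Zf_succ hK h N x]
  unfold Zf
  rw [Finset.mul_sum]
  refine Finset.sum_le_sum fun s hs => ?_
  have hs' := Finset.mem_range.mp hs
  have h1 := En_add_abs hl h (N - s) 1 (sh s x)
  have e : sh s x (N - s + 0) = x N := by
    simp only [sh]; congr 1; omega
  rw [Finset.sum_range_one, e] at h1
  have h2 := (abs_le.mp h1).1
  have hw : 0 ≤ 2 * lam * |x N + h| := mul_nonneg (by linarith) (abs_nonneg _)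
  have h3 := exp_compare (a := En lam h (N - s) (sh s x)) (b := En lam h (N - s + 1) (sh s x))
    (w := 2 * lam * |x N + h|) (by linarith) hw
  unfold kerf
  calc Z (ker K lam h) s x * (Kbar K (N - s) *
        ((1 + Real.exp (En lam h (N - s) (sh s x))) / 2))
      ≤ Z (ker K lam h) s x * (Kbar K (N - s) *
        (Real.exp (2 * lam * |x N + h|) *
          ((1 + Real.exp (En lam h (N - s + 1) (sh s x))) / 2))) := by
        refine mul_le_mul_of_nonneg_left ?_ (Z_ker_nonneg hK lam h s x)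
        exact mul_le_mul_of_nonneg_left h3 (Kbar_nonneg hK _)
    _ = _ := by ring

private theorem abs_integrable (hν : ChargeLaw ν) (h : ℝ) :
    Integrable (fun e : ℝ => |e + h|) ν := by
  have := hν.prob
  have h1 := (hν.expMom 1).add (hν.expMom (-1))
  have h2 := h1.add (integrable_const (μ := ν) |h|)
  refine Integrable.mono' h2 (by fun_prop) (Eventually.of_forall fun e => ?_)
  rw [Real.norm_of_nonneg (abs_nonneg _)]
  have h3 : |e| ≤ Real.exp (1 * e) + Real.exp (-1 * e) := by
    rcases abs_cases e with ⟨h4, _⟩ | ⟨h4, _⟩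
    · rw [h4]
      have := Real.add_one_le_exp (1 * e)
      have := Real.exp_pos (-1 * e)
      linarith
    · rw [h4]
      have := Real.add_one_le_exp (-1 * e)
      have := Real.exp_pos (1 * e)
      linarith
  calc |e + h| ≤ |e| + |h| := abs_add_le e h
    _ ≤ _ := by
      simp only [Pi.add_apply]
      linarith

private theorem id_integrable (hν : ChargeLaw ν) : Integrable (fun e : ℝ => e) ν := by
  have h1 := abs_integrable hν 0
  refine Integrable.mono' h1 (by fun_prop) (Eventually.of_forall fun e => ?_)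
  simp

private theorem AA_step (hν : ChargeLaw ν) (hK : InterArrival α K) (hl : 0 < lam) (h : ℝ)
    (N : ℕ) : |AA ν K lam h (N + 1) - AA ν K lam h N| ≤ 2 * lam * ∫ e, |e + h| ∂ν := by
  have hI := abs_integrable hν h
  have hJ : Integrable (fun x : ℕ → ℝ => 2 * lam * |x N + h|) (mu ν) :=
    (one_site_integrable hν hI N).const_mul _
  have hJv : ∫ x : ℕ → ℝ, 2 * lam * |x N + h| ∂(mu ν) = 2 * lam * ∫ e, |e + h| ∂ν := by
    rw [integral_const_mul, one_site_integral hν hI.aestronglyMeasurable N]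
  have hN := logZfInt (lam := lam) hν hK h N
  have hN1 := logZfInt (lam := lam) hν hK h (N + 1)
  rw [abs_le]
  constructor
  · have h1 : AA ν K lam h N ≤ 2 * lam * ∫ e, |e + h| ∂ν + AA ν K lam h (N + 1) := by
      rw [← hJv]
      unfold AA
      rw [← integral_add hJ hN1]
      refine integral_mono hN (hJ.add hN1) fun x => ?_
      show Real.log _ ≤ _ + Real.log _
      have h2 := step_down hK hl h N x
      have h3 := Real.log_le_log (Zf_pos hK lam h N x) h2
      rw [Real.log_mul (Real.exp_pos _).ne' (Zf_pos hK lam h _ x).ne', Real.log_exp] at h3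
      exact h3
    linarith
  · have h1 : AA ν K lam h (N + 1) ≤ 2 * lam * ∫ e, |e + h| ∂ν + AA ν K lam h N := by
      rw [← hJv]
      unfold AA
      rw [← integral_add hJ hN]
      refine integral_mono hN1 (hJ.add hN) fun x => ?_
      show Real.log _ ≤ _ + Real.log _
      have h2 := step_up hK hl h N x
      have h3 := Real.log_le_log (Zf_pos hK lam h (N + 1) x) h2
      rw [Real.log_mul (Real.exp_pos _).ne' (Zf_pos hK lam h _ x).ne', Real.log_exp] at h3
      exact h3
    linarith

/-! ## Comparison of the free and the constrained partition functions -/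

private theorem Zf_le_Z (hα : 0 < α) (hK : InterArrival α K) (hl : 0 < lam) (h : ℝ) {n₀ : ℕ}
    (hn₀ : 1 ≤ n₀) (hlow : ∀ n, n₀ ≤ n → 2 * (n : ℝ) ^ (-(2 + α)) ≤ K n) (N : ℕ) (x : ℕ → ℝ) :
    Zf (ker K lam h) (kerf K lam h) N x ≤ ((N + n₀ : ℕ) : ℝ) ^ (2 + α) *
      Real.exp (2 * lam * ∑ j ∈ Finset.range n₀, |x (N + j) + h|) *
      Z (ker K lam h) (N + n₀) x := by
  set W : ℝ := 2 * lam * ∑ j ∈ Finset.range n₀, |x (N + j) + h| with hW
  have hW0 : 0 ≤ W := mul_nonneg (by linarith) (Finset.sum_nonneg fun j _ => abs_nonneg _)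
  set D : ℝ := ((N + n₀ : ℕ) : ℝ) ^ (2 + α) with hD
  have hNn : (0 : ℝ) < ((N + n₀ : ℕ) : ℝ) := by exact_mod_cast (by omega : 0 < N + n₀)
  have hDpos : 0 < D := Real.rpow_pos_of_pos hNn _
  have hlast := Z_last (ker K lam h) (n := N + n₀) (by omega) x
  have hsub : ∑ s ∈ Finset.range (N + 1), Z (ker K lam h) s x *
      ker K lam h (N + n₀ - s) (sh s x) ≤ Z (ker K lam h) (N + n₀) x := by
    rw [hlast]
    refine Finset.sum_le_sum_of_subset_of_nonneg (Finset.range_subset_range.mpr (by omega))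
      fun s _ _ => ?_
    exact mul_nonneg (Z_ker_nonneg hK lam h s x) ((isKernel_ker hK.nonneg lam h).nonneg _ _)
  refine le_trans ?_ (mul_le_mul_of_nonneg_left hsub (by positivity))
  rw [Finset.mul_sum]
  unfold Zf
  refine Finset.sum_le_sum fun s hs => ?_
  have hs' := Finset.mem_range.mp hs
  have e1 : N + n₀ - s = (N - s) + n₀ := by omega
  rw [e1]
  set y := sh s x with hy
  set m := N - s with hm
  have h1 := En_add_abs hl h m n₀ y
  have e2 : ∑ j ∈ Finset.range n₀, |y (m + j) + h| = ∑ j ∈ Finset.range n₀, |x (N + j) + h| := by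
    refine Finset.sum_congr rfl fun j _ => ?_
    have : y (m + j) = x (N + j) := by
      simp only [hy, sh]; congr 1; omega
    rw [this]
  rw [e2, ← hW] at h1
  have h2 := (abs_le.mp h1).1
  have h3 := exp_compare (a := En lam h m y) (b := En lam h (m + n₀) y) (w := W) (by linarith) hW0
  have h4 : 1 ≤ D * K (m + n₀) := by
    have h5 := hlow (m + n₀) (by omega)
    have h6 : (0 : ℝ) < ((m + n₀ : ℕ) : ℝ) := by exact_mod_cast (by omega : 0 < m + n₀)
    have h7 : ((m + n₀ : ℕ) : ℝ) ≤ ((N + n₀ : ℕ) : ℝ) := by exact_mod_cast (by omega)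
    have h8 : ((N + n₀ : ℕ) : ℝ) ^ (-(2 + α)) ≤ ((m + n₀ : ℕ) : ℝ) ^ (-(2 + α)) :=
      Real.rpow_le_rpow_of_nonpos h6 h7 (by linarith)
    have h9 : D * ((N + n₀ : ℕ) : ℝ) ^ (-(2 + α)) = 1 := by
      rw [hD, ← Real.rpow_add hNn, add_neg_cancel, Real.rpow_zero]
    have h10 : 0 < ((N + n₀ : ℕ) : ℝ) ^ (-(2 + α)) := Real.rpow_pos_of_pos hNn _
    calc (1 : ℝ) = D * ((N + n₀ : ℕ) : ℝ) ^ (-(2 + α)) := h9.symm
      _ ≤ D * K (m + n₀) := mul_le_mul_of_nonneg_left (by linarith) hDpos.le
  have h5 : kerf K lam h m y ≤ D * Real.exp W * ker K lam h (m + n₀) y := by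
    unfold kerf ker
    have h6 : 0 ≤ (1 + Real.exp (En lam h m y)) / 2 := by positivity
    have h7 : 0 ≤ Real.exp W * ((1 + Real.exp (En lam h (m + n₀) y)) / 2) := by positivity
    calc Kbar K m * ((1 + Real.exp (En lam h m y)) / 2)
        ≤ 1 * ((1 + Real.exp (En lam h m y)) / 2) :=
          mul_le_mul_of_nonneg_right (Kbar_le_one hK m) h6
      _ ≤ 1 * (Real.exp W * ((1 + Real.exp (En lam h (m + n₀) y)) / 2)) :=
          mul_le_mul_of_nonneg_left h3 zero_le_one
      _ ≤ (D * K (m + n₀)) * (Real.exp W * ((1 + Real.exp (En lam h (m + n₀) y)) / 2)) :=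
          mul_le_mul_of_nonneg_right h4 h7
      _ = _ := by ring
  calc Z (ker K lam h) s x * kerf K lam h m y
      ≤ Z (ker K lam h) s x * (D * Real.exp W * ker K lam h (m + n₀) y) :=
        mul_le_mul_of_nonneg_left h5 (Z_ker_nonneg hK lam h s x)
    _ = _ := by ring

/-- Mean log constrained partition function. -/
private noncomputable def aa (ν : Measure ℝ) (K : ℕ → ℝ) (lam h : ℝ) (N : ℕ) : ℝ :=
  ∫ x, Real.log (Z (ker K lam h) N x) ∂(mu ν)

private theorem AA_le_aa (hν : ChargeLaw ν) (hα : 0 < α) (hK : InterArrival α K) (hl : 0 < lam)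
    (h : ℝ) {n₀ : ℕ} (hn₀ : 1 ≤ n₀)
    (hlow : ∀ n, n₀ ≤ n → 2 * (n : ℝ) ^ (-(2 + α)) ≤ K n) (N : ℕ) :
    AA ν K lam h N ≤ (2 + α) * Real.log ((N + n₀ : ℕ) : ℝ) +
      2 * lam * (n₀ * ∫ e, |e + h| ∂ν) + aa ν K lam h (N + n₀) := by
  have := hν.prob
  have hNn : (0 : ℝ) < ((N + n₀ : ℕ) : ℝ) := by exact_mod_cast (by omega : 0 < N + n₀)
  have hKpos : 0 < K (N + n₀) := by
    have h5 := hlow (N + n₀) (by omega)
    have h6 : 0 < ((N + n₀ : ℕ) : ℝ) ^ (-(2 + α)) := Real.rpow_pos_of_pos hNn _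
    linarith
  have hI := abs_integrable hν h
  have hJ : Integrable (fun x : ℕ → ℝ => 2 * lam * ∑ j ∈ Finset.range n₀, |x (N + j) + h|)
      (mu ν) :=
    (integrable_finsetSum _ fun j _ => one_site_integrable hν hI (N + j)).const_mul _
  have hJv : ∫ x : ℕ → ℝ, 2 * lam * ∑ j ∈ Finset.range n₀, |x (N + j) + h| ∂(mu ν) =
      2 * lam * (n₀ * ∫ e, |e + h| ∂ν) := by
    rw [integral_const_mul, integral_finsetSum _ fun j _ => one_site_integrable hν hI (N + j)]
    congr 1
    have e : ∀ j ∈ Finset.range n₀, ∫ x : ℕ → ℝ, |x (N + j) + h| ∂(mu ν) = ∫ e, |e + h| ∂ν :=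
      fun j _ => one_site_integral hν hI.aestronglyMeasurable (N + j)
    rw [Finset.sum_congr rfl e, Finset.sum_const, Finset.card_range, nsmul_eq_mul]
  have hZi := logZ_integrable (lam := lam) hν hK h (n := N + n₀) (by omega) hKpos
  have hc : Integrable (fun _ : ℕ → ℝ => (2 + α) * Real.log ((N + n₀ : ℕ) : ℝ)) (mu ν) :=
    integrable_const _
  have hcv : ∫ _x : ℕ → ℝ, (2 + α) * Real.log ((N + n₀ : ℕ) : ℝ) ∂(mu ν) =
      (2 + α) * Real.log ((N + n₀ : ℕ) : ℝ) := by
    simp
  rw [← hJv, ← hcv]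
  have hcJ : Integrable (fun x : ℕ → ℝ => (2 + α) * Real.log ((N + n₀ : ℕ) : ℝ) +
      2 * lam * ∑ j ∈ Finset.range n₀, |x (N + j) + h|) (mu ν) := hc.add hJ
  unfold AA aa
  rw [← integral_add hc hJ, ← integral_add hcJ hZi]
  refine integral_mono (logZfInt hν hK h N) (hcJ.add hZi) fun x => ?_
  show Real.log _ ≤ (2 + α) * Real.log ((N + n₀ : ℕ) : ℝ) +
    2 * lam * ∑ j ∈ Finset.range n₀, |x (N + j) + h| + Real.log _
  have h1 := Real.log_le_log (Zf_pos hK lam h N x) (Zf_le_Z hα hK hl h hn₀ hlow N x)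
  have hZp := Z_pos hK lam h (n := N + n₀) (by omega) hKpos x
  rw [Real.log_mul (by positivity) hZp.ne', Real.log_mul (by positivity) (Real.exp_pos _).ne',
    Real.log_exp, Real.log_rpow hNn] at h1
  exact h1

private theorem aa_le_AA (hν : ChargeLaw ν) (hK : InterArrival α K) (h : ℝ) {n : ℕ} (hn : 1 ≤ n)
    (hKn : 0 < K n) (k : ℕ) : (k : ℝ) * aa ν K lam h n ≤ AA ν K lam h (k * n) := by
  have hZi := logZ_integrable (lam := lam) hν hK h hn hKn
  have e : (k : ℝ) * aa ν K lam h n =
      ∫ x, ∑ i ∈ Finset.range k, Real.log (Z (ker K lam h) n (sh (i * n) x)) ∂(mu ν) := by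
    rw [integral_finsetSum _ fun i _ => sh_integrable hν hZi (i * n)]
    have e1 : ∀ i ∈ Finset.range k, ∫ x, Real.log (Z (ker K lam h) n (sh (i * n) x)) ∂(mu ν) =
        aa ν K lam h n := fun i _ => sh_integral hν hZi (i * n)
    rw [Finset.sum_congr rfl e1, Finset.sum_const, Finset.card_range, nsmul_eq_mul]
  rw [e]
  unfold AA
  refine integral_mono (integrable_finsetSum _ fun i _ => sh_integrable hν hZi (i * n))
    (logZfInt hν hK h (k * n)) fun x => ?_
  show ∑ i ∈ Finset.range k, Real.log (Z (ker K lam h) n (sh (i * n) x)) ≤ Real.log _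
  rw [← Real.log_prod fun i _ => (Z_pos hK lam h hn hKn _).ne']
  refine Real.log_le_log (Finset.prod_pos fun i _ => Z_pos hK lam h hn hKn _) ?_
  exact (Z_supermul_pow (isKernel_ker hK.nonneg lam h).nonneg k n x).trans
    (Z_le_Zf hK lam h (k * n) x)

private theorem aa_superadd (hν : ChargeLaw ν) (hK : InterArrival α K) (h : ℝ) {m n : ℕ}
    (hm : 1 ≤ m) (hn : 1 ≤ n) (hKm : 0 < K m) (hKn : 0 < K n) (hKmn : 0 < K (m + n)) :
    aa ν K lam h m + aa ν K lam h n ≤ aa ν K lam h (m + n) := by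
  have hm1 := logZ_integrable (lam := lam) hν hK h hm hKm
  have hn1 := logZ_integrable (lam := lam) hν hK h hn hKn
  have hmn1 := logZ_integrable (lam := lam) hν hK h (n := m + n) (by omega) hKmn
  unfold aa
  rw [← sh_integral hν hn1 m, ← integral_add hm1 (sh_integrable hν hn1 m)]
  refine integral_mono (hm1.add (sh_integrable hν hn1 m)) hmn1 fun x => ?_
  show Real.log _ + Real.log _ ≤ Real.log _
  have hp1 := Z_pos hK lam h hm hKm x
  have hp2 := Z_pos hK lam h hn hKn (sh m x)
  rw [← Real.log_mul hp1.ne' hp2.ne']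
  exact Real.log_le_log (mul_pos hp1 hp2)
    (Z_supermul (isKernel_ker hK.nonneg lam h).nonneg m n x)


/-! ## Existence of the limit -/

private theorem real_limit {A : ℕ → ℝ} {c g : ℝ} (hstep : ∀ N, |A (N + 1) - A N| ≤ c) {n₀ : ℕ}
    (hn₀ : 1 ≤ n₀) (hlim : Tendsto (fun k : ℕ => A (k * n₀) / k) atTop (𝓝 g)) :
    Tendsto (fun N : ℕ => A N / N) atTop (𝓝 (g / n₀)) := by
  have hn0 : (0 : ℝ) < n₀ := by exact_mod_cast hn₀
  have hc0 : 0 ≤ c := (abs_nonneg _).trans (hstep 0)
  have hwalk : ∀ (M r : ℕ), |A (M + r) - A M| ≤ r * c := by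
    intro M r
    induction r with
    | zero => simp
    | succ r ih =>
      have h1 := hstep (M + r)
      have e : A (M + (r + 1)) - A M = (A (M + r + 1) - A (M + r)) + (A (M + r) - A M) := by
        rw [← add_assoc]; ring
      rw [e]
      refine (abs_add_le _ _).trans ?_
      push_cast
      linarith
  have hk : Tendsto (fun N : ℕ => N / n₀) atTop atTop := Nat.tendsto_div_const_atTop (by omega)
  have h1 : Tendsto (fun N : ℕ => A (N / n₀ * n₀) / ((N / n₀ : ℕ) : ℝ)) atTop (𝓝 g) :=
    hlim.comp hk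
  -- ratio
  have hinv : Tendsto (fun N : ℕ => (1 : ℝ) / (N : ℝ)) atTop (𝓝 0) :=
    tendsto_one_div_atTop_nhds_zero_nat
  have h2 : Tendsto (fun N : ℕ => ((N / n₀ : ℕ) : ℝ) / N) atTop (𝓝 (1 / n₀)) := by
    have hl : Tendsto (fun N : ℕ => 1 / (n₀ : ℝ) - 1 / (N : ℝ)) atTop (𝓝 (1 / n₀)) := by
      simpa using (tendsto_const_nhds (x := 1 / (n₀ : ℝ))).sub hinv
    refine tendsto_of_tendsto_of_tendsto_of_le_of_le' hl tendsto_const_nhds ?_ ?_
    · filter_upwards [eventually_ge_atTop 1] with N hN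
      have hN0 : (0 : ℝ) < N := by exact_mod_cast hN
      have h3 : (N : ℝ) ≤ (((N / n₀ : ℕ) : ℝ) + 1) * n₀ := by
        have h4 : N < (N / n₀ + 1) * n₀ := by
          have a := Nat.div_add_mod' N n₀
          have b := Nat.mod_lt N hn₀
          rw [add_mul, one_mul]
          omega
        exact_mod_cast h4.le
      rw [div_sub_div _ _ hn0.ne' hN0.ne', div_le_div_iff₀ (mul_pos hn0 hN0) hN0]
      nlinarith
    · filter_upwards [eventually_ge_atTop 1] with N hN
      have hN0 : (0 : ℝ) < N := by exact_mod_cast hN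
      have h3 : (((N / n₀ : ℕ) : ℝ)) * n₀ ≤ N := by
        exact_mod_cast Nat.div_mul_le_self N n₀
      rw [div_le_div_iff₀ hN0 hn0]
      linarith
  have h3 : Tendsto (fun N : ℕ => (A N - A (N / n₀ * n₀)) / N) atTop (𝓝 0) := by
    have h4 : Tendsto (fun N : ℕ => (n₀ * c) * ((1 : ℝ) / (N : ℝ))) atTop (𝓝 0) := by
      simpa using hinv.const_mul (n₀ * c)
    refine squeeze_zero_norm (fun N => ?_) h4
    have h5 := hwalk (N / n₀ * n₀) (N % n₀)
    have e : N / n₀ * n₀ + N % n₀ = N := Nat.div_add_mod' N n₀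
    rw [e] at h5
    have h6 : ((N % n₀ : ℕ) : ℝ) ≤ n₀ := by exact_mod_cast (Nat.mod_lt N hn₀).le
    rw [norm_div, Real.norm_eq_abs, Real.norm_of_nonneg (Nat.cast_nonneg N), mul_one_div]
    refine div_le_div_of_nonneg_right (h5.trans ?_) (Nat.cast_nonneg N)
    exact mul_le_mul_of_nonneg_right h6 hc0
  have h4 := h3.add (h1.mul h2)
  rw [zero_add, mul_one_div] at h4
  refine h4.congr' ?_
  filter_upwards [eventually_ge_atTop n₀] with N hN
  have hN0 : (0 : ℝ) < N := by exact_mod_cast (by omega : 0 < N)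
  have hk0 : (0 : ℝ) < ((N / n₀ : ℕ) : ℝ) := by
    exact_mod_cast Nat.div_pos hN hn₀
  field_simp
  ring

private theorem log_div_tendsto (a b : ℕ) (ha : 1 ≤ a) :
    Tendsto (fun k : ℕ => Real.log ((k * a + b : ℕ) : ℝ) / k) atTop (𝓝 0) := by
  have h1 : Tendsto (fun x : ℝ => Real.log x / x) atTop (𝓝 0) :=
    Real.isLittleO_log_id_atTop.tendsto_div_nhds_zero
  have hcast : Tendsto (fun k : ℕ => ((k * a + b : ℕ) : ℝ)) atTop atTop := by
    refine tendsto_natCast_atTop_atTop.comp ?_
    refine tendsto_atTop_mono (fun k => ?_) tendsto_id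
    show k ≤ k * a + b
    nlinarith
  have h2 := h1.comp hcast
  have hinv : Tendsto (fun N : ℕ => (1 : ℝ) / (N : ℝ)) atTop (𝓝 0) :=
    tendsto_one_div_atTop_nhds_zero_nat
  have h3 : Tendsto (fun k : ℕ => (a : ℝ) + b * (1 / (k : ℝ))) atTop (𝓝 a) := by
    simpa using (tendsto_const_nhds (x := (a : ℝ))).add (hinv.const_mul (b : ℝ))
  have h4 := h2.mul h3
  rw [zero_mul] at h4
  refine h4.congr' ?_
  filter_upwards [eventually_ge_atTop 1] with k hk
  have hk0 : (0 : ℝ) < k := by exact_mod_cast hk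
  have hp : (0 : ℝ) < ((k * a + b : ℕ) : ℝ) := by
    have : 0 < k * a + b := by nlinarith
    exact_mod_cast this
  simp only [Function.comp_apply]
  have e : (a : ℝ) + b * (1 / (k : ℝ)) = ((k * a + b : ℕ) : ℝ) / k := by
    push_cast
    field_simp
  rw [e]
  field_simp

private theorem aa_zero (hν : ChargeLaw ν) (lam h : ℝ) : aa ν K lam h 0 = 0 := by
  unfold aa
  simp [Z_zero]

private theorem AA_upper (hν : ChargeLaw ν) (hK : InterArrival α K) (h : ℝ) (N : ℕ) :
    AA ν K lam h N ≤ N * ∫ e, Real.log (gfun lam h e) ∂ν :=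
  integral_log_le hν lam h (measurable_Zf hK lam h N) (half_pos (Kbar_pos hK N)) N
    (Zf_lower hK lam h N) (Zf_crude hK h N)

/-- Existence of the limit. -/
private theorem limit_exists (hν : ChargeLaw ν) (hα : 0 < α) (hK : InterArrival α K)
    (hl : 0 < lam) (h : ℝ) : ∃ f : ℝ, Tendsto (fun N : ℕ => AA ν K lam h N / N) atTop (𝓝 f) := by
  obtain ⟨n₀, hn₀, hlow⟩ := K_lower hα hK
  have hKp : ∀ n, n₀ ≤ n → 0 < K n := by
    intro n hn
    have h5 := hlow n hn
    have h6 : 0 < (n : ℝ) ^ (-(2 + α)) :=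
      Real.rpow_pos_of_pos (by exact_mod_cast (by omega : 0 < n)) _
    linarith
  have hmul : ∀ k : ℕ, 1 ≤ k → n₀ ≤ k * n₀ := fun k hk => by nlinarith
  have hsub : Subadditive (fun k : ℕ => -aa ν K lam h (k * n₀)) := by
    intro j k
    show -aa ν K lam h ((j + k) * n₀) ≤ -aa ν K lam h (j * n₀) + -aa ν K lam h (k * n₀)
    rcases Nat.eq_zero_or_pos j with rfl | hj
    · rw [zero_mul, aa_zero hν, zero_add]; simp
    rcases Nat.eq_zero_or_pos k with rfl | hk
    · rw [zero_mul, aa_zero hν, add_zero]; simp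
    have h1 := hmul j hj
    have h2 := hmul k hk
    have h3 := aa_superadd (lam := lam) hν hK h (m := j * n₀) (n := k * n₀) (by omega) (by omega)
      (hKp _ h1) (hKp _ h2) (hKp _ (by omega))
    rw [add_mul]
    linarith
  have haA : ∀ k : ℕ, aa ν K lam h (k * n₀) ≤ AA ν K lam h (k * n₀) := by
    intro k
    rcases Nat.eq_zero_or_pos k with rfl | hk
    · rw [zero_mul, aa_zero hν]
      unfold AA
      have : ∀ x : ℕ → ℝ, Zf (ker K lam h) (kerf K lam h) 0 x = 1 := by
        intro x
        unfold Zf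
        simp [Z_zero, sh_zero, kerf_zero hK]
      simp [this]
    · have h1 := hmul k hk
      have h2 := aa_le_AA (lam := lam) hν hK h (n := k * n₀) (by omega) (hKp _ h1) 1
      simpa using h2
  have hbdd : BddBelow (Set.range fun k : ℕ => (-aa ν K lam h (k * n₀)) / (k : ℝ)) := by
    refine ⟨-(n₀ * ∫ e, Real.log (gfun lam h e) ∂ν), ?_⟩
    rintro _ ⟨k, rfl⟩
    have hG : 0 ≤ ∫ e, Real.log (gfun lam h e) ∂ν :=
      integral_nonneg fun e => log_gfun_nonneg lam h e
    show _ ≤ (-aa ν K lam h (k * n₀)) / (k : ℝ)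
    rcases Nat.eq_zero_or_pos k with rfl | hk
    · simp only [Nat.cast_zero, div_zero]
      have : 0 ≤ (n₀ : ℝ) * ∫ e, Real.log (gfun lam h e) ∂ν :=
        mul_nonneg (Nat.cast_nonneg _) hG
      linarith
    · have hk0 : (0 : ℝ) < k := by exact_mod_cast hk
      have h1 := (haA k).trans (AA_upper (lam := lam) hν hK h (k * n₀))
      rw [neg_div, neg_le_neg_iff, div_le_iff₀ hk0]
      push_cast at h1
      linarith
  have hF := hsub.tendsto_lim hbdd
  set σ : ℝ := -hsub.lim with hσ
  have hs : Tendsto (fun k : ℕ => aa ν K lam h (k * n₀) / k) atTop (𝓝 σ) := by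
    have := hF.neg
    refine this.congr fun k => ?_
    show -((-aa ν K lam h (k * n₀)) / (k : ℝ)) = _
    rw [neg_div, neg_neg]
  have hinv : Tendsto (fun N : ℕ => (1 : ℝ) / (N : ℝ)) atTop (𝓝 0) :=
    tendsto_one_div_atTop_nhds_zero_nat
  have hs1 : Tendsto (fun k : ℕ => aa ν K lam h (k * n₀ + n₀) / k) atTop (𝓝 σ) := by
    have h1 : Tendsto (fun k : ℕ => aa ν K lam h ((k + 1) * n₀) / ((k + 1 : ℕ) : ℝ)) atTop (𝓝 σ) :=
      hs.comp (tendsto_add_atTop_nat 1)
    have h2 : Tendsto (fun k : ℕ => 1 + 1 / (k : ℝ)) atTop (𝓝 1) := by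
      simpa using (tendsto_const_nhds (x := (1 : ℝ))).add hinv
    have h3 := h1.mul h2
    rw [mul_one] at h3
    refine h3.congr' ?_
    filter_upwards [eventually_ge_atTop 1] with k hk
    have hk0 : (0 : ℝ) < k := by exact_mod_cast hk
    have e : (k + 1) * n₀ = k * n₀ + n₀ := by ring
    rw [e]
    push_cast
    field_simp
  set C' : ℝ := 2 * lam * (n₀ * ∫ e, |e + h| ∂ν) with hC'
  have hup : Tendsto (fun k : ℕ => (2 + α) * (Real.log ((k * n₀ + n₀ : ℕ) : ℝ) / k) +
      C' * (1 / (k : ℝ)) + aa ν K lam h (k * n₀ + n₀) / k) atTop (𝓝 σ) := by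
    have h1 := ((log_div_tendsto n₀ n₀ hn₀).const_mul (2 + α)).add (hinv.const_mul C')
    have h2 := h1.add hs1
    simpa using h2
  have hA : Tendsto (fun k : ℕ => AA ν K lam h (k * n₀) / k) atTop (𝓝 σ) := by
    refine tendsto_of_tendsto_of_tendsto_of_le_of_le' hs hup ?_ ?_
    · exact Eventually.of_forall fun k =>
        div_le_div_of_nonneg_right (haA k) (Nat.cast_nonneg k)
    · filter_upwards [eventually_ge_atTop 1] with k hk
      have hk0 : (0 : ℝ) < k := by exact_mod_cast hk
      have h1 := AA_le_aa hν hα hK hl h hn₀ hlow (k * n₀)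
      calc AA ν K lam h (k * n₀) / k
          ≤ ((2 + α) * Real.log ((k * n₀ + n₀ : ℕ) : ℝ) + C' +
            aa ν K lam h (k * n₀ + n₀)) / k := div_le_div_of_nonneg_right h1 hk0.le
        _ = _ := by ring
  exact ⟨σ / n₀, real_limit (AA_step hν hK hl h) hn₀ hA⟩

private theorem AA_block (hν : ChargeLaw ν) (hK : InterArrival α K) (hl : 0 < lam) (h : ℝ)
    {L : ℕ} (hL : 1 ≤ L) (M : ℕ) : AA ν K lam h (M * L) ≤
      M * ∫ x, Real.log (Rb (ker K lam h) (uker lam h) L x) ∂(mu ν) := by
  have := hν.prob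
  have hker := isKernel_ker hK.nonneg lam h
  have huk := isKernel_uker lam h
  have hRi : Integrable (fun x => Real.log (Rb (ker K lam h) (uker lam h) L x)) (mu ν) :=
    Rb_integrable hker huk (fun n x => one_le_uker n x) (measurable_gfun lam h)
      (fun e => one_le_gfun e) (integrable_gfun hν lam h) (fun n x => Zker_crude hK n x)
      (fun n x => uker_crude n x) L
  have hR1 : ∀ y, 0 < Rb (ker K lam h) (uker lam h) L y := fun y =>
    zero_lt_one.trans_le (one_le_Rb hker.nonneg (fun n x => one_le_uker n x) L y)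
  have e : (M : ℝ) * ∫ x, Real.log (Rb (ker K lam h) (uker lam h) L x) ∂(mu ν) =
      ∫ x, ∑ i ∈ Finset.range M, Real.log (Rb (ker K lam h) (uker lam h) L (sh (i * L) x))
        ∂(mu ν) := by
    rw [integral_finsetSum _ fun i _ => sh_integrable hν hRi (i * L)]
    have e1 : ∀ i ∈ Finset.range M,
        ∫ x, Real.log (Rb (ker K lam h) (uker lam h) L (sh (i * L) x)) ∂(mu ν) =
        ∫ x, Real.log (Rb (ker K lam h) (uker lam h) L x) ∂(mu ν) :=
      fun i _ => sh_integral hν hRi (i * L)
    rw [Finset.sum_congr rfl e1, Finset.sum_const, Finset.card_range, nsmul_eq_mul]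
  rw [e]
  unfold AA
  refine integral_mono (logZfInt hν hK h (M * L))
    (integrable_finsetSum _ fun i _ => sh_integrable hν hRi (i * L)) fun x => ?_
  show Real.log _ ≤ ∑ i ∈ Finset.range M, Real.log (Rb (ker K lam h) (uker lam h) L (sh (i * L) x))
  rw [← Real.log_prod fun i _ => (hR1 _).ne']
  refine Real.log_le_log (Zf_pos hK lam h _ x) ?_
  exact Zf_block (K := K) (Kf := Kbar K) hker.nonneg (fun n y => kerf_nonneg hK n y) hK.nonneg
    (Kbar_nonneg hK) (fun n => (Kbar_add hK n).le) (fun n y => one_le_uker n y)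
    (fun y => uker_zero y) (fun m n y => uker_submul m n y)
    (fun n y hn => ker_le_uker hK.nonneg n y hn) (fun n y => kerf_le_uker hK n y) hL M x

/-- Existence of the free energy and the two variational bounds. -/
theorem free_energy (hν : ChargeLaw ν) (hα : 0 < α) (hK : InterArrival α K) (hl : 0 < lam)
    (h : ℝ) :
    ∃ f : ℝ, Tendsto (fun N : ℕ => AA ν K lam h N / N) atTop (𝓝 f) ∧
      (∀ n : ℕ, 1 ≤ n → 0 < K n →
        (∫ x, Real.log (Z (ker K lam h) n x) ∂(mu ν)) / n ≤ f) ∧
      (∀ L : ℕ, 1 ≤ L →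
        f ≤ (∫ x, Real.log (Rb (ker K lam h) (uker lam h) L x) ∂(mu ν)) / L) := by
  obtain ⟨f, hf⟩ := limit_exists hν hα hK hl h
  refine ⟨f, hf, ?_, ?_⟩
  · intro n hn hKn
    have hmul : Tendsto (fun k : ℕ => k * n) atTop atTop :=
      tendsto_atTop_mono (fun k => Nat.le_mul_of_pos_right k hn) tendsto_id
    have h1 := hf.comp hmul
    refine ge_of_tendsto h1 ?_
    filter_upwards [eventually_ge_atTop 1] with k hk
    have hk0 : (0 : ℝ) < k := by exact_mod_cast hk
    have hn0 : (0 : ℝ) < n := by exact_mod_cast hn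
    have h2 := aa_le_AA (lam := lam) hν hK h hn hKn k
    show aa ν K lam h n / n ≤ AA ν K lam h (k * n) / ((k * n : ℕ) : ℝ)
    push_cast
    rw [div_le_div_iff₀ hn0 (mul_pos hk0 hn0)]
    nlinarith
  · intro L hL
    have hmul : Tendsto (fun k : ℕ => k * L) atTop atTop :=
      tendsto_atTop_mono (fun k => Nat.le_mul_of_pos_right k hL) tendsto_id
    have h1 := hf.comp hmul
    refine le_of_tendsto h1 ?_
    filter_upwards [eventually_ge_atTop 1] with k hk
    have hk0 : (0 : ℝ) < k := by exact_mod_cast hk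
    have hL0 : (0 : ℝ) < L := by exact_mod_cast hL
    have h2 := AA_block hν hK hl h hL k
    show AA ν K lam h (k * L) / ((k * L : ℕ) : ℝ) ≤ _
    push_cast
    rw [div_le_div_iff₀ (mul_pos hk0 hL0) hL0]
    nlinarith

/-! ## Elementary bounds on the free energy -/

private theorem Kbar_lower (hα : 0 < α) (hK : InterArrival α K) :
    ∃ n₀ : ℕ, ∀ N, n₀ ≤ N → ((N + 1 : ℕ) : ℝ) ^ (-(2 + α)) ≤ Kbar K N / 2 := by
  obtain ⟨n₀, _, hlow⟩ := K_lower hα hK
  refine ⟨n₀, fun N hN => ?_⟩
  have h1 := hlow (N + 1) (by omega)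
  have h2 := Kbar_succ (K := K) N
  have h3 := Kbar_nonneg hK (N + 1)
  linarith

private theorem lower_tendsto (α c : ℝ) : Tendsto (fun N : ℕ =>
    (-(2 + α)) * (Real.log ((N * 1 + 1 : ℕ) : ℝ) / N) + c) atTop (𝓝 c) := by
  simpa using ((log_div_tendsto 1 1 le_rfl).const_mul (-(2 + α))).add
    (tendsto_const_nhds (x := c))

/-- `f ≥ 0`. -/
theorem free_nonneg (hν : ChargeLaw ν) (hα : 0 < α) (hK : InterArrival α K) (hl : 0 < lam)
    {h f : ℝ} (hf : Tendsto (fun N : ℕ => AA ν K lam h N / N) atTop (𝓝 f)) : 0 ≤ f := by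
  have := hν.prob
  obtain ⟨n₀, hn₀⟩ := Kbar_lower hα hK
  refine le_of_tendsto_of_tendsto (lower_tendsto α 0) hf ?_
  filter_upwards [eventually_ge_atTop (n₀ + 1)] with N hN
  have hN0 : (0 : ℝ) < N := by exact_mod_cast (by omega : 0 < N)
  have hp : (0 : ℝ) < ((N + 1 : ℕ) : ℝ) := by exact_mod_cast Nat.succ_pos N
  have h1 : (-(2 + α)) * Real.log ((N + 1 : ℕ) : ℝ) ≤ AA ν K lam h N := by
    have h2 : ∫ _x : ℕ → ℝ, (-(2 + α)) * Real.log ((N + 1 : ℕ) : ℝ) ∂(mu ν) =
        (-(2 + α)) * Real.log ((N + 1 : ℕ) : ℝ) := by simp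
    rw [← h2]
    unfold AA
    refine integral_mono (integrable_const _) (logZfInt hν hK h N) fun x => ?_
    show (-(2 + α)) * Real.log ((N + 1 : ℕ) : ℝ) ≤ Real.log _
    rw [← Real.log_rpow hp]
    exact Real.log_le_log (Real.rpow_pos_of_pos hp _)
      ((hn₀ N (by omega)).trans (Zf_lower hK lam h N x))
  rw [mul_one, add_zero, ← mul_div_assoc]
  exact div_le_div_of_nonneg_right h1 hN0.le

/-- `f(h) ≥ -2 lam h`. -/
theorem free_lower (hν : ChargeLaw ν) (hα : 0 < α) (hK : InterArrival α K) (hl : 0 < lam)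
    {h f : ℝ} (hf : Tendsto (fun N : ℕ => AA ν K lam h N / N) atTop (𝓝 f)) :
    -2 * lam * h ≤ f := by
  have := hν.prob
  obtain ⟨n₀, hn₀⟩ := Kbar_lower hα hK
  refine le_of_tendsto_of_tendsto (lower_tendsto α (-2 * lam * h)) hf ?_
  filter_upwards [eventually_ge_atTop (n₀ + 1)] with N hN
  have hN0 : (0 : ℝ) < N := by exact_mod_cast (by omega : 0 < N)
  have hp : (0 : ℝ) < ((N + 1 : ℕ) : ℝ) := by exact_mod_cast Nat.succ_pos N
  have hid : Integrable (fun e : ℝ => e + h) ν := (id_integrable hν).add (integrable_const h)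
  have hidv : ∫ e, (e + h) ∂ν = h := by
    rw [integral_add (id_integrable hν) (integrable_const h), hν.mean]
    simp
  have hEi : Integrable (En lam h N) (mu ν) := by
    unfold En
    exact (integrable_finsetSum _ fun j _ => one_site_integrable hν hid j).const_mul _
  have hEv : ∫ x, En lam h N x ∂(mu ν) = -2 * lam * (N * h) := by
    unfold En
    rw [integral_const_mul, integral_finsetSum _ fun j _ => one_site_integrable hν hid j]
    congr 1
    have e : ∀ j ∈ Finset.range N, ∫ x : ℕ → ℝ, (x j + h) ∂(mu ν) = h :=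
      fun j _ => (one_site_integral hν hid.aestronglyMeasurable j).trans hidv
    rw [Finset.sum_congr rfl e, Finset.sum_const, Finset.card_range, nsmul_eq_mul]
  have h1 : (-(2 + α)) * Real.log ((N + 1 : ℕ) : ℝ) + -2 * lam * (N * h) ≤ AA ν K lam h N := by
    have hc : Integrable (fun _ : ℕ → ℝ => (-(2 + α)) * Real.log ((N + 1 : ℕ) : ℝ)) (mu ν) :=
      integrable_const _
    have h2 : ∫ _x : ℕ → ℝ, (-(2 + α)) * Real.log ((N + 1 : ℕ) : ℝ) ∂(mu ν) =
        (-(2 + α)) * Real.log ((N + 1 : ℕ) : ℝ) := by simp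
    rw [← h2, ← hEv, ← integral_add hc hEi]
    unfold AA
    refine integral_mono (hc.add hEi) (logZfInt hν hK h N) fun x => ?_
    show (-(2 + α)) * Real.log ((N + 1 : ℕ) : ℝ) + En lam h N x ≤ Real.log _
    rw [← Real.log_rpow hp, ← Real.log_exp (En lam h N x),
      ← Real.log_mul (Real.rpow_pos_of_pos hp _).ne' (Real.exp_pos _).ne']
    refine Real.log_le_log (mul_pos (Real.rpow_pos_of_pos hp _) (Real.exp_pos _)) ?_
    refine le_trans ?_ (kerf_le_Zf hK lam h N x)
    unfold kerf
    have h3 := hn₀ N (by omega)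
    have h4 := Real.exp_pos (En lam h N x)
    have h5 := Kbar_nonneg hK N
    calc ((N + 1 : ℕ) : ℝ) ^ (-(2 + α)) * Real.exp (En lam h N x)
        ≤ Kbar K N / 2 * Real.exp (En lam h N x) := mul_le_mul_of_nonneg_right h3 h4.le
      _ ≤ Kbar K N * ((1 + Real.exp (En lam h N x)) / 2) := by nlinarith
  rw [mul_one]
  have e : (-(2 + α)) * (Real.log ((N + 1 : ℕ) : ℝ) / N) + -2 * lam * h =
      ((-(2 + α)) * Real.log ((N + 1 : ℕ) : ℝ) + -2 * lam * (N * h)) / N := by
    field_simp
  rw [e]
  exact div_le_div_of_nonneg_right h1 hN0.le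

private theorem mean_ker_le (hν : ChargeLaw ν) (hK : InterArrival α K) {h : ℝ}
    (hq : qq ν lam h 1 ≤ 1) {c : ℝ} (hc : 0 ≤ c) (n : ℕ) :
    ∫⁻ x, ENNReal.ofReal (c * ((1 + Real.exp (En lam h n x)) / 2)) ∂(mu ν) ≤
      ENNReal.ofReal c := by
  have := hν.prob
  have h0 := mom_expEn hν lam h one_pos n
  unfold mom at h0
  simp only [Real.rpow_one] at h0
  have h1 : ∀ x : ℕ → ℝ, ENNReal.ofReal (c * ((1 + Real.exp (En lam h n x)) / 2)) =
      ENNReal.ofReal (c / 2) * (1 + ENNReal.ofReal (Real.exp (En lam h n x))) := by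
    intro x
    rw [← ENNReal.ofReal_one, ← ENNReal.ofReal_add zero_le_one (Real.exp_pos _).le,
      ← ENNReal.ofReal_mul (by positivity)]
    congr 1
    ring
  simp only [h1]
  rw [lintegral_const_mul _ (by
    have := measurable_En lam h n
    fun_prop), lintegral_add_left measurable_const, h0, lintegral_const, measure_univ, mul_one]
  have h2 : ENNReal.ofReal (qq ν lam h 1 ^ n) ≤ 1 := by
    rw [← ENNReal.ofReal_one]
    exact ENNReal.ofReal_le_ofReal (pow_le_one₀ (qq_pos hν lam h 1).le hq)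
  calc ENNReal.ofReal (c / 2) * (1 + ENNReal.ofReal (qq ν lam h 1 ^ n))
      ≤ ENNReal.ofReal (c / 2) * (1 + 1) := by gcongr
    _ = ENNReal.ofReal c := by
        rw [← ENNReal.ofReal_one, ← ENNReal.ofReal_add zero_le_one zero_le_one,
          ← ENNReal.ofReal_mul (by positivity)]
        congr 1
        ring

private theorem mean_Zf_le_one (hν : ChargeLaw ν) (hK : InterArrival α K) {h : ℝ}
    (hq : qq ν lam h 1 ≤ 1) (N : ℕ) :
    ∫⁻ x, ENNReal.ofReal (Zf (ker K lam h) (kerf K lam h) N x) ∂(mu ν) ≤ 1 := by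
  have := hν.prob
  induction N using Nat.strong_induction_on with
  | _ N ih =>
    have hker := isKernel_ker hK.nonneg lam h
    have h1 : ∀ x : ℕ → ℝ, ENNReal.ofReal (Zf (ker K lam h) (kerf K lam h) N x) =
        ENNReal.ofReal (kerf K lam h N x) + ∑ i ∈ Finset.Icc 1 N,
          ENNReal.ofReal (ker K lam h i x) *
            ENNReal.ofReal (Zf (ker K lam h) (kerf K lam h) (N - i) (sh i x)) := by
      intro x
      rw [Zf_first hK h N x, ENNReal.ofReal_add (kerf_nonneg hK _ _)
        (Finset.sum_nonneg fun i _ => mul_nonneg (hker.nonneg _ _) (Zf_pos hK lam h _ _).le),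
        ENNReal.ofReal_sum_of_nonneg
          fun i _ => mul_nonneg (hker.nonneg _ _) (Zf_pos hK lam h _ _).le]
      congr 1
      exact Finset.sum_congr rfl fun i _ => ENNReal.ofReal_mul (hker.nonneg _ _)
    simp only [h1]
    have hsum : ∫⁻ x, ∑ i ∈ Finset.Icc 1 N, ENNReal.ofReal (ker K lam h i x) *
        ENNReal.ofReal (Zf (ker K lam h) (kerf K lam h) (N - i) (sh i x)) ∂(mu ν) =
        ∑ i ∈ Finset.Icc 1 N, ∫⁻ x, ENNReal.ofReal (ker K lam h i x) *
        ENNReal.ofReal (Zf (ker K lam h) (kerf K lam h) (N - i) (sh i x)) ∂(mu ν) := by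
      refine lintegral_finsetSum _ fun i _ => ?_
      exact (hker.meas i).ennreal_ofReal.mul
        (((measurable_Zf hK lam h (N - i)).comp (measurable_sh i)).ennreal_ofReal)
    rw [lintegral_add_left (measurable_kerf K lam h N).ennreal_ofReal, hsum]
    have h2 : ∀ i ∈ Finset.Icc 1 N, ∫⁻ x, ENNReal.ofReal (ker K lam h i x) *
        ENNReal.ofReal (Zf (ker K lam h) (kerf K lam h) (N - i) (sh i x)) ∂(mu ν) ≤
        ENNReal.ofReal (K i) := by
      intro i hi
      have hi' := Finset.mem_Icc.mp hi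
      rw [lintegral_mul_sh (m := i) (f := fun x => ENNReal.ofReal (ker K lam h i x))
        (g := fun x => ENNReal.ofReal (Zf (ker K lam h) (kerf K lam h) (N - i) x))
        (hker.meas i).ennreal_ofReal (measurable_Zf hK lam h (N - i)).ennreal_ofReal
        (fun x y hxy => by
          show ENNReal.ofReal _ = ENNReal.ofReal _
          rw [hker.dep i x y hxy])]
      calc _ ≤ ENNReal.ofReal (K i) * 1 := by
            refine mul_le_mul' ?_ (ih (N - i) (by omega))
            exact mean_ker_le hν hK hq (hK.nonneg i) i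
        _ = _ := mul_one _
    calc _ ≤ ENNReal.ofReal (Kbar K N) + ∑ i ∈ Finset.Icc 1 N, ENNReal.ofReal (K i) := by
          refine add_le_add ?_ (Finset.sum_le_sum h2)
          exact mean_ker_le hν hK hq (Kbar_nonneg hK N) N
      _ = ENNReal.ofReal (Kbar K N + ∑ i ∈ Finset.Icc 1 N, K i) := by
          rw [ENNReal.ofReal_add (Kbar_nonneg hK N) (Finset.sum_nonneg fun i _ => hK.nonneg i),
            ENNReal.ofReal_sum_of_nonneg fun i _ => hK.nonneg i]
      _ = 1 := by rw [Kbar_add hK N, ENNReal.ofReal_one]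

/-- Annealed bound. -/
theorem free_ann (hν : ChargeLaw ν) (hK : InterArrival α K) (hl : 0 < lam)
    {h f : ℝ} (hf : Tendsto (fun N : ℕ => AA ν K lam h N / N) atTop (𝓝 f))
    (hq : qq ν lam h 1 ≤ 1) : f ≤ 0 := by
  have := hν.prob
  refine le_of_tendsto hf (Eventually.of_forall fun N => ?_)
  refine div_nonpos_of_nonpos_of_nonneg ?_ (Nat.cast_nonneg N)
  have h1 := mean_Zf_le_one hν hK hq N
  have hZi : Integrable (Zf (ker K lam h) (kerf K lam h) N) (mu ν) := by
    refine ⟨(measurable_Zf hK lam h N).aestronglyMeasurable, ?_⟩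
    rw [hasFiniteIntegral_iff_ofReal (Eventually.of_forall fun x => (Zf_pos hK lam h N x).le)]
    exact lt_of_le_of_lt h1 ENNReal.one_lt_top
  have h2 : ∫ x, Zf (ker K lam h) (kerf K lam h) N x ∂(mu ν) ≤ 1 := by
    rw [integral_eq_lintegral_of_nonneg_ae (Eventually.of_forall fun x => (Zf_pos hK lam h N x).le)
      hZi.aestronglyMeasurable]
    exact ENNReal.toReal_le_of_le_ofReal zero_le_one (by rw [ENNReal.ofReal_one]; exact h1)
  have h3 : AA ν K lam h N ≤ ∫ x, (Zf (ker K lam h) (kerf K lam h) N x - 1) ∂(mu ν) := by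
    unfold AA
    refine integral_mono (logZfInt hν hK h N) (hZi.sub (integrable_const 1)) fun x => ?_
    exact Real.log_le_sub_one_of_pos (Zf_pos hK lam h N x)
  rw [integral_sub hZi (integrable_const 1)] at h3
  simp only [integral_const, probReal_univ, smul_eq_mul, mul_one] at h3
  linarith

private theorem Z_scale (hK : InterArrival α K) (hl : 0 < lam) {h h' : ℝ} (hh : h' ≤ h) (n : ℕ)
    (x : ℕ → ℝ) : Z (ker K lam h') n x ≤
      Real.exp (2 * lam * (h - h') * n) * Z (ker K lam h) n x := by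
  induction n using Nat.strong_induction_on generalizing x with
  | _ n ih =>
    rcases Nat.eq_zero_or_pos n with rfl | hn
    · simp [Z_zero]
    · rw [Z_first _ hn x, Z_first _ hn x, Finset.mul_sum]
      refine Finset.sum_le_sum fun i hi => ?_
      have hi' := Finset.mem_Icc.mp hi
      have h1 := ih (n - i) (by omega) (sh i x)
      have h2 := exp_compare (a := En lam h' i x) (b := En lam h i x)
        (w := 2 * lam * (h - h') * i) (by
          unfold En
          have e : ∑ j ∈ Finset.range i, (x j + h') =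
              ∑ j ∈ Finset.range i, (x j + h) - (h - h') * i := by
            rw [Finset.sum_add_distrib, Finset.sum_add_distrib]
            simp only [Finset.sum_const, Finset.card_range, nsmul_eq_mul]
            ring
          rw [e]
          linarith)
        (mul_nonneg (mul_nonneg (by linarith) (by linarith)) (Nat.cast_nonneg i))
      have e : Real.exp (2 * lam * (h - h') * n) = Real.exp (2 * lam * (h - h') * i) *
          Real.exp (2 * lam * (h - h') * ((n - i : ℕ) : ℝ)) := by
        rw [← Real.exp_add]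
        congr 1
        rw [Nat.cast_sub hi'.2]
        ring
      rw [e]
      calc ker K lam h' i x * Z (ker K lam h') (n - i) (sh i x)
          ≤ (K i * (Real.exp (2 * lam * (h - h') * i) *
              ((1 + Real.exp (En lam h i x)) / 2))) *
            (Real.exp (2 * lam * (h - h') * ((n - i : ℕ) : ℝ)) *
              Z (ker K lam h) (n - i) (sh i x)) := by
            refine mul_le_mul ?_ h1 (Z_ker_nonneg hK lam h' _ _) ?_
            · exact mul_le_mul_of_nonneg_left h2 (hK.nonneg i)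
            · exact mul_nonneg (hK.nonneg i) (by positivity)
        _ = _ := by unfold ker; ring

private theorem Zf_scale (hK : InterArrival α K) (hl : 0 < lam) {h h' : ℝ} (hh : h' ≤ h) (N : ℕ)
    (x : ℕ → ℝ) : Zf (ker K lam h') (kerf K lam h') N x ≤
      Real.exp (2 * lam * (h - h') * N) * Zf (ker K lam h) (kerf K lam h) N x := by
  unfold Zf
  rw [Finset.mul_sum]
  refine Finset.sum_le_sum fun s hs => ?_
  have hs' := Finset.mem_range.mp hs
  have h1 := Z_scale hK hl hh s x
  set y := sh s x with hy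
  set m := N - s with hm
  have h2 := exp_compare (a := En lam h' m y) (b := En lam h m y)
    (w := 2 * lam * (h - h') * m) (by
      unfold En
      have e : ∑ j ∈ Finset.range m, (y j + h') =
          ∑ j ∈ Finset.range m, (y j + h) - (h - h') * m := by
        rw [Finset.sum_add_distrib, Finset.sum_add_distrib]
        simp only [Finset.sum_const, Finset.card_range, nsmul_eq_mul]
        ring
      rw [e]
      linarith)
    (mul_nonneg (mul_nonneg (by linarith) (by linarith)) (Nat.cast_nonneg m))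
  have e : Real.exp (2 * lam * (h - h') * N) = Real.exp (2 * lam * (h - h') * s) *
      Real.exp (2 * lam * (h - h') * m) := by
    rw [← Real.exp_add]
    congr 1
    rw [hm, Nat.cast_sub (by omega)]
    ring
  rw [e]
  calc Z (ker K lam h') s x * kerf K lam h' m y
      ≤ (Real.exp (2 * lam * (h - h') * s) * Z (ker K lam h) s x) *
        (Kbar K m * (Real.exp (2 * lam * (h - h') * m) * ((1 + Real.exp (En lam h m y)) / 2))) := by
        refine mul_le_mul h1 ?_ (kerf_nonneg hK _ _) ?_
        · exact mul_le_mul_of_nonneg_left h2 (Kbar_nonneg hK m)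
        · exact mul_nonneg (Real.exp_pos _).le (Z_ker_nonneg hK lam h _ _)
    _ = _ := by unfold kerf; ring

/-- Monotone and Lipschitz in `h`. -/
theorem free_mono (hν : ChargeLaw ν) (hK : InterArrival α K) (hl : 0 < lam)
    {h h' f f' : ℝ} (hh : h' ≤ h)
    (hf : Tendsto (fun N : ℕ => AA ν K lam h N / N) atTop (𝓝 f))
    (hf' : Tendsto (fun N : ℕ => AA ν K lam h' N / N) atTop (𝓝 f')) :
    f ≤ f' ∧ f' ≤ f + 2 * lam * (h - h') := by
  have := hν.prob
  constructor
  · refine le_of_tendsto_of_tendsto' hf hf' fun N => ?_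
    refine div_le_div_of_nonneg_right ?_ (Nat.cast_nonneg N)
    unfold AA
    refine integral_mono (logZfInt hν hK h N) (logZfInt hν hK h' N) fun x => ?_
    refine Real.log_le_log (Zf_pos hK lam h N x) ?_
    unfold Zf
    refine Finset.sum_le_sum fun s _ => ?_
    refine mul_le_mul (Z_mono (isKernel_ker hK.nonneg lam h).nonneg
      (fun n y => ker_mono hK.nonneg hl hh n y) s x) ?_ (kerf_nonneg hK _ _)
      (Z_ker_nonneg hK lam h' s x)
    unfold kerf
    refine mul_le_mul_of_nonneg_left ?_ (Kbar_nonneg hK _)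
    have h1 : En lam h (N - s) (sh s x) ≤ En lam h' (N - s) (sh s x) := by
      unfold En
      have h2 : ∑ j ∈ Finset.range (N - s), (sh s x j + h') ≤
          ∑ j ∈ Finset.range (N - s), (sh s x j + h) :=
        Finset.sum_le_sum fun j _ => by linarith
      nlinarith
    have h3 := Real.exp_le_exp.mpr h1
    linarith
  · refine le_of_tendsto_of_tendsto hf' (hf.add (tendsto_const_nhds (x := 2 * lam * (h - h')))) ?_
    filter_upwards [eventually_ge_atTop 1] with N hN
    have hN0 : (0 : ℝ) < N := by exact_mod_cast hN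
    have h1 : AA ν K lam h' N ≤ 2 * lam * (h - h') * N + AA ν K lam h N := by
      have hc : Integrable (fun _ : ℕ → ℝ => 2 * lam * (h - h') * (N : ℝ)) (mu ν) :=
        integrable_const _
      have h2 : ∫ _x : ℕ → ℝ, 2 * lam * (h - h') * (N : ℝ) ∂(mu ν) =
          2 * lam * (h - h') * N := by simp
      rw [← h2]
      unfold AA
      rw [← integral_add hc (logZfInt hν hK h N)]
      refine integral_mono (logZfInt hν hK h' N)
        (hc.add (logZfInt hν hK h N)) fun x => ?_
      show Real.log _ ≤ 2 * lam * (h - h') * (N : ℝ) + Real.log _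
      have h3 := Real.log_le_log (Zf_pos hK lam h' N x) (Zf_scale hK hl hh N x)
      rw [Real.log_mul (Real.exp_pos _).ne' (Zf_pos hK lam h N x).ne', Real.log_exp] at h3
      exact h3
    have e : AA ν K lam h N / N + 2 * lam * (h - h') =
        (2 * lam * (h - h') * N + AA ν K lam h N) / N := by
      field_simp
      ring
    rw [e]
    exact div_le_div_of_nonneg_right h1 hN0.le

end Copoly
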