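import Mathlib

/-! # Choice of scale -/

namespace Copoly

/-- For every small `δ` there is a scale `j` fitting to it. -/
theorem choose_scale {D D' t θ η Γ : ℝ} (hD : 0 < D) (hD' : 0 < D') (ht : 0 < t) (hθ : 0 < θ)
    (hη : 0 ≤ η) (hΓ : 0 < Γ) (h : η * Γ / θ < θ / 3) :
    ∃ C δ₃ : ℝ, 0 < C ∧ 0 < δ₃ ∧ ∀ δ : ℝ, 0 < δ → δ ≤ δ₃ → ∃ j : ℕ, 1 ≤ j ∧
      D * j * Real.exp (η * (j * t)) * δ ^ θ ≤ 1 ∧
      D' * j * Real.exp (-(θ / 3) * (j * t)) ≤ C * δ ^ Γ := by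
  -- the slope
  have hgap : 0 < θ - 3 * η * Γ / θ := by
    have : 3 * η * Γ / θ = 3 * (η * Γ / θ) := by ring
    rw [this]; linarith
  obtain ⟨ε, hε0, hε⟩ : ∃ ε : ℝ, 0 < ε ∧ η * ε * t < θ - 3 * η * Γ / θ := by
    refine ⟨(θ - 3 * η * Γ / θ) / (2 * (η * t + 1)), by positivity, ?_⟩
    have hpos : 0 < 2 * (η * t + 1) := by positivity
    rw [mul_div_assoc', div_mul_eq_mul_div, div_lt_iff₀ hpos]
    nlinarith [mul_nonneg hη ht.le]
  set s : ℝ := 3 * Γ / (θ * t) + ε with hs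
  have hs0 : 0 < s := by positivity
  set a : ℝ := θ - η * s * t with ha
  have ha0 : 0 < a := by
    have : η * s * t = 3 * η * Γ / θ + η * ε * t := by
      rw [hs]; field_simp
    rw [ha, this]; linarith
  set b : ℝ := θ * t * ε / 3 with hb
  have hb0 : 0 < b := by positivity
  have hsb : θ / 3 * t * s = Γ + b := by
    rw [hs, hb]; field_simp
  set L0 : ℝ := max (1 / s) (max 1 (4 * D * s / a ^ 2)) with hL0
  refine ⟨D' * s * Real.exp (θ * t / 3) / b, Real.exp (-L0), by positivity, by positivity, ?_⟩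
  intro δ hδ hδ3
  set L : ℝ := - Real.log δ with hL
  have hδL : δ = Real.exp (-L) := by rw [hL, neg_neg, Real.exp_log hδ]
  have hLL0 : L0 ≤ L := by
    have := Real.log_le_log hδ hδ3
    rw [Real.log_exp] at this
    rw [hL]; linarith
  have hL1 : 1 / s ≤ L := le_trans (le_max_left _ _) hLL0
  have hL2 : 1 ≤ L := le_trans (le_trans (le_max_left _ _) (le_max_right _ _)) hLL0
  have hL3 : 4 * D * s / a ^ 2 ≤ L :=
    le_trans (le_trans (le_max_right _ _) (le_max_right _ _)) hLL0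
  have hLpos : 0 < L := by linarith
  have hsL : 1 ≤ s * L := by
    rw [div_le_iff₀ hs0] at hL1; linarith
  refine ⟨⌊s * L⌋₊, ?_, ?_, ?_⟩
  · exact Nat.le_floor (by simpa using hsL)
  · have hj : ((⌊s * L⌋₊ : ℕ) : ℝ) ≤ s * L := Nat.floor_le (by positivity)
    have hj0 : (0 : ℝ) ≤ ((⌊s * L⌋₊ : ℕ) : ℝ) := Nat.cast_nonneg _
    have hδθ : δ ^ θ = Real.exp (-(θ * L)) := by
      rw [hδL, ← Real.exp_mul]; ring_nf
    have h1 : D * ((⌊s * L⌋₊ : ℕ) : ℝ) * Real.exp (η * (((⌊s * L⌋₊ : ℕ) : ℝ) * t)) * δ ^ θ ≤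
        D * (s * L) * Real.exp (η * ((s * L) * t)) * δ ^ θ := by
      gcongr
    refine h1.trans ?_
    rw [hδθ, mul_assoc, ← Real.exp_add]
    have h2 : η * ((s * L) * t) + -(θ * L) = -(a * L) := by rw [ha]; ring
    rw [h2]
    -- L * exp(-aL) ≤ 4/(a^2 L)
    have hx : a * L / 2 ≤ Real.exp (a * L / 2) := by
      have := Real.add_one_le_exp (a * L / 2); linarith
    have hx0 : 0 < a * L / 2 := by positivity
    have h3 : (a * L / 2) ^ 2 ≤ Real.exp (a * L) := by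
      have : Real.exp (a * L) = Real.exp (a * L / 2) ^ 2 := by
        rw [← Real.exp_nat_mul]; push_cast; ring_nf
      rw [this]; gcongr
    rw [Real.exp_neg, ← div_eq_mul_inv, div_le_one (Real.exp_pos _)]
    refine le_trans ?_ h3
    rw [div_le_iff₀ (by positivity)] at hL3
    nlinarith
  · have hj : ((⌊s * L⌋₊ : ℕ) : ℝ) ≤ s * L := Nat.floor_le (by positivity)
    have hj2 : s * L - 1 ≤ ((⌊s * L⌋₊ : ℕ) : ℝ) := by
      have := Nat.lt_floor_add_one (s * L); linarith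
    have hj0 : (0 : ℝ) ≤ ((⌊s * L⌋₊ : ℕ) : ℝ) := Nat.cast_nonneg _
    have hδΓ : δ ^ Γ = Real.exp (-(Γ * L)) := by
      rw [hδL, ← Real.exp_mul]; ring_nf
    have h1 : D' * ((⌊s * L⌋₊ : ℕ) : ℝ) * Real.exp (-(θ / 3) * (((⌊s * L⌋₊ : ℕ) : ℝ) * t)) ≤
        D' * (s * L) * Real.exp (θ * t / 3 + -(Γ * L) + -(b * L)) := by
      have : -(θ / 3) * (((⌊s * L⌋₊ : ℕ) : ℝ) * t) ≤ θ * t / 3 + -(Γ * L) + -(b * L) := by
        have e1 : θ * t / 3 + -(Γ * L) + -(b * L) = -(θ / 3 * t * (s * L - 1)) := by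
          have : θ / 3 * t * (s * L - 1) = (θ / 3 * t * s) * L - θ * t / 3 := by ring
          rw [this, hsb]; ring
        rw [e1]
        have : θ / 3 * t * (s * L - 1) ≤ θ / 3 * t * ((⌊s * L⌋₊ : ℕ) : ℝ) := by
          gcongr
        linarith
      gcongr
    refine h1.trans ?_
    rw [Real.exp_add, Real.exp_add, hδΓ]
    have hx : b * L ≤ Real.exp (b * L) := by
      have := Real.add_one_le_exp (b * L); linarith
    have h4 : L * Real.exp (-(b * L)) ≤ 1 / b := by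
      rw [Real.exp_neg, ← div_eq_mul_inv, div_le_div_iff₀ (Real.exp_pos _) hb0]
      linarith
    calc D' * (s * L) * (Real.exp (θ * t / 3) * Real.exp (-(Γ * L)) * Real.exp (-(b * L)))
        = D' * s * Real.exp (θ * t / 3) * Real.exp (-(Γ * L)) * (L * Real.exp (-(b * L))) := by
          ring
      _ ≤ D' * s * Real.exp (θ * t / 3) * Real.exp (-(Γ * L)) * (1 / b) := by gcongr
      _ = D' * s * Real.exp (θ * t / 3) / b * Real.exp (-(Γ * L)) := by ring

end Copoly
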