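import Pool.Agent.Work.MP_fd21e9_pr.MomGood

/-! # Green function bound in the absence of good windows -/

open MeasureTheory ProbabilityTheory
open scoped ENNReal

namespace Copoly

variable {E : Type*} [MeasurableSpace E] {ν : Measure E} [IsProbabilityMeasure ν]

namespace S4

/-- No good window of the residue class before the index `j`. -/
def noCl (κ : ℕ → (ℕ → E) → ℝ) (l : ℕ) (y : ℝ) (ρ j : ℕ) : Set (ℕ → E) :=
  {x | ∀ i, i < j → Z κ l (sh (ρ + i * l) x) < y}

theorem measurableSet_noCl {κ : ℕ → (ℕ → E) → ℝ} (h : ∀ n, Measurable (κ n)) (l : ℕ) (y : ℝ)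
    (ρ j : ℕ) : MeasurableSet (noCl κ l y ρ j) := by
  have e : noCl κ l y ρ j = ⋂ i : ℕ, ⋂ _ : i < j, {x | Z κ l (sh (ρ + i * l) x) < y} := by
    ext x
    simp [noCl]
  rw [e]
  exact MeasurableSet.iInter fun i => MeasurableSet.iInter fun _ =>
    measurableSet_lt ((Z_meas h l).comp (measurable_sh _)) measurable_const

omit [MeasurableSpace E] in
theorem noCl_dep {κ : ℕ → (ℕ → E) → ℝ} (h : ∀ n, Dep n (κ n)) (l : ℕ) (y : ℝ)
    (ρ j : ℕ) : Dep (ρ + j * l) (fun x => x ∈ noCl κ l y ρ j) := by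
  intro x x' hxx
  have key : ∀ i, i < j → Z κ l (sh (ρ + i * l) x) = Z κ l (sh (ρ + i * l) x') := by
    intro i hi
    apply Z_dep h l
    intro k hk
    simp only [sh]
    apply hxx
    have : (i + 1) * l ≤ j * l := Nat.mul_le_mul_right l hi
    have h2 : (i + 1) * l = i * l + l := by ring
    omega
  apply propext
  constructor
  · intro hx i hi
    rw [← key i hi]
    exact hx i hi
  · intro hx i hi
    rw [key i hi]
    exact hx i hi

/-- Weight before the first good window. -/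
noncomputable def ff (κ : ℕ → (ℕ → E) → ℝ) (l : ℕ) (y θ : ℝ) (ρ j : ℕ) (x : ℕ → E) : ℝ≥0∞ :=
  (noCl κ l y ρ j).indicator (fun x => ENNReal.ofReal (Z κ (ρ + j * l) x ^ θ)) x

/-- Weight of the good window. -/
noncomputable def gg (κ : ℕ → (ℕ → E) → ℝ) (l : ℕ) (y θ : ℝ) (x : ℕ → E) : ℝ≥0∞ :=
  {x | y ≤ Z κ l x}.indicator (fun x => ENNReal.ofReal (Z κ l x ^ θ)) x

/-- Weight after the good window. -/
noncomputable def hh (κ : ℕ → (ℕ → E) → ℝ) (θ : ℝ) (n : ℕ) (x : ℕ → E) : ℝ≥0∞ :=
  ENNReal.ofReal (Z κ n x ^ θ)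

theorem ff_meas {κ : ℕ → (ℕ → E) → ℝ} (hκ : IsKernel κ) (l : ℕ) (y θ : ℝ) (ρ j : ℕ) :
    Measurable (ff κ l y θ ρ j) :=
  Measurable.indicator (ENNReal.measurable_ofReal.comp ((Z_meas hκ.meas _).pow_const θ))
    (measurableSet_noCl hκ.meas l y ρ j)

theorem measurableSet_good {κ : ℕ → (ℕ → E) → ℝ} (hκ : IsKernel κ) (l : ℕ) (y : ℝ) :
    MeasurableSet {x : ℕ → E | y ≤ Z κ l x} :=
  measurableSet_le measurable_const (Z_meas hκ.meas l)

theorem gg_meas {κ : ℕ → (ℕ → E) → ℝ} (hκ : IsKernel κ) (l : ℕ) (y θ : ℝ) :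
    Measurable (gg κ l y θ) :=
  Measurable.indicator (ENNReal.measurable_ofReal.comp ((Z_meas hκ.meas _).pow_const θ))
    (measurableSet_good hκ l y)

theorem hh_meas {κ : ℕ → (ℕ → E) → ℝ} (hκ : IsKernel κ) (θ : ℝ) (n : ℕ) :
    Measurable (hh κ θ n) :=
  ENNReal.measurable_ofReal.comp ((Z_meas hκ.meas _).pow_const θ)

omit [MeasurableSpace E] in
theorem ff_dep {κ : ℕ → (ℕ → E) → ℝ} (h : ∀ n, Dep n (κ n)) (l : ℕ) (y θ : ℝ) (ρ j : ℕ) :
    Dep (ρ + j * l) (ff κ l y θ ρ j) := by
  intro x x' hxx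
  have h1 : (x ∈ noCl κ l y ρ j) = (x' ∈ noCl κ l y ρ j) := noCl_dep h l y ρ j x x' hxx
  have h2 := Z_dep h (ρ + j * l) x x' hxx
  simp only [ff, Set.indicator]
  rw [h2]
  by_cases hx : x ∈ noCl κ l y ρ j
  · have hx' : x' ∈ noCl κ l y ρ j := by rw [← h1]; exact hx
    rw [if_pos hx, if_pos hx']
  · have hx' : x' ∉ noCl κ l y ρ j := by
      intro hc
      apply hx
      rw [h1]; exact hc
    rw [if_neg hx, if_neg hx']

omit [MeasurableSpace E] in
theorem gg_dep {κ : ℕ → (ℕ → E) → ℝ} (h : ∀ n, Dep n (κ n)) (l : ℕ) (y θ : ℝ) :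
    Dep l (gg κ l y θ) := by
  intro x x' hxx
  have h2 := Z_dep h l x x' hxx
  simp only [gg, Set.indicator, Set.mem_ofPred_eq]
  rw [h2]

omit [MeasurableSpace E] in
/-- Pointwise decomposition over the first good window. -/
theorem pointwise {κ : ℕ → (ℕ → E) → ℝ} (h : ∀ n x, 0 ≤ κ n x) {θ : ℝ} (hθ : 0 < θ)
    (l : ℕ) (y : ℝ) (ρ J n : ℕ) (x : ℕ → E) :
    ∑ j ∈ (Finset.range J).filter (fun j => ρ + j * l + l ≤ n),
      ff κ l y θ ρ j x * gg κ l y θ (sh (ρ + j * l) x) *
        hh κ θ (n - (ρ + j * l + l)) (sh (ρ + j * l + l) x) ≤ ENNReal.ofReal (Z κ n x ^ θ) := by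
  classical
  by_cases hex : ∃ j₀ ∈ (Finset.range J).filter (fun j => ρ + j * l + l ≤ n),
      x ∈ noCl κ l y ρ j₀ ∧ y ≤ Z κ l (sh (ρ + j₀ * l) x)
  · obtain ⟨j₀, hj₀, hx1, hx2⟩ := hex
    rw [Finset.sum_eq_single j₀]
    · rw [Finset.mem_filter] at hj₀
      have e1 : ff κ l y θ ρ j₀ x = ENNReal.ofReal (Z κ (ρ + j₀ * l) x ^ θ) := by
        simp only [ff]; rw [Set.indicator_of_mem hx1]
      have e2 : gg κ l y θ (sh (ρ + j₀ * l) x) =
          ENNReal.ofReal (Z κ l (sh (ρ + j₀ * l) x) ^ θ) := by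
        simp only [gg]; rw [Set.indicator_of_mem]; exact hx2
      rw [e1, e2, hh, ← ENNReal.ofReal_mul (Real.rpow_nonneg (Z_nonneg h _ _) _),
        ← ENNReal.ofReal_mul (mul_nonneg (Real.rpow_nonneg (Z_nonneg h _ _) _)
          (Real.rpow_nonneg (Z_nonneg h _ _) _)),
        ← Real.mul_rpow (Z_nonneg h _ _) (Z_nonneg h _ _),
        ← Real.mul_rpow (mul_nonneg (Z_nonneg h _ _) (Z_nonneg h _ _)) (Z_nonneg h _ _)]
      apply ENNReal.ofReal_le_ofReal
      apply Real.rpow_le_rpow _ _ hθ.le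
      · exact mul_nonneg (mul_nonneg (Z_nonneg h _ _) (Z_nonneg h _ _)) (Z_nonneg h _ _)
      · have s1 := Z_supermul h (ρ + j₀ * l) l x
        have s2 := Z_supermul h (ρ + j₀ * l + l) (n - (ρ + j₀ * l + l)) x
        have e3 : ρ + j₀ * l + l + (n - (ρ + j₀ * l + l)) = n := by omega
        rw [e3] at s2
        exact le_trans (mul_le_mul_of_nonneg_right s1 (Z_nonneg h _ _)) s2
    · intro j _ hjne
      rcases lt_or_gt_of_ne hjne with hlt | hgt
      · have : gg κ l y θ (sh (ρ + j * l) x) = 0 := by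
          simp only [gg]
          rw [Set.indicator_of_notMem]
          simp only [Set.mem_ofPred_eq, not_le]
          exact hx1 j hlt
        rw [this]; simp
      · have : ff κ l y θ ρ j x = 0 := by
          simp only [ff]
          rw [Set.indicator_of_notMem]
          intro hc
          exact absurd (hc j₀ hgt) (not_lt.mpr hx2)
        rw [this]; simp
    · intro hne
      exact absurd hj₀ hne
  · push Not at hex
    rw [Finset.sum_eq_zero]
    · exact bot_le
    · intro j hj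
      by_cases hx1 : x ∈ noCl κ l y ρ j
      · have hlt := hex j hj hx1
        have : gg κ l y θ (sh (ρ + j * l) x) = 0 := by
          simp only [gg]
          rw [Set.indicator_of_notMem]
          simp only [Set.mem_ofPred_eq, not_le]
          exact hlt
        rw [this]; simp
      · have : ff κ l y θ ρ j x = 0 := by
          simp only [ff]
          rw [Set.indicator_of_notMem hx1]
        rw [this]; simp

/-- Integrated decomposition. -/
theorem integrated {κ : ℕ → (ℕ → E) → ℝ} (hκ : IsKernel κ) {θ : ℝ} (hθ : 0 < θ)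
    (l : ℕ) (y : ℝ) (ρ J n : ℕ) :
    ∑ j ∈ (Finset.range J).filter (fun j => ρ + j * l + l ≤ n),
      (∫⁻ x, ff κ l y θ ρ j x ∂(mu ν)) * (∫⁻ x, gg κ l y θ x ∂(mu ν)) *
        mom ν θ (Z κ (n - (ρ + j * l + l))) ≤ mom ν θ (Z κ n) := by
  have h1 : ∀ j, (∫⁻ x, ff κ l y θ ρ j x ∂(mu ν)) * (∫⁻ x, gg κ l y θ x ∂(mu ν)) *
        mom ν θ (Z κ (n - (ρ + j * l + l))) =
      ∫⁻ x, ff κ l y θ ρ j x * gg κ l y θ (sh (ρ + j * l) x) *
        hh κ θ (n - (ρ + j * l + l)) (sh (ρ + j * l + l) x) ∂(mu ν) := by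
    intro j
    rw [lintegral_mul_sh3 (ff_meas hκ l y θ ρ j) (gg_meas hκ l y θ) (hh_meas hκ θ _)
      (ff_dep hκ.dep l y θ ρ j) (gg_dep hκ.dep l y θ)]
    rfl
  simp only [h1]
  rw [← lintegral_finsetSum]
  · exact lintegral_mono fun x => pointwise hκ.nonneg hθ l y ρ J n x
  · intro j _
    exact (((ff_meas hκ l y θ ρ j).mul ((gg_meas hκ l y θ).comp (measurable_sh _))).mul
      ((hh_meas hκ θ _).comp (measurable_sh _)))

/-- An abstract renewal type inequality. -/
theorem renewal {z : ℕ → ℝ≥0∞} (hz0 : z 0 = 1) (hz1 : ∀ n, z n ≤ 1) {J : ℕ} {d : ℕ → ℕ}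
    {D : ℕ} (hd : ∀ j, j < J → d j ≤ D) {w : ℕ → ℝ≥0∞}
    (h : ∀ n, ∑ j ∈ (Finset.range J).filter (fun j => d j ≤ n), w j * z (n - d j) ≤ z n) :
    ∑ j ∈ Finset.range J, w j ≤ 1 := by
  classical
  set A := ∑ j ∈ Finset.range J, w j with hA
  set S : ℕ → ℝ≥0∞ := fun N => ∑ n ∈ Finset.range (N + 1), z n with hS
  have step : ∀ N, A * S N ≤ S (N + D) := by
    intro N
    calc A * S N = ∑ j ∈ Finset.range J, w j * S N := by rw [hA, Finset.sum_mul]
      _ ≤ ∑ j ∈ Finset.range J, ∑ n ∈ Finset.range (N + D + 1),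
            (if d j ≤ n then w j * z (n - d j) else 0) := by
          apply Finset.sum_le_sum
          intro j hj
          rw [Finset.mem_range] at hj
          have hdj := hd j hj
          calc w j * S N = ∑ n ∈ Finset.range (N + 1), w j * z n := by
                rw [hS, Finset.mul_sum]
            _ = ∑ n ∈ (Finset.range (N + 1)).image (fun n => n + d j),
                  (if d j ≤ n then w j * z (n - d j) else 0) := by
                rw [Finset.sum_image]
                · apply Finset.sum_congr rfl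
                  intro n _
                  simp
                · intro a _ b _ hab
                  simpa using hab
            _ ≤ _ := by
                apply Finset.sum_le_sum_of_subset
                intro n hn
                rw [Finset.mem_image] at hn
                obtain ⟨m, hm, rfl⟩ := hn
                rw [Finset.mem_range] at hm ⊢
                omega
      _ = ∑ n ∈ Finset.range (N + D + 1),
            ∑ j ∈ (Finset.range J).filter (fun j => d j ≤ n), w j * z (n - d j) := by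
          rw [Finset.sum_comm]
          apply Finset.sum_congr rfl
          intro n _
          rw [Finset.sum_filter]
      _ ≤ S (N + D) := Finset.sum_le_sum fun n _ => h n
  have hpow : ∀ k : ℕ, A ^ k ≤ S (k * D) := by
    intro k
    induction k with
    | zero => simp [hS, hz0]
    | succ k ih =>
      calc A ^ (k + 1) = A * A ^ k := by ring
        _ ≤ A * S (k * D) := by gcongr
        _ ≤ S (k * D + D) := step _
        _ = S ((k + 1) * D) := by congr 1; ring
  have hlin : ∀ k : ℕ, A ^ k ≤ ((k * D + 1 : ℕ) : ℝ≥0∞) := by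
    intro k
    refine le_trans (hpow k) ?_
    calc S (k * D) ≤ ∑ n ∈ Finset.range (k * D + 1), (1 : ℝ≥0∞) :=
          Finset.sum_le_sum fun n _ => hz1 n
      _ = _ := by simp
  by_contra hcon
  rw [not_le] at hcon
  have hAfin : A ≠ ∞ := by
    have := hlin 1
    rw [pow_one] at this
    exact ne_top_of_le_ne_top (ENNReal.natCast_ne_top _) this
  set a := A.toReal with ha
  have ha1 : 1 < a := by
    rw [ha]
    have := (ENNReal.toReal_lt_toReal ENNReal.one_ne_top hAfin).mpr hcon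
    simpa using this
  have hreal : ∀ k : ℕ, a ^ k ≤ (k : ℝ) * D + 1 := by
    intro k
    have h1 := ENNReal.toReal_mono (ENNReal.natCast_ne_top _) (hlin k)
    rw [ENNReal.toReal_pow, ENNReal.toReal_natCast] at h1
    push_cast at h1
    exact h1
  have hlim : Filter.Tendsto (fun k : ℕ => ((k : ℝ) * D + 1) / a ^ k) Filter.atTop (nhds 0) := by
    have t1 : Filter.Tendsto (fun k : ℕ => (k : ℝ) / a ^ k) Filter.atTop (nhds 0) := by
      have := tendsto_pow_const_div_const_pow_of_one_lt 1 ha1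
      simpa using this
    have t2 : Filter.Tendsto (fun k : ℕ => (1 : ℝ) / a ^ k) Filter.atTop (nhds 0) := by
      have := tendsto_pow_const_div_const_pow_of_one_lt 0 ha1
      simpa using this
    have t3 := (t1.mul_const (D : ℝ)).add t2
    simp only [zero_mul, add_zero] at t3
    refine t3.congr fun k => ?_
    ring
  have hge : ∀ k : ℕ, (1 : ℝ) ≤ ((k : ℝ) * D + 1) / a ^ k := by
    intro k
    rw [le_div_iff₀ (pow_pos (by linarith) k), one_mul]
    exact hreal k
  have := ge_of_tendsto' hlim hge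
  linarith

end S4

open S4 in
/-- First good window in one residue class modulo `l`. -/
theorem green_class {κ : ℕ → (ℕ → E) → ℝ} (hκ : IsKernel κ) {θ : ℝ} (hθ : 0 < θ)
    (hgood : ∀ n, mom ν θ (Z κ n) ≤ 1) {l : ℕ} (hl : 1 ≤ l) (y : ℝ) (ρ : ℕ) (hρ : ρ < l) (J : ℕ) :
    (∑ j ∈ Finset.range J, vv ν κ κ l y θ (ρ + j * l)) *
      (∫⁻ x in {x | y ≤ Z κ l x}, ENNReal.ofReal (Z κ l x ^ θ) ∂(mu ν)) ≤ 1 := by
  have hβ : (∫⁻ x in {x | y ≤ Z κ l x}, ENNReal.ofReal (Z κ l x ^ θ) ∂(mu ν)) =
      ∫⁻ x, gg κ l y θ x ∂(mu ν) := by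
    rw [← lintegral_indicator (measurableSet_good hκ l y)]
    rfl
  rw [hβ, Finset.sum_mul]
  have hle : ∀ j, vv ν κ κ l y θ (ρ + j * l) ≤ ∫⁻ x, ff κ l y θ ρ j x ∂(mu ν) := by
    intro j
    rw [vv, ← lintegral_indicator (measurableSet_noWin hκ.meas l y _)]
    apply lintegral_mono
    intro x
    simp only [ff]
    apply Set.indicator_le_indicator_of_subset
    · intro x hx i hi
      apply hx
      have : (i + 1) * l ≤ j * l := Nat.mul_le_mul_right l hi
      have h2 : (i + 1) * l = i * l + l := by ring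
      omega
    · intro x
      exact bot_le
  refine le_trans (Finset.sum_le_sum fun j _ => mul_le_mul_left (hle j) _) ?_
  refine renewal (z := fun n => mom ν θ (Z κ n)) (d := fun j => ρ + j * l + l)
    (D := ρ + J * l + l) ?_ ?_ ?_ ?_
  · simp only [mom, Z_zero, Real.one_rpow, ENNReal.ofReal_one]
    simp
  · exact hgood
  · intro j hj
    have : j * l ≤ J * l := Nat.mul_le_mul_right l hj.le
    omega
  · intro n
    exact integrated hκ hθ l y ρ J n

theorem green_bound {κ : ℕ → (ℕ → E) → ℝ} (hκ : IsKernel κ) {θ : ℝ} (hθ : 0 < θ)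
    (hgood : ∀ n, mom ν θ (Z κ n) ≤ 1) {l : ℕ} (hl : 1 ≤ l) (y : ℝ) (M : ℕ) :
    (∑ m ∈ Finset.range M, vv ν κ κ l y θ m) *
      (∫⁻ x in {x | y ≤ Z κ l x}, ENNReal.ofReal (Z κ l x ^ θ) ∂(mu ν)) ≤ l := by
  classical
  have h1 : ∑ m ∈ Finset.range M, vv ν κ κ l y θ m ≤
      ∑ ρ ∈ Finset.range l, ∑ j ∈ Finset.range M, vv ν κ κ l y θ (ρ + j * l) := by
    rw [← Finset.sum_product']
    calc ∑ m ∈ Finset.range M, vv ν κ κ l y θ m
        = ∑ p ∈ (Finset.range M).image (fun m => (m % l, m / l)),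
            vv ν κ κ l y θ (p.1 + p.2 * l) := by
          rw [Finset.sum_image]
          · apply Finset.sum_congr rfl
            intro m _
            congr 1
            exact (Nat.mod_add_div' m l).symm
          · intro a _ b _ hab
            simp only [Prod.mk.injEq] at hab
            rw [← Nat.mod_add_div' a l, ← Nat.mod_add_div' b l, hab.1, hab.2]
      _ ≤ _ := by
          apply Finset.sum_le_sum_of_subset
          intro p hp
          rw [Finset.mem_image] at hp
          obtain ⟨m, hm, rfl⟩ := hp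
          rw [Finset.mem_range] at hm
          rw [Finset.mem_product, Finset.mem_range, Finset.mem_range]
          exact ⟨Nat.mod_lt _ (by omega), lt_of_le_of_lt (Nat.div_le_self _ _) hm⟩
  refine le_trans (mul_le_mul_left h1 _) ?_
  rw [Finset.sum_mul]
  calc _ ≤ ∑ ρ ∈ Finset.range l, (1 : ℝ≥0∞) := by
        apply Finset.sum_le_sum
        intro ρ hρ
        rw [Finset.mem_range] at hρ
        exact green_class hκ hθ hgood hl y ρ hρ M
    _ = l := by simp

end Copoly
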