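import Pool.Agent.Work.MP_fd21e9_pr.Prob

/-! # Moments: supermultiplicativity, tails, and the exponent `θ` -/

open MeasureTheory ProbabilityTheory
open scoped ENNReal

namespace Copoly

variable {E : Type*} [MeasurableSpace E] {ν : Measure E} [IsProbabilityMeasure ν]

private theorem mg_meas {κ : ℕ → (ℕ → E) → ℝ} (hκ : IsKernel κ) (θ : ℝ) (n : ℕ) :
    Measurable (fun x => ENNReal.ofReal (Z κ n x ^ θ)) :=
  ((Z_meas hκ.meas n).pow_const θ).ennreal_ofReal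

theorem mom_supermul {κ : ℕ → (ℕ → E) → ℝ} (hκ : IsKernel κ) {θ : ℝ} (hθ : 0 < θ) (m n : ℕ) :
    mom ν θ (Z κ m) * mom ν θ (Z κ n) ≤ mom ν θ (Z κ (m + n)) := by
  have hd : Dep m (fun x => ENNReal.ofReal (Z κ m x ^ θ)) := by
    intro x y hxy
    simp only
    rw [Z_dep hκ.dep m x y hxy]
  have h := lintegral_mul_sh (ν := ν) (m := m) (mg_meas hκ θ m) (mg_meas hκ θ n) hd
  unfold mom
  rw [← h]
  refine lintegral_mono (fun x => ?_)
  have h1 := Z_nonneg hκ.nonneg m x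
  have h2 := Z_nonneg hκ.nonneg n (sh m x)
  simp only
  rw [← ENNReal.ofReal_mul (Real.rpow_nonneg h1 θ), ← Real.mul_rpow h1 h2]
  exact ENNReal.ofReal_le_ofReal
    (Real.rpow_le_rpow (mul_nonneg h1 h2) (Z_supermul hκ.nonneg m n x) hθ.le)

private theorem mom_Z_zero {κ : ℕ → (ℕ → E) → ℝ} (θ : ℝ) : mom ν θ (Z κ 0) = 1 := by
  unfold mom
  simp [Z_zero]

theorem mom_pow {κ : ℕ → (ℕ → E) → ℝ} (hκ : IsKernel κ) {θ : ℝ} (hθ : 0 < θ) (m k : ℕ) :
    mom ν θ (Z κ m) ^ k ≤ mom ν θ (Z κ (k * m)) := by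
  induction k with
  | zero => simp [mom_Z_zero]
  | succ k ih =>
    rw [pow_succ, Nat.succ_mul]
    exact le_trans (mul_le_mul_left ih _) (mom_supermul hκ hθ (k * m) m)

private theorem pow_lin_false {a C : ℝ} {n k₀ : ℕ} (ha : 1 < a)
    (h : ∀ k : ℕ, k₀ ≤ k → a ^ k ≤ C * ((k * n : ℕ) + 1)) : False := by
  have h1 : Filter.Tendsto (fun k : ℕ => (k : ℝ) ^ 1 / a ^ k) Filter.atTop (nhds 0) :=
    tendsto_pow_const_div_const_pow_of_one_lt 1 ha
  have h2 : Filter.Tendsto (fun k : ℕ => (k : ℝ) ^ 0 / a ^ k) Filter.atTop (nhds 0) :=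
    tendsto_pow_const_div_const_pow_of_one_lt 0 ha
  have h3 : Filter.Tendsto (fun k : ℕ => C * n * ((k : ℝ) ^ 1 / a ^ k) + C * ((k : ℝ) ^ 0 / a ^ k))
      Filter.atTop (nhds 0) := by
    have := (h1.const_mul (C * n)).add (h2.const_mul C)
    simpa using this
  have h4 : ∀ᶠ k : ℕ in Filter.atTop,
      C * n * ((k : ℝ) ^ 1 / a ^ k) + C * ((k : ℝ) ^ 0 / a ^ k) < 1 :=
    h3.eventually (gt_mem_nhds one_pos)
  obtain ⟨k, hk1, hk2⟩ := (h4.and (Filter.eventually_ge_atTop k₀)).exists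
  have hpos : 0 < a ^ k := pow_pos (by linarith) k
  have h5 := h k hk2
  have h6 : C * n * ((k : ℝ) ^ 1 / a ^ k) + C * ((k : ℝ) ^ 0 / a ^ k)
      = (C * ((k * n : ℕ) + 1)) / a ^ k := by
    push_cast
    field_simp
  rw [h6, div_lt_one hpos] at hk1
  linarith

/-- If the moments grow at most linearly they are at most one. -/
theorem good_of_linear {κ : ℕ → (ℕ → E) → ℝ} (hκ : IsKernel κ) {θ : ℝ} (hθ : 0 < θ)
    {C : ℝ} {n₀ : ℕ} (h : ∀ n, n₀ ≤ n → mom ν θ (Z κ n) ≤ ENNReal.ofReal (C * (n + 1))) (n : ℕ) :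
    mom ν θ (Z κ n) ≤ 1 := by
  rcases Nat.eq_zero_or_pos n with rfl | hn
  · rw [mom_Z_zero]
  by_contra hcon
  rw [not_le] at hcon
  have hk : ∀ k : ℕ, n₀ ≤ k → mom ν θ (Z κ n) ^ k ≤ ENNReal.ofReal (C * ((k * n : ℕ) + 1)) :=
    fun k hk => le_trans (mom_pow hκ hθ n k) (h (k * n) (le_trans hk (Nat.le_mul_of_pos_right k hn)))
  have hfin : mom ν θ (Z κ n) ≠ ⊤ := by
    intro htop
    have h1 := hk (n₀ + 1) (Nat.le_succ n₀)
    rw [htop, ENNReal.top_pow (Nat.succ_ne_zero n₀)] at h1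
    exact absurd h1 (not_le.mpr ENNReal.ofReal_lt_top)
  set a := (mom ν θ (Z κ n)).toReal with hadef
  have ha : mom ν θ (Z κ n) = ENNReal.ofReal a := (ENNReal.ofReal_toReal hfin).symm
  have ha1 : 1 < a := by
    rw [ha] at hcon
    have : ENNReal.ofReal 1 < ENNReal.ofReal a := by simpa using hcon
    exact (ENNReal.ofReal_lt_ofReal_iff_of_nonneg zero_le_one).mp this
  have ha0 : 0 ≤ a := by linarith
  refine pow_lin_false (a := a) (C := C) (n := n) (k₀ := n₀) ha1 (fun k hk' => ?_)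
  have h2 := hk k hk'
  rw [ha, ← ENNReal.ofReal_pow ha0] at h2
  by_contra hlt
  rw [not_le] at hlt
  have hak : 0 < a ^ k := pow_pos (by linarith) k
  exact absurd h2 (not_le.mpr ((ENNReal.ofReal_lt_ofReal_iff hak).mpr hlt))

/-- Exponential tails of `log F` give moments. `C` depends only on the two exponents. -/
theorem mom_of_tail {θ θ' : ℝ} (hθ : 0 < θ) (hθ' : θ < θ') :
    ∃ C : ℝ, 0 < C ∧ ∀ (A : ℝ), 0 ≤ A → ∀ F : (ℕ → E) → ℝ, Measurable F → (∀ x, 0 ≤ F x) →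
      (∀ k : ℕ, 1 ≤ k → (mu ν) {x | Real.exp k ≤ F x} ≤ ENNReal.ofReal (A * Real.exp (-θ' * k))) →
      mom ν θ F ≤ ENNReal.ofReal (C * (1 + A)) := by
  set q : ℝ := Real.exp (-(θ' - θ)) with hq
  have hq0 : 0 < q := Real.exp_pos _
  have hq1 : q < 1 := by
    rw [hq, Real.exp_lt_one_iff]
    linarith
  have hq2 : 0 < (1 - q)⁻¹ := inv_pos.mpr (by linarith)
  refine ⟨Real.exp θ * (1 + (1 - q)⁻¹), mul_pos (Real.exp_pos _) (by linarith), ?_⟩
  intro A hA F hF hF0 htail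
  -- pointwise bound
  have hpt : ∀ x, ENNReal.ofReal (F x ^ θ) ≤ ENNReal.ofReal (Real.exp θ) +
      ∑' k : ℕ, Set.indicator {x | Real.exp ((k + 1 : ℕ) : ℝ) ≤ F x}
        (fun _ => ENNReal.ofReal (Real.exp (θ * ((k : ℝ) + 2)))) x := by
    intro x
    rcases lt_or_ge (F x) (Real.exp 1) with hlt | hge
    · refine le_trans ?_ le_self_add
      apply ENNReal.ofReal_le_ofReal
      calc F x ^ θ ≤ (Real.exp 1) ^ θ := Real.rpow_le_rpow (hF0 x) hlt.le hθ.le
        _ = Real.exp θ := by rw [← Real.exp_mul, one_mul]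
    · have hFpos : 0 < F x := lt_of_lt_of_le (Real.exp_pos 1) hge
      have hlog : 1 ≤ Real.log (F x) := by
        rw [Real.le_log_iff_exp_le hFpos]; exact hge
      obtain ⟨k, hk⟩ : ∃ k : ℕ, ⌊Real.log (F x)⌋₊ = k + 1 := by
        have h1 : 1 ≤ ⌊Real.log (F x)⌋₊ := Nat.le_floor (by exact_mod_cast hlog)
        exact ⟨⌊Real.log (F x)⌋₊ - 1, by omega⟩
      refine le_trans ?_ le_add_self
      refine le_trans ?_ (ENNReal.le_tsum k)
      have hmem : x ∈ {x | Real.exp ((k + 1 : ℕ) : ℝ) ≤ F x} := by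
        change Real.exp ((k + 1 : ℕ) : ℝ) ≤ F x
        rw [← Real.le_log_iff_exp_le hFpos, ← hk]
        exact Nat.floor_le (by linarith)
      rw [Set.indicator_of_mem hmem]
      apply ENNReal.ofReal_le_ofReal
      have h2 : Real.log (F x) < (k : ℝ) + 2 := by
        have := Nat.lt_floor_add_one (Real.log (F x))
        rw [hk] at this
        push_cast at this
        linarith
      rw [Real.rpow_def_of_pos hFpos, Real.exp_le_exp]
      nlinarith
  have hms : ∀ k : ℕ, MeasurableSet {x | Real.exp ((k + 1 : ℕ) : ℝ) ≤ F x} :=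
    fun k => measurableSet_le measurable_const hF
  have hint : mom ν θ F ≤ ENNReal.ofReal (Real.exp θ) +
      ∑' k : ℕ, ENNReal.ofReal (Real.exp (θ * ((k : ℝ) + 2))) *
        (mu ν) {x | Real.exp ((k + 1 : ℕ) : ℝ) ≤ F x} := by
    unfold mom
    refine le_trans (lintegral_mono hpt) ?_
    rw [lintegral_add_left measurable_const, lintegral_const, measure_univ, mul_one]
    refine add_le_add le_rfl ?_
    rw [lintegral_tsum (fun k => (measurable_const.indicator (hms k)).aemeasurable)]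
    refine ENNReal.tsum_le_tsum (fun k => ?_)
    rw [lintegral_indicator_const (hms k)]
  refine le_trans hint ?_
  have hsum : ∑' k : ℕ, ENNReal.ofReal (Real.exp (θ * ((k : ℝ) + 2))) *
        (mu ν) {x | Real.exp ((k + 1 : ℕ) : ℝ) ≤ F x}
      ≤ ENNReal.ofReal (A * Real.exp θ * (1 - q)⁻¹) := by
    have hterm : ∀ k : ℕ, ENNReal.ofReal (Real.exp (θ * ((k : ℝ) + 2))) *
        (mu ν) {x | Real.exp ((k + 1 : ℕ) : ℝ) ≤ F x}
        ≤ ENNReal.ofReal (A * Real.exp θ * q ^ k) := by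
      intro k
      refine le_trans (mul_le_mul_right (htail (k + 1) (Nat.succ_le_succ (Nat.zero_le k))) _) ?_
      rw [← ENNReal.ofReal_mul (Real.exp_pos _).le]
      apply ENNReal.ofReal_le_ofReal
      have h3 : Real.exp (θ * ((k : ℝ) + 2)) * (A * Real.exp (-θ' * ((k + 1 : ℕ) : ℝ)))
          = A * (Real.exp θ * q ^ (k + 1)) := by
        rw [hq, ← Real.exp_nat_mul, ← Real.exp_add]
        rw [mul_left_comm, ← Real.exp_add]
        congr 2
        push_cast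
        ring
      rw [h3, pow_succ]
      have h4 : q ^ k * q ≤ q ^ k := by
        have := pow_pos hq0 k
        nlinarith
      calc A * (Real.exp θ * (q ^ k * q)) ≤ A * (Real.exp θ * q ^ k) :=
            mul_le_mul_of_nonneg_left (mul_le_mul_of_nonneg_left h4 (Real.exp_pos _).le) hA
        _ = A * Real.exp θ * q ^ k := by ring
    refine le_trans (ENNReal.tsum_le_tsum hterm) ?_
    have hsm : Summable (fun k : ℕ => A * Real.exp θ * q ^ k) :=
      (summable_geometric_of_lt_one hq0.le hq1).mul_left _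
    rw [← ENNReal.ofReal_tsum_of_nonneg
      (fun k => mul_nonneg (mul_nonneg hA (Real.exp_pos _).le) (pow_pos hq0 k).le) hsm]
    apply ENNReal.ofReal_le_ofReal
    rw [tsum_mul_left, tsum_geometric_of_lt_one hq0.le hq1]
  refine le_trans (add_le_add le_rfl hsum) ?_
  rw [← ENNReal.ofReal_add (Real.exp_pos _).le
    (mul_nonneg (mul_nonneg hA (Real.exp_pos _).le) hq2.le)]
  apply ENNReal.ofReal_le_ofReal
  have h5 : 0 ≤ Real.exp θ * (1 - q)⁻¹ := mul_nonneg (Real.exp_pos _).le hq2.le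
  have h6 : 0 ≤ Real.exp θ * A := mul_nonneg (Real.exp_pos _).le hA
  nlinarith

/-- Monotonicity of goodness in the exponent. -/
theorem good_mono {κ : ℕ → (ℕ → E) → ℝ} (hκ : IsKernel κ) {θ θ₁ : ℝ} (hθ : 0 < θ)
    (hθ₁ : θ ≤ θ₁) (h : ∀ n, mom ν θ₁ (Z κ n) ≤ 1) (n : ℕ) : mom ν θ (Z κ n) ≤ 1 := by
  refine good_of_linear hκ hθ (C := 2) (n₀ := 0) (fun m _ => ?_) n
  have h1 : mom ν θ (Z κ m) ≤ 1 + mom ν θ₁ (Z κ m) := by
    unfold mom
    have h2 : ∫⁻ x, ENNReal.ofReal (Z κ m x ^ θ) ∂(mu ν) ≤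
        ∫⁻ x, (1 + ENNReal.ofReal (Z κ m x ^ θ₁)) ∂(mu ν) := by
      refine lintegral_mono (fun x => ?_)
      have hz := Z_nonneg hκ.nonneg m x
      rcases le_or_gt (Z κ m x) 1 with hle | hgt
      · refine le_trans ?_ le_self_add
        rw [← ENNReal.ofReal_one]
        exact ENNReal.ofReal_le_ofReal (Real.rpow_le_one hz hle hθ.le)
      · refine le_trans ?_ le_add_self
        exact ENNReal.ofReal_le_ofReal (Real.rpow_le_rpow_of_exponent_le hgt.le hθ₁)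
    refine le_trans h2 ?_
    rw [lintegral_add_left measurable_const, lintegral_const, measure_univ, mul_one]
  refine le_trans h1 (le_trans (add_le_add le_rfl (h m)) ?_)
  have h3 : (1 : ℝ≥0∞) + 1 = ENNReal.ofReal 2 := by
    rw [ENNReal.ofReal_ofNat]; norm_num
  rw [h3]
  apply ENNReal.ofReal_le_ofReal
  have : (0 : ℝ) ≤ m := Nat.cast_nonneg m
  linarith

/-- If `θ''` is not good then for `θ' > θ''` some block has a heavy tail of exponent `θ'`. -/
theorem heavy_pair {κ : ℕ → (ℕ → E) → ℝ} (hκ : IsKernel κ) {θ'' θ' : ℝ} (h0 : 0 < θ'')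
    (h1 : θ'' < θ') (hbad : ∃ n, 1 < mom ν θ'' (Z κ n)) :
    ∃ n₁ : ℕ, 1 ≤ n₁ ∧ ∃ t₁ : ℝ, 0 < t₁ ∧
      ENNReal.ofReal (Real.exp (-θ' * t₁)) ≤ (mu ν) {x | Real.exp t₁ ≤ Z κ n₁ x} := by
  by_contra hcon
  push Not at hcon
  obtain ⟨C, hC, hCt⟩ := mom_of_tail (E := E) (ν := ν) h0 h1
  obtain ⟨n, hn⟩ := hbad
  refine absurd hn (not_lt.mpr ?_)
  refine good_of_linear hκ h0 (C := 2 * C) (n₀ := 1) (fun m hm => ?_) n
  refine le_trans (hCt 1 zero_le_one (Z κ m) (Z_meas hκ.meas m) (Z_nonneg hκ.nonneg m) ?_) ?_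
  · intro k hk
    rw [one_mul]
    exact (hcon m hm k (by exact_mod_cast hk)).le
  · apply ENNReal.ofReal_le_ofReal
    have : (0 : ℝ) ≤ m := Nat.cast_nonneg m
    nlinarith

/-- Iterating the heavy block. -/
theorem heavy_iter {κ : ℕ → (ℕ → E) → ℝ} (hκ : IsKernel κ) {θ' t₁ : ℝ} {n₁ : ℕ}
    (h : ENNReal.ofReal (Real.exp (-θ' * t₁)) ≤ (mu ν) {x | Real.exp t₁ ≤ Z κ n₁ x}) (j : ℕ) :
    ENNReal.ofReal (Real.exp (-θ' * (j * t₁))) ≤
      (mu ν) {x | Real.exp (j * t₁) ≤ Z κ (j * n₁) x} := by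
  have hA : MeasurableSet {x : ℕ → E | Real.exp t₁ ≤ Z κ n₁ x} :=
    measurableSet_le measurable_const (Z_meas hκ.meas n₁)
  have hd : Dep n₁ (fun x : ℕ → E => x ∈ {x : ℕ → E | Real.exp t₁ ≤ Z κ n₁ x}) := by
    intro x y hxy
    change (Real.exp t₁ ≤ Z κ n₁ x) = (Real.exp t₁ ≤ Z κ n₁ y)
    rw [Z_dep hκ.dep n₁ x y hxy]
  have h1 := measure_iter (ν := ν) hA hd j
  have h2 : {x : ℕ → E | ∀ i, i < j → sh (i * n₁) x ∈ {x : ℕ → E | Real.exp t₁ ≤ Z κ n₁ x}} ⊆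
      {x | Real.exp (j * t₁) ≤ Z κ (j * n₁) x} := by
    intro x hx
    have h3 : ∏ i ∈ Finset.range j, Real.exp t₁ ≤ ∏ i ∈ Finset.range j, Z κ n₁ (sh (i * n₁) x) :=
      Finset.prod_le_prod (fun _ _ => (Real.exp_pos _).le)
        (fun i hi => hx i (Finset.mem_range.mp hi))
    rw [Finset.prod_const, Finset.card_range, ← Real.exp_nat_mul] at h3
    exact le_trans h3 (Z_supermul_pow hκ.nonneg j n₁ x)
  refine le_trans ?_ (measure_mono h2)
  rw [h1]
  refine le_trans ?_ (pow_le_pow_left' h j)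
  rw [← ENNReal.ofReal_pow (Real.exp_pos _).le, ← Real.exp_nat_mul]
  apply ENNReal.ofReal_le_ofReal
  rw [Real.exp_le_exp]
  nlinarith

/-- Markov inequality for the moments. -/
theorem markov_Z {κ : ℕ → (ℕ → E) → ℝ} (hκ : IsKernel κ) {θ : ℝ} (hθ : 0 < θ) {n : ℕ}
    (h : mom ν θ (Z κ n) ≤ 1) (t : ℝ) :
    (mu ν) {x | Real.exp t ≤ Z κ n x} ≤ ENNReal.ofReal (Real.exp (-θ * t)) := by
  have h1 := mul_meas_ge_le_lintegral (μ := mu ν) (mg_meas hκ θ n) (ENNReal.ofReal (Real.exp (θ * t)))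
  have h2 : (mu ν) {x | Real.exp t ≤ Z κ n x} ≤
      (mu ν) {x | ENNReal.ofReal (Real.exp (θ * t)) ≤ ENNReal.ofReal (Z κ n x ^ θ)} := by
    refine measure_mono (fun x hx => ?_)
    have hx' : Real.exp t ≤ Z κ n x := hx
    change ENNReal.ofReal (Real.exp (θ * t)) ≤ ENNReal.ofReal (Z κ n x ^ θ)
    apply ENNReal.ofReal_le_ofReal
    calc Real.exp (θ * t) = (Real.exp t) ^ θ := by rw [← Real.exp_mul, mul_comm]
      _ ≤ Z κ n x ^ θ := Real.rpow_le_rpow (Real.exp_pos _).le hx' hθ.le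
  have h3 : ENNReal.ofReal (Real.exp (θ * t)) * (mu ν) {x | Real.exp t ≤ Z κ n x} ≤ 1 :=
    le_trans (mul_le_mul_right h2 _) (le_trans h1 h)
  have h4 : ENNReal.ofReal (Real.exp (-θ * t)) = (ENNReal.ofReal (Real.exp (θ * t)))⁻¹ := by
    rw [← ENNReal.ofReal_inv_of_pos (Real.exp_pos _), ← Real.exp_neg]
    congr 2
    ring
  rw [h4, ENNReal.le_inv_iff_mul_le, mul_comm]
  exact h3

end Copoly
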