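import Pool.Agent.Work.MP_fd21e9_pr.Pert
import Pool.Agent.Work.MP_fd21e9_pr.MomGood

/-! # Perturbing the truncated Green function -/

open MeasureTheory ProbabilityTheory
open scoped ENNReal

namespace Copoly

variable {E : Type*} [MeasurableSpace E] {ν : Measure E} [IsProbabilityMeasure ν]

namespace S5

theorem rpow_sum {ι : Type*} (s : Finset ι) (f : ι → ℝ≥0∞) {θ : ℝ} (hθ : 0 < θ) (hθ1 : θ ≤ 1) :
    (∑ i ∈ s, f i) ^ θ ≤ ∑ i ∈ s, f i ^ θ := by
  classical
  induction s using Finset.induction_on with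
  | empty => simp [ENNReal.zero_rpow_of_pos hθ]
  | insert a s ha ih =>
    rw [Finset.sum_insert ha, Finset.sum_insert ha]
    exact le_trans (ENNReal.rpow_add_le_add_rpow _ _ hθ.le hθ1) (by gcongr)

theorem conv_le (a b : ℕ → ℝ≥0∞) (M : ℕ) :
    ∑ m ∈ Finset.range M, ∑ t ∈ Finset.Icc 1 m, a t * b (m - t) ≤
      (∑ t ∈ Finset.range M, a t) * ∑ m ∈ Finset.range M, b m := by
  classical
  calc ∑ m ∈ Finset.range M, ∑ t ∈ Finset.Icc 1 m, a t * b (m - t)
      ≤ ∑ m ∈ Finset.range M, ∑ t ∈ (Finset.range M).filter (fun t => t ≤ m),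
          a t * b (m - t) := by
        apply Finset.sum_le_sum
        intro m hm
        rw [Finset.mem_range] at hm
        apply Finset.sum_le_sum_of_subset
        intro t ht
        rw [Finset.mem_Icc] at ht
        rw [Finset.mem_filter, Finset.mem_range]
        omega
    _ = ∑ t ∈ Finset.range M, ∑ m ∈ (Finset.range M).filter (fun m => t ≤ m),
          a t * b (m - t) := by
        simp only [Finset.sum_filter]
        rw [Finset.sum_comm]
    _ ≤ ∑ t ∈ Finset.range M, a t * ∑ m ∈ Finset.range M, b m := by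
        apply Finset.sum_le_sum
        intro t _
        rw [← Finset.mul_sum]
        gcongr
        calc ∑ m ∈ (Finset.range M).filter (fun m => t ≤ m), b (m - t)
            = ∑ n ∈ ((Finset.range M).filter (fun m => t ≤ m)).image (fun m => m - t), b n := by
              rw [Finset.sum_image]
              intro x hx z hz hxz
              simp only [Finset.coe_filter, Finset.mem_range] at hx hz
              have h1 : t ≤ x := hx.2
              have h2 : t ≤ z := hz.2
              simp only at hxz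
              omega
          _ ≤ _ := by
              apply Finset.sum_le_sum_of_subset
              intro n hn
              rw [Finset.mem_image] at hn
              obtain ⟨m, hm, rfl⟩ := hn
              rw [Finset.mem_filter, Finset.mem_range] at hm
              rw [Finset.mem_range]
              omega
    _ = _ := by rw [Finset.sum_mul]

theorem conv2_le (a b : ℕ → ℝ≥0∞) (M : ℕ) :
    ∑ t ∈ Finset.range M, ∑ s ∈ Finset.range t, a s * b (t - s) ≤
      (∑ s ∈ Finset.range M, a s) * ∑ n ∈ Finset.Icc 1 M, b n := by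
  classical
  calc ∑ t ∈ Finset.range M, ∑ s ∈ Finset.range t, a s * b (t - s)
      ≤ ∑ t ∈ Finset.range M, ∑ s ∈ (Finset.range M).filter (fun s => s < t),
          a s * b (t - s) := by
        apply Finset.sum_le_sum
        intro t ht
        rw [Finset.mem_range] at ht
        apply Finset.sum_le_sum_of_subset
        intro s hs
        rw [Finset.mem_range] at hs
        rw [Finset.mem_filter, Finset.mem_range]
        omega
    _ = ∑ s ∈ Finset.range M, ∑ t ∈ (Finset.range M).filter (fun t => s < t),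
          a s * b (t - s) := by
        simp only [Finset.sum_filter]
        rw [Finset.sum_comm]
    _ ≤ ∑ s ∈ Finset.range M, a s * ∑ n ∈ Finset.Icc 1 M, b n := by
        apply Finset.sum_le_sum
        intro s _
        rw [← Finset.mul_sum]
        gcongr
        calc ∑ t ∈ (Finset.range M).filter (fun t => s < t), b (t - s)
            = ∑ n ∈ ((Finset.range M).filter (fun t => s < t)).image (fun t => t - s), b n := by
              rw [Finset.sum_image]
              intro x hx z hz hxz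
              simp only [Finset.coe_filter, Finset.mem_range] at hx hz
              have h1 : s < x := hx.2
              have h2 : s < z := hz.2
              simp only at hxz
              omega
          _ ≤ _ := by
              apply Finset.sum_le_sum_of_subset
              intro n hn
              rw [Finset.mem_image] at hn
              obtain ⟨m, hm, rfl⟩ := hn
              rw [Finset.mem_filter, Finset.mem_range] at hm
              rw [Finset.mem_Icc]
              omega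
    _ = _ := by rw [Finset.sum_mul]

/-- Truncated weight. -/
noncomputable def aa (κ κ' : ℕ → (ℕ → E) → ℝ) (l : ℕ) (y θ : ℝ) (m : ℕ) (x : ℕ → E) : ℝ≥0∞ :=
  (noWin κ l y m).indicator (fun x => ENNReal.ofReal (Z κ' m x ^ θ)) x

theorem aa_meas {κ κ' : ℕ → (ℕ → E) → ℝ} (h : ∀ n, Measurable (κ n)) (h' : ∀ n, Measurable (κ' n))
    (l : ℕ) (y θ : ℝ) (m : ℕ) : Measurable (aa κ κ' l y θ m) :=
  Measurable.indicator (ENNReal.measurable_ofReal.comp ((Z_meas h' _).pow_const θ))
    (measurableSet_noWin h l y m)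

omit [MeasurableSpace E] in
theorem aa_dep {κ κ' : ℕ → (ℕ → E) → ℝ} (h : ∀ n, Dep n (κ n)) (h' : ∀ n, Dep n (κ' n))
    (l : ℕ) (y θ : ℝ) (m : ℕ) (hnw : Dep m (fun x => x ∈ noWin κ l y m)) :
    Dep m (aa κ κ' l y θ m) := by
  intro x x' hxx
  have h1 : (x ∈ noWin κ l y m) = (x' ∈ noWin κ l y m) := hnw x x' hxx
  have h2 := Z_dep h' m x x' hxx
  simp only [aa, Set.indicator]
  rw [h2]
  by_cases hx : x ∈ noWin κ l y m
  · have hx' : x' ∈ noWin κ l y m := by rw [← h1]; exact hx
    rw [if_pos hx, if_pos hx']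
  · have hx' : x' ∉ noWin κ l y m := by
      intro hc
      apply hx
      rw [h1]; exact hc
    rw [if_neg hx, if_neg hx']

theorem vv_eq {κ κ' : ℕ → (ℕ → E) → ℝ} (h : ∀ n, Measurable (κ n)) (l : ℕ) (y θ : ℝ) (m : ℕ) :
    vv ν κ κ' l y θ m = ∫⁻ x, aa κ κ' l y θ m x ∂(mu ν) := by
  rw [vv, ← lintegral_indicator (measurableSet_noWin h l y _)]
  rfl

omit [MeasurableSpace E] in
/-- Pointwise inequality for the powers. -/
theorem pointwise {κ κ' r : ℕ → (ℕ → E) → ℝ} {ε : ℝ} (hκ : ∀ n x, 0 ≤ κ n x)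
    (hκ' : ∀ n x, 0 ≤ κ' n x) (hr : ∀ n x, 0 ≤ r n x) (hε : 0 ≤ ε)
    (h : ∀ n x, 1 ≤ n → κ' n x ≤ (1 + ε) * κ n x + r n x) {θ : ℝ} (hθ : 0 < θ) (hθ1 : θ ≤ 1)
    (m : ℕ) (x : ℕ → E) :
    ENNReal.ofReal (Z κ' m x ^ θ) ≤ ENNReal.ofReal (Z κ m x ^ θ)
      + ENNReal.ofReal (ε ^ θ) * ∑ t ∈ Finset.Icc 1 m,
          ENNReal.ofReal (Z κ t x ^ θ) * ENNReal.ofReal (Z κ' (m - t) (sh t x) ^ θ)
      + ∑ t ∈ Finset.Icc 1 m, ∑ s ∈ Finset.range t,
          ENNReal.ofReal (Z κ s x ^ θ) * ENNReal.ofReal (r (t - s) (sh s x) ^ θ) *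
            ENNReal.ofReal (Z κ' (m - t) (sh t x) ^ θ) := by
  have zk := fun n x => Z_nonneg hκ n x
  have zk' := fun n x => Z_nonneg hκ' n x
  have hP := Z_pert hκ hκ' hr hε h m x
  have e : ∀ a : ℝ, 0 ≤ a → ENNReal.ofReal (a ^ θ) = ENNReal.ofReal a ^ θ := fun a ha =>
    (ENNReal.ofReal_rpow_of_nonneg ha hθ.le).symm
  have hO : ENNReal.ofReal (Z κ' m x) ≤ ENNReal.ofReal (Z κ m x)
      + ENNReal.ofReal ε * ∑ t ∈ Finset.Icc 1 m,
          ENNReal.ofReal (Z κ t x) * ENNReal.ofReal (Z κ' (m - t) (sh t x))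
      + ∑ t ∈ Finset.Icc 1 m, ∑ s ∈ Finset.range t,
          ENNReal.ofReal (Z κ s x) * ENNReal.ofReal (r (t - s) (sh s x)) *
            ENNReal.ofReal (Z κ' (m - t) (sh t x)) := by
    refine le_trans (ENNReal.ofReal_le_ofReal hP) ?_
    rw [ENNReal.ofReal_add, ENNReal.ofReal_add, ENNReal.ofReal_mul hε]
    · apply le_of_eq
      congr 1
      · congr 2
        rw [ENNReal.ofReal_sum_of_nonneg fun t _ => mul_nonneg (zk _ _) (zk' _ _)]
        exact Finset.sum_congr rfl fun t _ => ENNReal.ofReal_mul (zk _ _)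
      · rw [ENNReal.ofReal_sum_of_nonneg fun t _ => Finset.sum_nonneg fun s _ =>
          mul_nonneg (mul_nonneg (zk _ _) (hr _ _)) (zk' _ _)]
        refine Finset.sum_congr rfl fun t _ => ?_
        rw [ENNReal.ofReal_sum_of_nonneg fun s _ =>
          mul_nonneg (mul_nonneg (zk _ _) (hr _ _)) (zk' _ _)]
        refine Finset.sum_congr rfl fun s _ => ?_
        rw [ENNReal.ofReal_mul (mul_nonneg (zk _ _) (hr _ _)), ENNReal.ofReal_mul (zk _ _)]
    · exact zk _ _
    · exact mul_nonneg hε (Finset.sum_nonneg fun t _ => mul_nonneg (zk _ _) (zk' _ _))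
    · exact add_nonneg (zk _ _)
        (mul_nonneg hε (Finset.sum_nonneg fun t _ => mul_nonneg (zk _ _) (zk' _ _)))
    · exact Finset.sum_nonneg fun t _ => Finset.sum_nonneg fun s _ =>
          mul_nonneg (mul_nonneg (zk _ _) (hr _ _)) (zk' _ _)
  rw [e _ (zk' _ _)]
  refine le_trans (ENNReal.rpow_le_rpow hO hθ.le) ?_
  refine le_trans (ENNReal.rpow_add_le_add_rpow _ _ hθ.le hθ1) ?_
  refine add_le_add (le_trans (ENNReal.rpow_add_le_add_rpow _ _ hθ.le hθ1) ?_) ?_
  · refine add_le_add (le_of_eq (e _ (zk _ _)).symm) ?_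
    rw [ENNReal.mul_rpow_of_nonneg _ _ hθ.le, e _ hε]
    gcongr
    refine le_trans (rpow_sum _ _ hθ hθ1) (le_of_eq ?_)
    refine Finset.sum_congr rfl fun t _ => ?_
    rw [ENNReal.mul_rpow_of_nonneg _ _ hθ.le, e _ (zk _ _), e _ (zk' _ _)]
  · refine le_trans (rpow_sum _ _ hθ hθ1) (Finset.sum_le_sum fun t _ => ?_)
    refine le_trans (rpow_sum _ _ hθ hθ1) (le_of_eq ?_)
    refine Finset.sum_congr rfl fun s _ => ?_
    rw [ENNReal.mul_rpow_of_nonneg _ _ hθ.le, ENNReal.mul_rpow_of_nonneg _ _ hθ.le,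
      e _ (zk _ _), e _ (zk' _ _), e _ (hr _ _)]

/-- One-step inequality for the truncated moments. -/
theorem vv_step {κ κ' r : ℕ → (ℕ → E) → ℝ} (hκ : IsKernel κ) (hκ' : IsKernel κ')
    (hr : IsKernel r) {ε : ℝ} (hε : 0 ≤ ε)
    (h : ∀ n x, 1 ≤ n → κ' n x ≤ (1 + ε) * κ n x + r n x)
    {θ : ℝ} (hθ : 0 < θ) (hθ1 : θ ≤ 1) (l : ℕ) (y : ℝ) (m : ℕ) :
    vv ν κ κ' l y θ m ≤ vv ν κ κ l y θ m
      + ENNReal.ofReal (ε ^ θ) * ∑ t ∈ Finset.Icc 1 m, vv ν κ κ l y θ t * vv ν κ κ' l y θ (m - t)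
      + ∑ t ∈ Finset.Icc 1 m, (∑ s ∈ Finset.range t, vv ν κ κ l y θ s * mom ν θ (r (t - s))) *
          vv ν κ κ' l y θ (m - t) := by
  have hmA : ∀ n, Measurable (aa κ κ l y θ n) := aa_meas hκ.meas hκ.meas l y θ
  have hmA' : ∀ n, Measurable (aa κ κ' l y θ n) := aa_meas hκ.meas hκ'.meas l y θ
  have hmr : ∀ n, Measurable (fun x : ℕ → E => ENNReal.ofReal (r n x ^ θ)) := fun n =>
    ENNReal.measurable_ofReal.comp ((hr.meas n).pow_const θ)
  have hdA : ∀ n, Dep n (aa κ κ l y θ n) := fun n =>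
    aa_dep hκ.dep hκ.dep l y θ n (noWin_dep hκ.dep l y n)
  have hdr : ∀ n, Dep n (fun x : ℕ → E => ENNReal.ofReal (r n x ^ θ)) := by
    intro n x x' hxx
    have := hr.dep n x x' hxx
    simp only [this]
  have hpt : ∀ x, aa κ κ' l y θ m x ≤ aa κ κ l y θ m x
      + ENNReal.ofReal (ε ^ θ) * ∑ t ∈ Finset.Icc 1 m,
          aa κ κ l y θ t x * aa κ κ' l y θ (m - t) (sh t x)
      + ∑ t ∈ Finset.Icc 1 m, ∑ s ∈ Finset.range t,
          aa κ κ l y θ s x * ENNReal.ofReal (r (t - s) (sh s x) ^ θ) *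
            aa κ κ' l y θ (m - t) (sh (s + (t - s)) x) := by
    intro x
    by_cases hx : x ∈ noWin κ l y m
    · have e0 : ∀ κ'' : ℕ → (ℕ → E) → ℝ, aa κ κ'' l y θ m x = ENNReal.ofReal (Z κ'' m x ^ θ) := by
        intro κ''
        simp only [aa]
        rw [Set.indicator_of_mem hx]
      have e1 : ∀ t, t ≤ m → aa κ κ l y θ t x = ENNReal.ofReal (Z κ t x ^ θ) := by
        intro t ht
        simp only [aa]
        rw [Set.indicator_of_mem (noWin_anti l y ht hx)]
      have e2 : ∀ t, t ≤ m → aa κ κ' l y θ (m - t) (sh t x) =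
          ENNReal.ofReal (Z κ' (m - t) (sh t x) ^ θ) := by
        intro t ht
        simp only [aa]
        rw [Set.indicator_of_mem]
        exact noWin_sh l y (by omega) hx
      rw [e0, e0]
      refine le_trans (pointwise hκ.nonneg hκ'.nonneg hr.nonneg hε h hθ hθ1 m x) (le_of_eq ?_)
      congr 1
      · congr 2
        refine Finset.sum_congr rfl fun t ht => ?_
        rw [Finset.mem_Icc] at ht
        rw [e1 t ht.2, e2 t ht.2]
      · refine Finset.sum_congr rfl fun t ht => ?_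
        rw [Finset.mem_Icc] at ht
        refine Finset.sum_congr rfl fun s hs => ?_
        rw [Finset.mem_range] at hs
        have e3 : s + (t - s) = t := by omega
        rw [e3, e1 s (by omega), e2 t ht.2]
    · have : aa κ κ' l y θ m x = 0 := by
        simp only [aa]
        rw [Set.indicator_of_notMem hx]
      rw [this]
      exact bot_le
  rw [vv_eq hκ.meas]
  refine le_trans (lintegral_mono hpt) (le_of_eq ?_)
  have m1 : Measurable (fun x => ENNReal.ofReal (ε ^ θ) * ∑ t ∈ Finset.Icc 1 m,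
          aa κ κ l y θ t x * aa κ κ' l y θ (m - t) (sh t x)) := by
    apply Measurable.const_mul
    apply Finset.measurable_fun_sum
    intro t _
    exact (hmA t).mul ((hmA' _).comp (measurable_sh _))
  have m2 : ∀ t, Measurable (fun x => ∑ s ∈ Finset.range t,
          aa κ κ l y θ s x * ENNReal.ofReal (r (t - s) (sh s x) ^ θ) *
            aa κ κ' l y θ (m - t) (sh (s + (t - s)) x)) := by
    intro t
    apply Finset.measurable_fun_sum
    intro s _
    exact (((hmA s).mul ((hmr _).comp (measurable_sh _))).mul ((hmA' _).comp (measurable_sh _)))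
  have m3 : Measurable (fun x => aa κ κ l y θ m x + ENNReal.ofReal (ε ^ θ) *
      ∑ t ∈ Finset.Icc 1 m, aa κ κ l y θ t x * aa κ κ' l y θ (m - t) (sh t x)) := (hmA m).add m1
  rw [lintegral_add_left m3, lintegral_add_left (hmA m), ← vv_eq hκ.meas]
  congr 1
  · congr 1
    rw [lintegral_const_mul _ (by
      apply Finset.measurable_fun_sum
      intro t _
      exact (hmA t).mul ((hmA' _).comp (measurable_sh _)))]
    congr 1
    have m4 : ∀ t ∈ Finset.Icc 1 m, Measurable (fun x => aa κ κ l y θ t x *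
        aa κ κ' l y θ (m - t) (sh t x)) := fun t _ => (hmA t).mul ((hmA' _).comp (measurable_sh _))
    rw [lintegral_finsetSum _ m4]
    refine Finset.sum_congr rfl fun t _ => ?_
    rw [lintegral_mul_sh (hmA t) (hmA' _) (hdA t), ← vv_eq hκ.meas, ← vv_eq hκ.meas]
  · rw [lintegral_finsetSum _ (fun t _ => m2 t)]
    refine Finset.sum_congr rfl fun t _ => ?_
    have m5 : ∀ s ∈ Finset.range t, Measurable (fun x => aa κ κ l y θ s x *
        ENNReal.ofReal (r (t - s) (sh s x) ^ θ) * aa κ κ' l y θ (m - t) (sh (s + (t - s)) x)) :=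
      fun s _ => (((hmA s).mul ((hmr _).comp (measurable_sh _))).mul
        ((hmA' _).comp (measurable_sh _)))
    rw [lintegral_finsetSum _ m5, Finset.sum_mul]
    refine Finset.sum_congr rfl fun s _ => ?_
    rw [lintegral_mul_sh3 (hmA s) (hmr _) (hmA' _) (hdA s) (hdr _), ← vv_eq hκ.meas,
      ← vv_eq hκ.meas]
    rfl

end S5

open S5 in
theorem green_pert {κ κ' r : ℕ → (ℕ → E) → ℝ} (hκ : IsKernel κ) (hκ' : IsKernel κ')
    (hr : IsKernel r) {ε : ℝ} (hε : 0 ≤ ε)
    (h : ∀ n x, 1 ≤ n → κ' n x ≤ (1 + ε) * κ n x + r n x)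
    {θ : ℝ} (hθ : 0 < θ) (hθ1 : θ ≤ 1) {l : ℕ} {y : ℝ} {M : ℕ} {B : ℝ≥0∞}
    (hfin : ∀ n, mom ν θ (Z κ' n) < ∞)
    (hB : ∑ m ∈ Finset.range M, vv ν κ κ l y θ m ≤ B)
    (hsmall : (ENNReal.ofReal (ε ^ θ) + ∑ n ∈ Finset.Icc 1 M, mom ν θ (r n)) * B ≤ 1 / 2) :
    ∑ m ∈ Finset.range M, vv ν κ κ' l y θ m ≤ 2 * B := by
  set V := ∑ m ∈ Finset.range M, vv ν κ κ l y θ m with hV
  set V' := ∑ m ∈ Finset.range M, vv ν κ κ' l y θ m with hV'
  set P := ∑ n ∈ Finset.Icc 1 M, mom ν θ (r n) with hP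
  have hmain : V' ≤ V + ENNReal.ofReal (ε ^ θ) * (V * V') + (V * P) * V' := by
    calc V' ≤ ∑ m ∈ Finset.range M, (vv ν κ κ l y θ m
      + ENNReal.ofReal (ε ^ θ) * ∑ t ∈ Finset.Icc 1 m, vv ν κ κ l y θ t * vv ν κ κ' l y θ (m - t)
      + ∑ t ∈ Finset.Icc 1 m, (∑ s ∈ Finset.range t, vv ν κ κ l y θ s * mom ν θ (r (t - s))) *
          vv ν κ κ' l y θ (m - t)) :=
          Finset.sum_le_sum fun m _ => vv_step hκ hκ' hr hε h hθ hθ1 l y m
      _ = V + ENNReal.ofReal (ε ^ θ) * (∑ m ∈ Finset.range M, ∑ t ∈ Finset.Icc 1 m,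
            vv ν κ κ l y θ t * vv ν κ κ' l y θ (m - t))
          + ∑ m ∈ Finset.range M, ∑ t ∈ Finset.Icc 1 m,
            (∑ s ∈ Finset.range t, vv ν κ κ l y θ s * mom ν θ (r (t - s))) *
              vv ν κ κ' l y θ (m - t) := by
          rw [Finset.sum_add_distrib, Finset.sum_add_distrib, Finset.mul_sum]
      _ ≤ V + ENNReal.ofReal (ε ^ θ) * (V * V') + (V * P) * V' := by
          refine add_le_add (add_le_add le_rfl ?_) ?_
          · gcongr
            exact conv_le _ _ M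
          · refine le_trans (conv_le _ _ M) ?_
            gcongr
            exact conv2_le _ _ M
  have hVfin : V' ≠ ∞ := by
    rw [hV']
    apply ne_of_lt
    rw [ENNReal.sum_lt_top]
    intro m _
    refine lt_of_le_of_lt ?_ (hfin m)
    rw [vv, mom]
    exact setLIntegral_le_lintegral _ _
  have h2 : V' ≤ B + (1 / 2) * V' := by
    calc V' ≤ V + ENNReal.ofReal (ε ^ θ) * (V * V') + (V * P) * V' := hmain
      _ = V + ((ENNReal.ofReal (ε ^ θ) + P) * V) * V' := by ring
      _ ≤ B + ((ENNReal.ofReal (ε ^ θ) + P) * B) * V' := by gcongr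
      _ ≤ B + (1 / 2) * V' := by gcongr
  have h3 : (1 / 2) * V' + (1 / 2) * V' = V' := by
    rw [← add_mul, ENNReal.add_halves, one_mul]
  have h4 : (1 / 2) * V' ≤ B := by
    have h5 : (1 / 2) * V' + (1 / 2) * V' ≤ B + (1 / 2) * V' := by rw [h3]; exact h2
    have h6 : (1 / 2) * V' ≠ ∞ := ENNReal.mul_ne_top (by simp) hVfin
    exact (ENNReal.add_le_add_iff_right h6).mp h5
  calc V' = (1 / 2) * V' + (1 / 2) * V' := h3.symm
    _ ≤ B + B := add_le_add h4 h4
    _ = 2 * B := by ring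

end Copoly
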