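import Pool.Agent.Work.MP_fd21e9_pr.S1
import Pool.Agent.Work.MP_fd21e9_pr.S4
import Pool.Agent.Work.MP_fd21e9_pr.S5
import Pool.Agent.Work.MP_fd21e9_pr.ERb
import Pool.Agent.Work.MP_fd21e9_pr.Numerics

/-! # Abstract theorem: infinite-order smoothing -/

open MeasureTheory ProbabilityTheory
open scoped ENNReal

namespace Copoly

variable {E : Type*} [MeasurableSpace E] {ν : Measure E} [IsProbabilityMeasure ν]

/-- Lower bound for the heavy part of the moment. -/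
theorem heavy_beta {κ : ℕ → (ℕ → E) → ℝ} (hκ : IsKernel κ) {θ θ' s : ℝ} {l : ℕ} (hθ : 0 < θ)
    (h : ENNReal.ofReal (Real.exp (-θ' * s)) ≤ (mu ν) {x | Real.exp s ≤ Z κ l x}) :
    ENNReal.ofReal (Real.exp (-(θ' - θ) * s)) ≤
      ∫⁻ x in {x | Real.exp s ≤ Z κ l x}, ENNReal.ofReal (Z κ l x ^ θ) ∂(mu ν) := by
  have hms : MeasurableSet {x | Real.exp s ≤ Z κ l x} :=
    measurableSet_le measurable_const (Z_meas hκ.meas l)
  calc ENNReal.ofReal (Real.exp (-(θ' - θ) * s))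
      = ENNReal.ofReal (Real.exp (s * θ)) * ENNReal.ofReal (Real.exp (-θ' * s)) := by
        rw [← ENNReal.ofReal_mul (Real.exp_pos _).le, ← Real.exp_add]
        congr 2; ring
    _ ≤ ENNReal.ofReal (Real.exp (s * θ)) * (mu ν) {x | Real.exp s ≤ Z κ l x} := by
        gcongr
    _ = ∫⁻ x in {x | Real.exp s ≤ Z κ l x}, ENNReal.ofReal (Real.exp (s * θ)) ∂(mu ν) := by
        rw [setLIntegral_const]
    _ ≤ ∫⁻ x in {x | Real.exp s ≤ Z κ l x}, ENNReal.ofReal (Z κ l x ^ θ) ∂(mu ν) := by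
        apply setLIntegral_mono' hms
        intro x hx
        apply ENNReal.ofReal_le_ofReal
        rw [Real.exp_mul]
        exact Real.rpow_le_rpow (Real.exp_pos _).le hx hθ.le

/-- Probability that some window is good. -/
theorem noWin_compl_le {κ : ℕ → (ℕ → E) → ℝ} (hκ : IsKernel κ) {l : ℕ} (hl : 1 ≤ l) (y : ℝ)
    (L : ℕ) : (mu ν) (noWin κ l y L)ᶜ ≤ L * (mu ν) {x | y ≤ Z κ l x} := by
  have hsub : (noWin κ l y L)ᶜ ⊆ ⋃ s ∈ Finset.range L, (sh s) ⁻¹' {x | y ≤ Z κ l x} := by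
    intro x hx
    simp only [noWin, Set.mem_compl_iff, Set.mem_setOf_eq, not_forall, not_lt] at hx
    obtain ⟨s, hs, hy⟩ := hx
    simp only [Set.mem_iUnion]
    exact ⟨s, Finset.mem_range.2 (by omega), hy⟩
  have hms : MeasurableSet {x | y ≤ Z κ l x} :=
    measurableSet_le measurable_const (Z_meas hκ.meas l)
  calc (mu ν) (noWin κ l y L)ᶜ ≤ (mu ν) (⋃ s ∈ Finset.range L, (sh s) ⁻¹' {x | y ≤ Z κ l x}) :=
        measure_mono hsub
    _ ≤ ∑ s ∈ Finset.range L, (mu ν) ((sh s) ⁻¹' {x | y ≤ Z κ l x}) :=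
        measure_biUnion_finset_le _ _
    _ = ∑ s ∈ Finset.range L, (mu ν) {x | y ≤ Z κ l x} := by
        apply Finset.sum_congr rfl
        intro s _
        exact (mp_sh s).measure_preimage hms.nullMeasurableSet
    _ = L * (mu ν) {x | y ≤ Z κ l x} := by
        rw [Finset.sum_const, Finset.card_range, nsmul_eq_mul]

theorem infinite_order {κ u r : ℝ → ℕ → (ℕ → E) → ℝ} {g a : E → ℝ} {b C₁ δ₁ : ℝ} {n₀ : ℕ}
    (hδ₁ : 0 < δ₁) (hC₁ : 0 ≤ C₁) (hb : 1 ≤ b) (hn₀ : 1 ≤ n₀)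
    (hκ : ∀ δ, 0 ≤ δ → δ ≤ δ₁ → IsKernel (κ δ))
    (hu : ∀ δ, 0 < δ → δ ≤ δ₁ → IsKernel (u δ))
    (hr : ∀ δ, 0 < δ → δ ≤ δ₁ → IsKernel (r δ))
    (hu1 : ∀ δ, 0 < δ → δ ≤ δ₁ → ∀ n x, 1 ≤ u δ n x)
    (hgm : Measurable g) (hg1 : ∀ e, 1 ≤ g e) (hgi : Integrable g ν)
    (hZg : ∀ δ, 0 ≤ δ → δ ≤ δ₁ → ∀ n x, Z (κ δ) n x ≤ ∏ j ∈ Finset.range n, g (x j))
    (hug : ∀ δ, 0 < δ → δ ≤ δ₁ → ∀ n x, u δ n x ≤ ∏ j ∈ Finset.range n, g (x j))
    (ham : Measurable a) (ha0 : ∀ e, 0 < a e) (ha1 : ∀ e, a e ≤ 1)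
    (hai : Integrable (fun e => Real.log (a e)) ν)
    (hlow : ∀ n, n₀ ≤ n → ∀ x : ℕ → E, (n : ℝ) ^ (-b) * a (x (n - 1)) ≤ κ 0 n x)
    (hint : ∀ n, n₀ ≤ n → Integrable (fun x => Real.log (Z (κ 0) n x)) (mu ν))
    (hlog : ∀ n, n₀ ≤ n → ∫ x, Real.log (Z (κ 0) n x) ∂(mu ν) ≤ 0)
    (hheavy : ∀ θ' : ℝ, 1 < θ' → ∃ n, 1 < mom ν θ' (Z (κ 0) n))
    (hpert : ∀ δ, 0 < δ → δ ≤ δ₁ → ∀ n x, 1 ≤ n →
      κ δ n x ≤ (1 + C₁ * δ) * κ 0 n x + r δ n x)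
    (hrs : ∀ θ θ₁ : ℝ, 0 < θ → θ < θ₁ → θ₁ ≤ 1 → (∀ n, mom ν θ₁ (Z (κ 0) n) ≤ 1) →
      ∃ C δ₂ : ℝ, 0 < C ∧ 0 < δ₂ ∧ ∀ δ, 0 < δ → δ ≤ δ₂ → ∀ M : ℕ,
        ∑ n ∈ Finset.Icc 1 M, mom ν θ (r δ n) ≤ ENNReal.ofReal (C * δ ^ θ))
    (hus : ∀ θ θ₁ : ℝ, 0 < θ → θ < θ₁ → θ₁ ≤ 1 → (∀ n, mom ν θ₁ (Z (κ 0) n) ≤ 1) →
      ∃ C δ₂ : ℝ, 1 ≤ C ∧ 0 < δ₂ ∧ ∀ δ, 0 < δ → δ ≤ δ₂ → ∀ n : ℕ,
        mom ν θ (u δ n) ≤ ENNReal.ofReal C)
    {Γ : ℝ} (hΓ : 0 < Γ) :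
    ∃ C δ₃ : ℝ, 0 < C ∧ 0 < δ₃ ∧ δ₃ ≤ δ₁ ∧ ∀ δ : ℝ, 0 < δ → δ ≤ δ₃ → ∃ L : ℕ, 1 ≤ L ∧
      (∫ x, Real.log (Rb (κ δ) (u δ) L x) ∂(mu ν)) / L ≤ C * δ ^ Γ := by
  have hκ0 : IsKernel (κ 0) := hκ 0 le_rfl hδ₁.le
  -- step 1
  obtain ⟨θ₀, hθ₀, hθ₀1, hgood₀⟩ := exists_good hκ0 hb hn₀ ham ha0 ha1 hai hlow hint hlog
  -- step 2: the critical exponent
  set S : Set ℝ := {θ | 0 < θ ∧ ∀ n, mom ν θ (Z (κ 0) n) ≤ 1} with hS
  have hθ₀S : θ₀ ∈ S := ⟨hθ₀, hgood₀⟩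
  have hS1 : ∀ θ ∈ S, θ ≤ 1 := by
    intro θ hθ
    by_contra hc
    push Not at hc
    obtain ⟨n, hn⟩ := hheavy θ hc
    exact absurd (hθ.2 n) (not_le.2 hn)
  have hSb : BddAbove S := ⟨1, hS1⟩
  set θs := sSup S with hθs
  have hθsge : θ₀ ≤ θs := le_csSup hSb hθ₀S
  have hθsle : θs ≤ 1 := csSup_le ⟨θ₀, hθ₀S⟩ hS1
  obtain ⟨η, hη, hη1, hη2⟩ : ∃ η : ℝ, 0 < η ∧ η ≤ θ₀ / 4 ∧ η ≤ θ₀ ^ 2 / (100 * Γ) :=
    ⟨min (θ₀ / 4) (θ₀ ^ 2 / (100 * Γ)), lt_min (by positivity) (by positivity),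
      min_le_left _ _, min_le_right _ _⟩
  obtain ⟨θ₁, hθ₁S, hθ₁⟩ := exists_lt_of_lt_csSup ⟨θ₀, hθ₀S⟩ (show θs - η < sSup S by linarith)
  have hθ₁le : θ₁ ≤ θs := le_csSup hSb hθ₁S
  obtain ⟨θ, hθdef⟩ : ∃ θ, θ = θ₁ - η := ⟨_, rfl⟩
  obtain ⟨θ', hθ'def⟩ : ∃ θ', θ' = θs + 2 * η := ⟨_, rfl⟩
  have hθ : 0 < θ := by linarith
  have hθhalf : θ₀ / 2 ≤ θ := by linarith
  have hθlt : θ < θ₁ := by linarith
  have hθ1 : θ < 1 := by linarith
  have hθθ' : θ < θ' := by linarith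
  have hgap : θ' - θ ≤ 4 * η := by linarith
  have hgood : ∀ n, mom ν θ (Z (κ 0) n) ≤ 1 := fun n =>
    good_mono hκ0 hθ hθlt.le hθ₁S.2 n
  have hbad : ∃ n, 1 < mom ν (θs + η) (Z (κ 0) n) := by
    by_contra hc
    push Not at hc
    have : θs + η ∈ S := ⟨by linarith, hc⟩
    have := le_csSup hSb this
    linarith
  obtain ⟨n₁, hn₁, t₁, ht₁, hpair⟩ := heavy_pair hκ0 (by linarith) (show θs + η < θ' by linarith)
    hbad
  obtain ⟨Cr, δr, hCr, hδr, hrs'⟩ := hrs θ θ₁ hθ hθlt (by linarith) hθ₁S.2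
  obtain ⟨Cu, δu, hCu, hδu, hus'⟩ := hus θ θ₁ hθ hθlt (by linarith) hθ₁S.2
  obtain ⟨CE, hCE, hER⟩ := ER_bound (ν := ν) hgm hg1 hgi hθ hθ1.le hCu
  -- constants
  have hn₁' : (1 : ℝ) ≤ n₁ := by exact_mod_cast hn₁
  obtain ⟨D, hDdef⟩ : ∃ D, D = 2 * (C₁ ^ θ + Cr) * n₁ := ⟨_, rfl⟩
  have hC₁θ : 0 ≤ C₁ ^ θ := Real.rpow_nonneg hC₁ _
  have hD : 0 < D := by rw [hDdef]; positivity
  obtain ⟨D', hD'def⟩ : ∃ D', D' = 2 * (CE * (3 + n₁ + 8 * t₁)) := ⟨_, rfl⟩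
  have hD' : 0 < D' := by rw [hD'def]; positivity
  have hcond : (θ' - θ) * Γ / θ < θ / 3 := by
    rw [div_lt_div_iff₀ hθ (by norm_num)]
    have h1 : (θ' - θ) * Γ ≤ 4 * η * Γ := by gcongr
    have h2 : 4 * η * Γ ≤ 4 * (θ₀ ^ 2 / (100 * Γ)) * Γ := by gcongr
    have h3 : 4 * (θ₀ ^ 2 / (100 * Γ)) * Γ = θ₀ ^ 2 / 25 := by field_simp; ring
    have h4 : (θ₀ / 2) ^ 2 ≤ θ ^ 2 := by gcongr
    nlinarith [sq_nonneg θ₀, pow_pos hθ₀ 2]
  obtain ⟨C, δc, hC, hδc, hscale⟩ := choose_scale hD hD' ht₁ hθ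
    (show 0 ≤ θ' - θ by linarith) hΓ hcond
  refine ⟨C, min (min δ₁ δc) (min δr δu), hC, lt_min (lt_min hδ₁ hδc) (lt_min hδr hδu),
    le_trans (min_le_left _ _) (min_le_left _ _), ?_⟩
  intro δ hδ hδle
  have hδ1 : δ ≤ δ₁ := le_trans hδle (le_trans (min_le_left _ _) (min_le_left _ _))
  have hδc' : δ ≤ δc := le_trans hδle (le_trans (min_le_left _ _) (min_le_right _ _))
  have hδr' : δ ≤ δr := le_trans hδle (le_trans (min_le_right _ _) (min_le_left _ _))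
  have hδu' : δ ≤ δu := le_trans hδle (le_trans (min_le_right _ _) (min_le_right _ _))
  obtain ⟨j, hj, hj1, hj2⟩ := hscale δ hδ hδc'
  have hj' : (1 : ℝ) ≤ j := by exact_mod_cast hj
  -- the window
  obtain ⟨s, hsdef⟩ : ∃ s : ℝ, s = j * t₁ := ⟨_, rfl⟩
  have hs : 0 < s := by rw [hsdef]; positivity
  obtain ⟨l, hldef⟩ : ∃ l : ℕ, l = j * n₁ := ⟨_, rfl⟩
  have hl : 1 ≤ l := by rw [hldef]; exact Nat.one_le_iff_ne_zero.2 (by positivity)
  have hheavyl : ENNReal.ofReal (Real.exp (-θ' * s)) ≤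
      (mu ν) {x | Real.exp s ≤ Z (κ 0) l x} := by
    rw [hsdef, hldef]; exact heavy_iter hκ0 hpair j
  have hβ := heavy_beta hκ0 hθ hheavyl
  have hlight := markov_Z hκ0 hθ (hgood l) s
  obtain ⟨B, hBdef⟩ : ∃ B : ℝ, B = l * Real.exp ((θ' - θ) * s) := ⟨_, rfl⟩
  have hl' : (1 : ℝ) ≤ l := by exact_mod_cast hl
  have hB1 : 1 ≤ B := by
    rw [hBdef]
    have : 1 ≤ Real.exp ((θ' - θ) * s) := Real.one_le_exp (by
      apply mul_nonneg <;> linarith)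
    nlinarith
  have hV0 : ∀ M, ∑ m ∈ Finset.range M, vv ν (κ 0) (κ 0) l (Real.exp s) θ m ≤
      ENNReal.ofReal B := by
    intro M
    have h1 := green_bound hκ0 hθ hgood hl (Real.exp s) M
    have h2 : (∑ m ∈ Finset.range M, vv ν (κ 0) (κ 0) l (Real.exp s) θ m) *
        ENNReal.ofReal (Real.exp (-(θ' - θ) * s)) ≤ l :=
      le_trans (by gcongr) h1
    calc ∑ m ∈ Finset.range M, vv ν (κ 0) (κ 0) l (Real.exp s) θ m
        = (∑ m ∈ Finset.range M, vv ν (κ 0) (κ 0) l (Real.exp s) θ m) *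
          ENNReal.ofReal (Real.exp (-(θ' - θ) * s)) *
          ENNReal.ofReal (Real.exp ((θ' - θ) * s)) := by
          rw [mul_assoc, ← ENNReal.ofReal_mul (Real.exp_pos _).le, ← Real.exp_add,
            show -(θ' - θ) * s + (θ' - θ) * s = 0 by ring, Real.exp_zero, ENNReal.ofReal_one,
            mul_one]
      _ ≤ l * ENNReal.ofReal (Real.exp ((θ' - θ) * s)) := by gcongr
      _ = ENNReal.ofReal B := by
          rw [hBdef, ENNReal.ofReal_mul (by positivity), ENNReal.ofReal_natCast]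
  -- the floor scale
  obtain ⟨L, hLdef⟩ : ∃ L : ℕ, L = ⌊Real.exp (θ / 3 * s)⌋₊ := ⟨_, rfl⟩
  have hexp1 : 1 ≤ Real.exp (θ / 3 * s) := Real.one_le_exp (by positivity)
  have hL1 : 1 ≤ L := by rw [hLdef]; exact Nat.one_le_floor_iff _ |>.2 hexp1
  have hL1' : (1 : ℝ) ≤ L := by exact_mod_cast hL1
  have hLle : (L : ℝ) ≤ Real.exp (θ / 3 * s) := by
    rw [hLdef]; exact Nat.floor_le (by positivity)
  have hLge : Real.exp (θ / 3 * s) / 2 ≤ L := by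
    have := Nat.lt_floor_add_one (Real.exp (θ / 3 * s))
    rw [← hLdef] at this
    linarith
  refine ⟨L, hL1, ?_⟩
  have hcompl : (mu ν) (noWin (κ 0) l (Real.exp s) L)ᶜ ≤ ENNReal.ofReal ((L : ℝ) ^ (-2 : ℝ)) := by
    calc (mu ν) (noWin (κ 0) l (Real.exp s) L)ᶜ
        ≤ L * (mu ν) {x | Real.exp s ≤ Z (κ 0) l x} := noWin_compl_le hκ0 hl _ _
      _ ≤ L * ENNReal.ofReal (Real.exp (-θ * s)) := by gcongr
      _ = ENNReal.ofReal (L * Real.exp (-θ * s)) := by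
          rw [ENNReal.ofReal_mul (by positivity), ENNReal.ofReal_natCast]
      _ ≤ ENNReal.ofReal ((L : ℝ) ^ (-2 : ℝ)) := by
          apply ENNReal.ofReal_le_ofReal
          have h3 : (L : ℝ) ^ (3 : ℕ) ≤ Real.exp (θ * s) := by
            calc (L : ℝ) ^ (3 : ℕ) ≤ (Real.exp (θ / 3 * s)) ^ (3 : ℕ) := by gcongr
              _ = Real.exp (θ * s) := by
                rw [← Real.exp_nat_mul]; congr 1; push_cast; ring
          have hLpos : (0 : ℝ) < L := by linarith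
          rw [Real.rpow_neg hLpos.le]
          have h5 : (L : ℝ) ^ (2 : ℝ) = (L : ℝ) ^ (2 : ℕ) := by
            rw [← Real.rpow_natCast]; norm_num
          rw [h5, show -θ * s = -(θ * s) by ring, Real.exp_neg, ← div_eq_mul_inv,
            ← one_div, div_le_div_iff₀ (Real.exp_pos _) (by positivity)]
          nlinarith [h3]
  have hκδ : IsKernel (κ δ) := hκ δ hδ.le hδ1
  have hfin : ∀ n, mom ν θ (Z (κ δ) n) < ∞ := by
    intro n
    have hle : mom ν θ (Z (κ δ) n) ≤ ∫⁻ x, ∏ i ∈ Finset.range n, ENNReal.ofReal (g (x i)) ∂(mu ν) := by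
      apply lintegral_mono
      intro x
      show ENNReal.ofReal (Z (κ δ) n x ^ θ) ≤ ∏ i ∈ Finset.range n, ENNReal.ofReal (g (x i))
      rw [← ENNReal.ofReal_prod_of_nonneg (fun i _ => by linarith [hg1 (x i)])]
      apply ENNReal.ofReal_le_ofReal
      have hP1 : 1 ≤ ∏ i ∈ Finset.range n, g (x i) := by
        calc (1 : ℝ) = ∏ i ∈ Finset.range n, (1 : ℝ) := by simp
          _ ≤ _ := Finset.prod_le_prod (fun _ _ => zero_le_one) (fun i _ => hg1 (x i))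
      calc Z (κ δ) n x ^ θ ≤ (∏ i ∈ Finset.range n, g (x i)) ^ θ :=
            Real.rpow_le_rpow (Z_nonneg hκδ.nonneg n x) (hZg δ hδ.le hδ1 n x) hθ.le
        _ ≤ (∏ i ∈ Finset.range n, g (x i)) ^ (1 : ℝ) :=
            Real.rpow_le_rpow_of_exponent_le hP1 hθ1.le
        _ = _ := Real.rpow_one _
    refine lt_of_le_of_lt hle ?_
    rw [lintegral_prod_coord (g := fun e => ENNReal.ofReal (g e)) (by fun_prop)]
    exact ENNReal.pow_lt_top (by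
      have := hgi.lintegral_lt_top
      exact this)
  have hV1 : ∀ M, ∑ m ∈ Finset.range M, vv ν (κ 0) (κ δ) l (Real.exp s) θ m ≤
      ENNReal.ofReal (2 * B) := by
    intro M
    have hε : 0 ≤ C₁ * δ := by positivity
    have := green_pert hκ0 hκδ (hr δ hδ hδ1) hε (hpert δ hδ hδ1) hθ hθ1.le
      (l := l) (y := Real.exp s) (M := M) (B := ENNReal.ofReal B) hfin (hV0 M) ?_
    · rw [ENNReal.ofReal_mul (by norm_num)]
      simpa using this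
    · calc (ENNReal.ofReal ((C₁ * δ) ^ θ) + ∑ n ∈ Finset.Icc 1 M, mom ν θ (r δ n)) *
            ENNReal.ofReal B
          ≤ (ENNReal.ofReal ((C₁ * δ) ^ θ) + ENNReal.ofReal (Cr * δ ^ θ)) *
            ENNReal.ofReal B := by gcongr; exact hrs' δ hδ hδr' M
        _ = ENNReal.ofReal (((C₁ * δ) ^ θ + Cr * δ ^ θ) * B) := by
            rw [← ENNReal.ofReal_add (by positivity) (by positivity),
              ← ENNReal.ofReal_mul (by positivity)]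
        _ ≤ ENNReal.ofReal (1 / 2) := by
            apply ENNReal.ofReal_le_ofReal
            rw [Real.mul_rpow hC₁ hδ.le, hBdef, hldef, hsdef]
            rw [hDdef] at hj1
            push_cast
            nlinarith [hj1]
        _ = 1 / 2 := by
            rw [ENNReal.ofReal_div_of_pos (by norm_num)]; simp
  have hER' := hER (κ 0) (κ δ) (u δ) hκ0 hκδ (hu δ hδ hδ1) (hu1 δ hδ hδ1) (hZg δ hδ.le hδ1)
    (hug δ hδ hδ1) (hus' δ hδ hδu') l (Real.exp s) L (2 * B) hL1 (by linarith) (hV1 L) hcompl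
  -- numerics
  have hlogL : Real.log L ≤ s := by
    calc Real.log L ≤ Real.log (Real.exp (θ / 3 * s)) :=
          Real.log_le_log (by linarith) hLle
      _ = θ / 3 * s := Real.log_exp _
      _ ≤ s := by nlinarith
  have hlogB : Real.log (2 * B) ≤ 1 + j * n₁ + 6 * s := by
    rw [hBdef, ← mul_assoc, Real.log_mul (by positivity) (by positivity), Real.log_exp,
      Real.log_mul (by norm_num) (by positivity)]
    have h1 : Real.log 2 ≤ 1 := by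
      have := Real.log_two_lt_d9
      linarith
    have h2 : Real.log l ≤ j * n₁ := by
      have := Real.log_le_self (show (0 : ℝ) ≤ l by positivity)
      rw [hldef] at this ⊢
      push_cast at this ⊢
      exact this
    have h3 : (θ' - θ) * s ≤ 6 * s := by
      have : θ' - θ ≤ 6 := by linarith
      nlinarith
    linarith
  have hfinal : C * δ ^ Γ ≥ D' * j * Real.exp (-(θ / 3) * s) := by
    rw [hsdef]; exact hj2
  refine le_trans ?_ hfinal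
  rw [div_le_iff₀ (by linarith)]
  have hmain : ∫ x, Real.log (Rb (κ δ) (u δ) L x) ∂(mu ν) ≤ (D' / 2) * j := by
    refine le_trans hER' ?_
    rw [hD'def]
    have hsj : s = j * t₁ := hsdef
    have : 1 + Real.log L + Real.log (2 * B) ≤ (3 + n₁ + 8 * t₁) * j := by
      have hjt : 0 ≤ (j : ℝ) * t₁ := by positivity
      have : 1 + Real.log L + Real.log (2 * B) ≤ 2 + j * n₁ + 7 * (j * t₁) := by
        rw [← hsj]; linarith
      nlinarith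
    calc CE * (1 + Real.log L + Real.log (2 * B)) ≤ CE * ((3 + n₁ + 8 * t₁) * j) := by gcongr
      _ = 2 * (CE * (3 + n₁ + 8 * t₁)) / 2 * j := by ring
  refine le_trans hmain ?_
  have h6 : 1 / 2 ≤ Real.exp (-(θ / 3) * s) * L := by
    calc (1 : ℝ) / 2 = Real.exp (-(θ / 3) * s) * (Real.exp (θ / 3 * s) / 2) := by
          rw [mul_div_assoc', ← Real.exp_add]; simp
      _ ≤ _ := by gcongr
  have h7 : 0 ≤ D' * j := by positivity
  nlinarith [mul_le_mul_of_nonneg_left h6 h7]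

end Copoly
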