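import Mathlib

/-!
# Renewal-type partition functions in an i.i.d. environment: definitions

`E` is the alphabet of the environment, an environment is `x : ℕ → E`.
A kernel `κ n x` is the weight of an excursion of length `n` started at the origin of the
environment `x`; it only uses `x 0, ..., x (n-1)`.
-/

open MeasureTheory ProbabilityTheory
open scoped ENNReal

namespace Copoly

variable {E : Type*}

/-- Shift of an environment by `m`. -/
def sh (m : ℕ) (x : ℕ → E) : ℕ → E := fun n => x (n + m)

/-- `f` only looks at the first `n` coordinates. -/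
def Dep {β : Type*} (n : ℕ) (f : (ℕ → E) → β) : Prop :=
  ∀ x y : ℕ → E, (∀ i, i < n → x i = y i) → f x = f y

/-- Constrained (pinned) partition function of length `n` in the environment `x`. -/
noncomputable def Z (κ : ℕ → (ℕ → E) → ℝ) : ℕ → (ℕ → E) → ℝ
  | 0, _ => 1
  | (n + 1), x => ∑ i : Fin (n + 1), κ (i.1 + 1) x * Z κ (n - i.1) (sh (i.1 + 1) x)
termination_by n => n
decreasing_by omega

/-- Partition function with free end: `κf m x` is the weight of an incomplete excursion. -/
noncomputable def Zf (κ κf : ℕ → (ℕ → E) → ℝ) (N : ℕ) (x : ℕ → E) : ℝ :=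
  ∑ s ∈ Finset.range (N + 1), Z κ s x * κf (N - s) (sh s x)

/-- Block weight used for the upper bound on the free energy. -/
noncomputable def Rb (κ u : ℕ → (ℕ → E) → ℝ) (L : ℕ) (x : ℕ → E) : ℝ :=
  u L x + ∑ b ∈ Finset.range L, ∑ a ∈ Finset.range (b + 1),
    u a x * Z κ (b - a) (sh a x) * u (L - b) (sh b x)

/-- Nonnegative measurable kernel that looks at the right coordinates. -/
structure IsKernel [MeasurableSpace E] (κ : ℕ → (ℕ → E) → ℝ) : Prop where
  nonneg : ∀ n x, 0 ≤ κ n x
  meas : ∀ n, Measurable (κ n)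
  dep : ∀ n, Dep n (κ n)

/-- Law of the i.i.d. environment. -/
noncomputable abbrev mu [MeasurableSpace E] (ν : Measure E) : Measure (ℕ → E) :=
  Measure.infinitePi (fun _ : ℕ => ν)

/-- No window of length `l` inside `(0, m]` has partition function at least `y`. -/
def noWin (κ : ℕ → (ℕ → E) → ℝ) (l : ℕ) (y : ℝ) (m : ℕ) : Set (ℕ → E) :=
  {x | ∀ s, s + l ≤ m → Z κ l (sh s x) < y}

/-- `θ`-moment (as an extended nonnegative real). -/
noncomputable def mom [MeasurableSpace E] (ν : Measure E) (θ : ℝ) (F : (ℕ → E) → ℝ) : ℝ≥0∞ :=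
  ∫⁻ x, ENNReal.ofReal (F x ^ θ) ∂(mu ν)

/-- `θ`-moment restricted to the absence of good windows (for the kernel `κ`). -/
noncomputable def vv [MeasurableSpace E] (ν : Measure E) (κ κ' : ℕ → (ℕ → E) → ℝ)
    (l : ℕ) (y θ : ℝ) (m : ℕ) : ℝ≥0∞ :=
  ∫⁻ x in noWin κ l y m, ENNReal.ofReal (Z κ' m x ^ θ) ∂(mu ν)

end Copoly
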