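import Pool.Agent.Work.MP_fd21e9_pr.Model
import Pool.Agent.Work.MP_fd21e9_pr.MomGood

/-! # Exponential moments of the copolymer kernels -/

open MeasureTheory ProbabilityTheory
open scoped ENNReal

namespace Copoly

/-- Standing assumptions on the law of a single charge. -/
structure ChargeLaw (ν : Measure ℝ) : Prop where
  prob : IsProbabilityMeasure ν
  mean : ∫ e, e ∂ν = 0
  var : ∫ e, e ^ 2 ∂ν = 1
  expMom : ∀ t : ℝ, Integrable (fun e => Real.exp (t * e)) ν

/-- `E exp (-2 lam θ (ω + h))`. -/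
noncomputable def qq (ν : Measure ℝ) (lam h θ : ℝ) : ℝ :=
  ∫ e, Real.exp (-2 * lam * θ * (e + h)) ∂ν

variable {ν : Measure ℝ} {K : ℕ → ℝ} {α lam h : ℝ}

private theorem integrable_qq (hν : ChargeLaw ν) (lam h θ : ℝ) :
    Integrable (fun e => Real.exp (-2 * lam * θ * (e + h))) ν := by
  have := (hν.expMom (-2 * lam * θ)).const_mul (Real.exp (-2 * lam * θ * h))
  refine this.congr (Filter.Eventually.of_forall fun e => ?_)
  simp only
  rw [← Real.exp_add]; ring_nf

theorem qq_pos (hν : ChargeLaw ν) (lam h θ : ℝ) : 0 < qq ν lam h θ := by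
  have := hν.prob
  exact integral_exp_pos (integrable_qq hν lam h θ)

theorem qq_shift (hν : ChargeLaw ν) (lam h θ δ : ℝ) :
    qq ν lam (h - δ) θ = Real.exp (2 * lam * θ * δ) * qq ν lam h θ := by
  have _ := hν
  unfold qq
  rw [← integral_const_mul]
  refine integral_congr_ae (Filter.Eventually.of_forall fun e => ?_)
  simp only
  rw [← Real.exp_add]; ring_nf

/-- Strict Lyapunov inequality (the charge is not almost surely constant). -/
theorem qq_strict (hν : ChargeLaw ν) (hl : 0 < lam) (h : ℝ) {θ θ₁ : ℝ} (h0 : 0 < θ)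
    (h1 : θ < θ₁) : qq ν lam h θ ^ (θ₁ / θ) < qq ν lam h θ₁ := by
  have := hν.prob
  have hp : 1 < θ₁ / θ := by rw [one_lt_div h0]; exact h1
  have hpow : ∀ e : ℝ, Real.exp (-2 * lam * θ * (e + h)) ^ (θ₁ / θ) =
      Real.exp (-2 * lam * θ₁ * (e + h)) := by
    intro e
    rw [← Real.exp_mul]
    congr 1
    field_simp
  have key := (strictConvexOn_rpow hp).ae_eq_const_or_map_average_lt (μ := ν)
    (f := fun e => Real.exp (-2 * lam * θ * (e + h)))
    (Real.continuous_rpow_const (by linarith)).continuousOn isClosed_Ici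
    (Filter.Eventually.of_forall fun e => (Real.exp_pos _).le)
    (integrable_qq hν lam h θ)
    (by
      refine (integrable_qq hν lam h θ₁).congr (Filter.Eventually.of_forall fun e => ?_)
      simp only [Function.comp]
      exact (hpow e).symm)
  rcases key with hc | hlt
  · exfalso
    set c := ⨍ x, Real.exp (-2 * lam * θ * (x + h)) ∂ν with hcdef
    have hconst : ∀ᵐ e ∂ν, e = Real.log c / (-2 * lam * θ) - h := by
      filter_upwards [hc] with e he
      simp only [Function.const] at he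
      have h2 : -2 * lam * θ * (e + h) = Real.log c := by
        rw [← he, Real.log_exp]
      have h3 : (-2 * lam * θ) ≠ 0 := by
        have : 0 < lam * θ := by positivity
        intro h0; nlinarith
      field_simp
      linarith
    set d := Real.log c / (-2 * lam * θ) - h with hd
    have hm : (∫ e, e ∂ν) = d := by
      rw [integral_congr_ae hconst]; simp
    have hd0 : d = 0 := by rw [← hm]; exact hν.mean
    have hv : (∫ e, e ^ 2 ∂ν) = 0 := by
      have : (fun e : ℝ => e ^ 2) =ᵐ[ν] fun _ => (0 : ℝ) := by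
        filter_upwards [hconst] with e he
        rw [he, hd0]; norm_num
      rw [integral_congr_ae this]; simp
    rw [hν.var] at hv
    norm_num at hv
  · rw [average_eq_integral, average_eq_integral] at hlt
    simp only [hpow] at hlt
    exact hlt

theorem integrable_gfun (hν : ChargeLaw ν) (lam h : ℝ) : Integrable (gfun lam h) ν := by
  have := hν.prob
  have h1 := integrable_qq hν lam h 1
  have h2 := (integrable_const (μ := ν) (1 : ℝ)).add h1
  refine h2.congr (Filter.Eventually.of_forall fun e => ?_)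
  simp [gfun]

theorem mom_expEn (hν : ChargeLaw ν) (lam h : ℝ) {θ : ℝ} (hθ : 0 < θ) (n : ℕ) :
    mom ν θ (fun x => Real.exp (En lam h n x)) = ENNReal.ofReal (qq ν lam h θ ^ n) := by
  have := hν.prob
  have _ := hθ
  unfold mom
  have hm : Measurable fun e : ℝ => ENNReal.ofReal (Real.exp (-2 * lam * θ * (e + h))) := by
    fun_prop
  have e1 : ∀ x : ℕ → ℝ, ENNReal.ofReal (Real.exp (En lam h n x) ^ θ) =
      ∏ j ∈ Finset.range n, (fun e => ENNReal.ofReal (Real.exp (-2 * lam * θ * (e + h)))) (x j) := by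
    intro x
    simp only
    rw [← ENNReal.ofReal_prod_of_nonneg (fun i _ => (Real.exp_pos _).le), ← Real.exp_sum,
      ← Real.exp_mul]
    congr 2
    unfold En
    rw [← Finset.mul_sum]
    ring
  rw [lintegral_congr e1, lintegral_prod_coord hm n]
  rw [ENNReal.ofReal_pow (qq_pos hν lam h θ).le]
  congr 1
  rw [qq, ofReal_integral_eq_lintegral_ofReal (integrable_qq hν lam h θ)
    (Filter.Eventually.of_forall fun e => (Real.exp_pos _).le)]

/-- Scalar multiples come out of the moments. -/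
private theorem mom_const_mul {ν : Measure ℝ} {θ c : ℝ} (hc : 0 ≤ c) {F : (ℕ → ℝ) → ℝ}
    (hF : ∀ x, 0 ≤ F x) :
    mom ν θ (fun x => c * F x) = ENNReal.ofReal (c ^ θ) * mom ν θ F := by
  unfold mom
  rw [← lintegral_const_mul']
  · refine lintegral_congr fun x => ?_
    rw [Real.mul_rpow hc (hF x), ENNReal.ofReal_mul (Real.rpow_nonneg hc _)]
  · exact ENNReal.ofReal_ne_top

private theorem mom_le {ν : Measure ℝ} {θ : ℝ} (hθ : 0 ≤ θ) {F G : (ℕ → ℝ) → ℝ}
    (hF : ∀ x, 0 ≤ F x) (h : ∀ x, F x ≤ G x) : mom ν θ F ≤ mom ν θ G := by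
  refine lintegral_mono fun x => ?_
  exact ENNReal.ofReal_le_ofReal (Real.rpow_le_rpow (hF x) (h x) hθ)

/-- Lower bound of the moments of `Z` by one long excursion. -/
private theorem mom_Z_lower (hν : ChargeLaw ν) (hK : ∀ n, 0 ≤ K n) {θ : ℝ} (hθ : 0 < θ)
    {n : ℕ} (hn : 1 ≤ n) :
    ENNReal.ofReal ((K n / 2) ^ θ * qq ν lam h θ ^ n) ≤ mom ν θ (Z (ker K lam h) n) := by
  have h2 : (0 : ℝ) ≤ K n / 2 := by have := hK n; positivity
  rw [ENNReal.ofReal_mul (Real.rpow_nonneg h2 _), ← mom_expEn hν lam h hθ n,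
    ← mom_const_mul h2 (fun x => (Real.exp_pos _).le)]
  refine mom_le hθ.le (fun x => mul_nonneg h2 (Real.exp_pos _).le) fun x => ?_
  refine le_trans ?_ (kernel_le_Z (isKernel_ker hK lam h).nonneg hn x)
  unfold ker
  have := hK n
  nlinarith [Real.exp_pos (En lam h n x)]

/-- Exponentials beat powers. -/
private theorem exists_big {q s : ℝ} (hq : 1 < q) (n₀ : ℕ) :
    ∃ n : ℕ, n₀ ≤ n ∧ 1 ≤ n ∧ 1 < (n : ℝ) ^ (-s) * q ^ n := by
  obtain ⟨k, hk⟩ := exists_nat_ge s
  have ht := tendsto_pow_const_div_const_pow_of_one_lt k hq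
  have hev := (ht.eventually (gt_mem_nhds (zero_lt_one (α := ℝ)))).and
    (Filter.eventually_ge_atTop (max n₀ 1))
  obtain ⟨n, hn, hn2⟩ := hev.exists
  have hn1 : 1 ≤ n := le_trans (le_max_right _ _) hn2
  have hn1' : (1 : ℝ) ≤ (n : ℝ) := by exact_mod_cast hn1
  refine ⟨n, le_trans (le_max_left _ _) hn2, hn1, ?_⟩
  have hqn : 0 < q ^ n := by positivity
  rw [div_lt_one hqn] at hn
  have h1 : (n : ℝ) ^ s ≤ (n : ℝ) ^ k := by
    rw [← Real.rpow_natCast]
    exact Real.rpow_le_rpow_of_exponent_le hn1' hk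
  have h2 : 0 < (n : ℝ) ^ s := by positivity
  rw [Real.rpow_neg (by positivity), inv_mul_eq_div, one_lt_div h2]
  exact lt_of_le_of_lt h1 hn

private theorem exists_big_mom (hν : ChargeLaw ν) (hα : 0 < α) (hK : InterArrival α K)
    {θ : ℝ} (hθ : 0 < θ) (hq : 1 < qq ν lam h θ) :
    ∃ n, 1 < mom ν θ (Z (ker K lam h) n) := by
  obtain ⟨n₀, hn₀, hKl⟩ := K_lower hα hK
  obtain ⟨n, hn, hn1, hbig⟩ := exists_big (s := (2 + α) * θ) hq n₀
  refine ⟨n, lt_of_lt_of_le ?_ (mom_Z_lower hν hK.nonneg hθ hn1)⟩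
  rw [← ENNReal.ofReal_one, ENNReal.ofReal_lt_ofReal_iff_of_nonneg zero_le_one]
  refine lt_of_lt_of_le hbig ?_
  have hn' : (0 : ℝ) ≤ (n : ℝ) := Nat.cast_nonneg n
  have h1 : (n : ℝ) ^ (-((2 + α) * θ)) = ((n : ℝ) ^ (-(2 + α))) ^ θ := by
    rw [← Real.rpow_mul hn']; ring_nf
  rw [h1]
  have h2 : (n : ℝ) ^ (-(2 + α)) ≤ K n / 2 := by
    have := hKl n hn; linarith
  have h3 := (qq_pos hν lam h θ).le
  gcongr

/-- Goodness at `θ₁` forces `qq θ < 1` for `θ < θ₁`. -/
theorem qq_lt_one (hν : ChargeLaw ν) (hα : 0 < α) (hK : InterArrival α K) (hl : 0 < lam)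
    {θ θ₁ : ℝ} (h0 : 0 < θ) (h1 : θ < θ₁)
    (hgood : ∀ n, mom ν θ₁ (Z (ker K lam h) n) ≤ 1) : qq ν lam h θ < 1 := by
  have hle : qq ν lam h θ₁ ≤ 1 := by
    by_contra hcon
    push Not at hcon
    obtain ⟨n, hn⟩ := exists_big_mom (lam := lam) (h := h) hν hα hK (by linarith) hcon
    exact absurd (hgood n) (not_le.2 hn)
  by_contra hcon
  push Not at hcon
  have hs := qq_strict hν hl h h0 h1
  have : 1 ≤ qq ν lam h θ ^ (θ₁ / θ) :=
    Real.one_le_rpow hcon (div_nonneg (by linarith) h0.le)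
  linarith

theorem heavy_ker (hν : ChargeLaw ν) (hα : 0 < α) (hK : InterArrival α K) (hl : 0 < lam)
    (hh : 1 ≤ qq ν lam h 1) {θ' : ℝ} (hθ' : 1 < θ') :
    ∃ n, 1 < mom ν θ' (Z (ker K lam h) n) := by
  have hs := qq_strict hν hl h one_pos hθ'
  have : 1 ≤ qq ν lam h 1 ^ (θ' / 1) := Real.one_le_rpow hh (by rw [div_one]; linarith)
  exact exists_big_mom hν hα hK (by linarith) (by linarith)

/-- A small perturbation keeps the moment below one. -/
private theorem exists_delta {q lam θ : ℝ} (hq0 : 0 < q) (hq : q < 1) (hl : 0 < lam)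
    (h0 : 0 < θ) : ∃ δ₂ : ℝ, 0 < δ₂ ∧ Real.exp (2 * lam * θ * δ₂) * q < 1 := by
  refine ⟨-Real.log q / (4 * lam * θ), ?_, ?_⟩
  · have := Real.log_neg hq0 hq
    have h2 : 0 < -Real.log q := by linarith
    positivity
  · have e1 : 2 * lam * θ * (-Real.log q / (4 * lam * θ)) = -Real.log q / 2 := by
      field_simp; ring
    rw [e1]
    have hlog := Real.log_neg hq0 hq
    calc Real.exp (-Real.log q / 2) * q = Real.exp (-Real.log q / 2) * Real.exp (Real.log q) := by
          rw [Real.exp_log hq0]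
      _ = Real.exp (Real.log q / 2) := by rw [← Real.exp_add]; ring_nf
      _ < 1 := by rw [Real.exp_lt_one_iff]; linarith

theorem rker_sum (hν : ChargeLaw ν) (hK : InterArrival α K) (hl : 0 < lam) {θ : ℝ}
    (h0 : 0 < θ) (h1 : θ ≤ 1) (hq : qq ν lam h θ < 1) :
    ∃ C δ₂ : ℝ, 0 < C ∧ 0 < δ₂ ∧ ∀ δ, 0 < δ → δ ≤ δ₂ → ∀ M : ℕ,
      ∑ n ∈ Finset.Icc 1 M, mom ν θ (rker K lam h δ n) ≤ ENNReal.ofReal (C * δ ^ θ) := by
  obtain ⟨δ₂, hδ₂, hr⟩ := exists_delta (qq_pos hν lam h θ) hq hl h0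
  set q := qq ν lam h θ with hqdef
  have hq0 : 0 < q := qq_pos hν lam h θ
  set r : ℝ := Real.exp (2 * lam * θ * δ₂) * q with hrdef
  have hr0 : 0 < r := by positivity
  have hsum : Summable (fun n : ℕ => (n : ℝ) * r ^ n) :=
    (hasSum_coe_mul_geometric_of_norm_lt_one (r := r) (by
      rw [Real.norm_eq_abs, abs_of_pos hr0]; exact hr)).summable
  set S : ℝ := ∑' n : ℕ, (n : ℝ) * r ^ n with hS
  have hS0 : 0 ≤ S := tsum_nonneg fun n => by positivity
  refine ⟨lam ^ θ * S + 1, δ₂, by positivity, hδ₂, ?_⟩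
  intro δ hδ hδ2 M
  have hterm : ∀ n ∈ Finset.Icc 1 M, mom ν θ (rker K lam h δ n) ≤
      ENNReal.ofReal (lam ^ θ * δ ^ θ * ((n : ℝ) * r ^ n)) := by
    intro n hn
    have hn1 : 1 ≤ n := (Finset.mem_Icc.1 hn).1
    have hn1' : (1 : ℝ) ≤ (n : ℝ) := by exact_mod_cast hn1
    have hKn0 : 0 ≤ K n := hK.nonneg n
    have hKn1 : K n ≤ 1 := by
      refine le_trans ?_ (K_sum_le hK n)
      exact Finset.single_le_sum (f := K) (fun i _ => hK.nonneg i)
        (Finset.mem_Icc.2 ⟨hn1, le_rfl⟩)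
    have hz : 0 ≤ 2 * lam * δ * n := by positivity
    have hexp1 : 0 ≤ Real.exp (2 * lam * δ * n) - 1 := by
      have := Real.add_one_le_exp (2 * lam * δ * n); linarith
    have hexp2 : Real.exp (2 * lam * δ * n) - 1 ≤
        2 * lam * δ * n * Real.exp (2 * lam * δ * n) := by
      have h3 := Real.add_one_le_exp (-(2 * lam * δ * n))
      have h4 : Real.exp (-(2 * lam * δ * n)) * Real.exp (2 * lam * δ * n) = 1 := by
        rw [← Real.exp_add]; simp
      nlinarith [Real.exp_pos (2 * lam * δ * n)]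
    set c : ℝ := K n * ((Real.exp (2 * lam * δ * n) - 1) / 2) with hc
    have hc0 : 0 ≤ c := by positivity
    have hcle : c ≤ lam * δ * n * Real.exp (2 * lam * δ * n) := by
      have h5 : c ≤ 1 * ((Real.exp (2 * lam * δ * n) - 1) / 2) := by
        rw [hc]; gcongr
      linarith
    have e1 : rker K lam h δ n = fun x => c * Real.exp (En lam h n x) := by
      funext x; unfold rker; rw [hc]; ring
    rw [e1, mom_const_mul hc0 (fun x => (Real.exp_pos _).le), mom_expEn hν lam h h0 n,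
      ← ENNReal.ofReal_mul (Real.rpow_nonneg hc0 _)]
    refine ENNReal.ofReal_le_ofReal ?_
    have h6 : c ^ θ ≤ (lam * δ * n * Real.exp (2 * lam * δ * n)) ^ θ :=
      Real.rpow_le_rpow hc0 hcle h0.le
    have h7 : (lam * δ * n * Real.exp (2 * lam * δ * n)) ^ θ =
        lam ^ θ * δ ^ θ * (n : ℝ) ^ θ * Real.exp (2 * lam * δ * n * θ) := by
      rw [Real.mul_rpow (by positivity) (by positivity), Real.mul_rpow (by positivity)
        (by positivity), Real.mul_rpow (by positivity) (by positivity), ← Real.exp_mul]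
    have h8 : (n : ℝ) ^ θ ≤ n := by
      calc (n : ℝ) ^ θ ≤ (n : ℝ) ^ (1 : ℝ) := Real.rpow_le_rpow_of_exponent_le hn1' h1
        _ = n := Real.rpow_one _
    have h9 : Real.exp (2 * lam * δ * n * θ) * q ^ n ≤ r ^ n := by
      rw [hrdef, mul_pow, ← Real.exp_nat_mul]
      have : 2 * lam * δ * n * θ ≤ n * (2 * lam * θ * δ₂) := by
        have : 2 * lam * δ * n * θ = n * (2 * lam * θ * δ) := by ring
        rw [this]; gcongr
      gcongr
    calc c ^ θ * qq ν lam h θ ^ n ≤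
        (lam ^ θ * δ ^ θ * (n : ℝ) ^ θ * Real.exp (2 * lam * δ * n * θ)) * q ^ n := by
          rw [← h7, ← hqdef]; gcongr
      _ = lam ^ θ * δ ^ θ * ((n : ℝ) ^ θ * (Real.exp (2 * lam * δ * n * θ) * q ^ n)) := by ring
      _ ≤ lam ^ θ * δ ^ θ * ((n : ℝ) * r ^ n) := by gcongr
  refine (Finset.sum_le_sum hterm).trans ?_
  rw [← ENNReal.ofReal_sum_of_nonneg (fun n _ => by positivity), ← Finset.mul_sum]
  refine ENNReal.ofReal_le_ofReal ?_
  have h10 : ∑ n ∈ Finset.Icc 1 M, (n : ℝ) * r ^ n ≤ S :=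
    hsum.sum_le_tsum _ fun n _ => by positivity
  calc lam ^ θ * δ ^ θ * ∑ n ∈ Finset.Icc 1 M, (n : ℝ) * r ^ n ≤ lam ^ θ * δ ^ θ * S := by
        gcongr
    _ ≤ (lam ^ θ * S + 1) * δ ^ θ := by
        have : 0 ≤ δ ^ θ := by positivity
        nlinarith

theorem uker_mom (hν : ChargeLaw ν) (hl : 0 < lam) {θ : ℝ}
    (h0 : 0 < θ) (h1 : θ ≤ 1) (hq : qq ν lam h θ < 1) :
    ∃ C δ₂ : ℝ, 1 ≤ C ∧ 0 < δ₂ ∧ ∀ δ, 0 < δ → δ ≤ δ₂ → ∀ n : ℕ,
      mom ν θ (uker lam (h - δ) n) ≤ ENNReal.ofReal C := by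
  have := hν.prob
  obtain ⟨δ₂, hδ₂, hr⟩ := exists_delta (qq_pos hν lam h θ) hq hl h0
  refine ⟨2, δ₂, by norm_num, hδ₂, ?_⟩
  intro δ hδ hδ2 n
  have hmomone : mom ν θ (fun _ => (1 : ℝ)) = 1 := by
    unfold mom; simp
  have hqq : qq ν lam (h - δ) θ ≤ 1 := by
    rw [qq_shift hν]
    refine le_trans ?_ hr.le
    have := (qq_pos hν lam h θ).le
    gcongr
  have hmomexp : mom ν θ (fun x => Real.exp (En lam (h - δ) n x)) ≤ 1 := by
    rw [mom_expEn hν lam (h - δ) h0 n, ← ENNReal.ofReal_one]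
    exact ENNReal.ofReal_le_ofReal (pow_le_one₀ (qq_pos hν lam (h - δ) θ).le hqq)
  have hle : mom ν θ (uker lam (h - δ) n) ≤
      mom ν θ (fun _ => (1 : ℝ)) + mom ν θ (fun x => Real.exp (En lam (h - δ) n x)) := by
    unfold mom
    rw [← lintegral_add_left (by fun_prop)]
    refine lintegral_mono fun x => ?_
    simp only
    rw [← ENNReal.ofReal_add (by positivity) (by positivity)]
    refine ENNReal.ofReal_le_ofReal ?_
    have h3 : uker lam (h - δ) n x ≤ 1 + Real.exp (En lam (h - δ) n x) := by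
      unfold uker
      split_ifs
      · have := Real.exp_pos (En lam (h - δ) n x); linarith
      · exact le_rfl
    have h4 : 0 ≤ uker lam (h - δ) n x := le_trans zero_le_one (one_le_uker n x)
    exact (Real.rpow_le_rpow h4 h3 h0.le).trans
      (Real.rpow_add_le_add_rpow zero_le_one (Real.exp_pos _).le h0.le h1)
  refine hle.trans ?_
  rw [hmomone]
  calc (1 : ℝ≥0∞) + mom ν θ (fun x => Real.exp (En lam (h - δ) n x)) ≤ 1 + 1 := by gcongr
    _ = ENNReal.ofReal 2 := by rw [one_add_one_eq_two]; simp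

end Copoly
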