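import Pool.Agent.Work.MP_fd21e9_pr.Ren
import Pool.Agent.Work.MP_fd21e9_pr.Mgf

/-! # Transfer to the canonical spaces -/

open MeasureTheory ProbabilityTheory
open scoped ENNReal

namespace Copoly

/-- A signed renewal process on an arbitrary probability space: `Y j` is the pair (length, sign)
of the `j`-th excursion. The pairs are i.i.d., the length has law `K`, the sign is fair and
independent of the length. -/
structure SignedRenewal (K : ℕ → ℝ) {Ω : Type*} [MeasurableSpace Ω] (P : Measure Ω)
    (Y : ℕ → Ω → ℕ × Bool) : Prop where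
  prob : IsProbabilityMeasure P
  meas : ∀ j, Measurable (Y j)
  indep : iIndepFun Y P
  law : ∀ (j n : ℕ) (s : Bool), P {a | Y j a = (n, s)} = ENNReal.ofReal (K n / 2)

/-- I.i.d. charges `ω 1, ω 2, ...` (the variable `ω 0` plays no role): centred, with unit variance
and finite exponential moments. -/
structure Charges {Ω : Type*} [MeasurableSpace Ω] (P : Measure Ω) (ω : ℕ → Ω → ℝ) : Prop where
  prob : IsProbabilityMeasure P
  meas : ∀ n, Measurable (ω (n + 1))
  indep : iIndepFun (fun n : ℕ => ω (n + 1)) P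
  ident : ∀ n, IdentDistrib (ω (n + 1)) (ω 1) P P
  mean : ∫ a, ω 1 a ∂P = 0
  var : ∫ a, (ω 1 a) ^ 2 ∂P = 1
  expMom : ∀ t : ℝ, Integrable (fun a => Real.exp (t * ω 1 a)) P

/-- The partition function: expectation over the signed renewal process, `w n` is the charge of
monomer `n`. -/
noncomputable def ZN {Ω : Type*} [MeasurableSpace Ω] (P : Measure Ω) (Y : ℕ → Ω → ℕ × Bool)
    (lam h : ℝ) (w : ℕ → ℝ) (N : ℕ) : ℝ :=
  ∫ a, Real.exp (-2 * lam * ∑ n ∈ Finset.Icc 1 N, Dl (fun j => Y j a) n * (w n + h)) ∂P

theorem measurable_tau (j : ℕ) : Measurable (fun y : ℕ → ℕ × Bool => tau y j) := by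
  unfold tau
  exact Finset.measurable_sum _ (fun i _ => (measurable_pi_apply i).fst)

theorem measurable_Dl (n : ℕ) : Measurable (fun y : ℕ → ℕ × Bool => Dl y n) := by
  unfold Dl
  refine Measurable.ite ?_ measurable_const measurable_const
  have : {y : ℕ → ℕ × Bool | ∃ j, tau y j < n ∧ n ≤ tau y (j + 1) ∧ (y j).2 = true} =
      ⋃ j, ({y | tau y j < n} ∩ {y | n ≤ tau y (j + 1)} ∩ {y | (y j).2 = true}) := by
    ext y; simp [and_assoc]
  rw [this]
  refine MeasurableSet.iUnion (fun j => ?_)
  refine (MeasurableSet.inter ?_ ?_).inter ?_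
  · exact measurableSet_lt (measurable_tau j) measurable_const
  · exact measurableSet_le measurable_const (measurable_tau (j + 1))
  · exact measurableSet_eq_fun (measurable_pi_apply j).snd measurable_const

theorem ZN_eq {K : ℕ → ℝ} {α : ℝ} (hK : InterArrival α K) {Ω : Type*} [MeasurableSpace Ω]
    {P : Measure Ω} {Y : ℕ → Ω → ℕ × Bool} (hY : SignedRenewal K P Y) (lam h : ℝ) (w : ℕ → ℝ)
    (N : ℕ) : ZN P Y lam h w N = Zf (ker K lam h) (kerf K lam h) N (fun n => w (n + 1)) := by
  have := hY.prob
  have hlaw : ∀ j, P.map (Y j) = P.map (Y 0) := by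
    intro j
    apply Measure.ext_of_singleton
    intro p
    rw [Measure.map_apply (hY.meas j) (measurableSet_singleton p),
      Measure.map_apply (hY.meas 0) (measurableSet_singleton p)]
    have h1 := hY.law j p.1 p.2
    have h2 := hY.law 0 p.1 p.2
    simp only [Prod.mk.eta] at h1 h2
    have e1 : Y j ⁻¹' {p} = {a | Y j a = p} := by ext a; simp
    have e2 : Y 0 ⁻¹' {p} = {a | Y 0 a = p} := by ext a; simp
    rw [e1, e2, h1, h2]
  have hξ : IsGapLaw K (P.map (Y 0)) := by
    refine ⟨Measure.isProbabilityMeasure_map (hY.meas 0).aemeasurable, ?_⟩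
    intro n s
    rw [Measure.map_apply (hY.meas 0) (measurableSet_singleton _), ← hY.law 0 n s]
    congr 1
  have hjoint : P.map (fun a j => Y j a) = Measure.infinitePi (fun _ : ℕ => P.map (Y 0)) := by
    rw [hY.indep.map_fun_eq_infinitePi_map hY.meas]
    congr 1
    funext j
    exact hlaw j
  have hmeas : Measurable (fun a j => Y j a) := measurable_pi_iff.2 hY.meas
  rw [← ren_formula hK hξ N (fun n => w (n + 1)), ← hjoint]
  unfold ZN
  rw [integral_map hmeas.aemeasurable]
  · apply integral_congr_ae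
    refine Filter.Eventually.of_forall (fun a => ?_)
    simp only
    congr 2
    apply Finset.sum_congr rfl
    intro n hn
    rw [Finset.mem_Icc] at hn
    have : n - 1 + 1 = n := by omega
    rw [this]
  · refine Measurable.aestronglyMeasurable ?_
    refine Real.measurable_exp.comp ?_
    refine Measurable.const_mul ?_ _
    exact Finset.measurable_sum _ (fun n _ => (measurable_Dl n).mul_const _)

theorem Charges.law {Ω : Type*} [MeasurableSpace Ω] {P : Measure Ω} {ω : ℕ → Ω → ℝ}
    (h : Charges P ω) : ChargeLaw (P.map (ω 1)) := by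
  have := h.prob
  have hm : Measurable (ω 1) := h.meas 0
  refine ⟨Measure.isProbabilityMeasure_map hm.aemeasurable, ?_, ?_, ?_⟩
  · rw [integral_map hm.aemeasurable (by fun_prop)]; exact h.mean
  · rw [integral_map hm.aemeasurable (by fun_prop)]; exact h.var
  · intro t
    rw [integrable_map_measure (by fun_prop) hm.aemeasurable]
    exact h.expMom t

theorem Charges.joint {Ω : Type*} [MeasurableSpace Ω] {P : Measure Ω} {ω : ℕ → Ω → ℝ}
    (h : Charges P ω) : P.map (fun a n => ω (n + 1) a) = mu (P.map (ω 1)) := by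
  have := h.prob
  rw [h.indep.map_fun_eq_infinitePi_map h.meas]
  unfold mu
  congr 1
  funext n
  exact (h.ident n).map_eq

theorem integral_charges {Ω : Type*} [MeasurableSpace Ω] {P : Measure Ω} {ω : ℕ → Ω → ℝ}
    (h : Charges P ω) {F : (ℕ → ℝ) → ℝ} (hF : Measurable F) :
    ∫ a, F (fun n => ω (n + 1) a) ∂P = ∫ x, F x ∂(mu (P.map (ω 1))) := by
  rw [← h.joint, integral_map (measurable_pi_iff.2 h.meas).aemeasurable
    hF.aestronglyMeasurable]

end Copoly
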