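import Pool.Agent.Work.MP_fd21e9_pr.MomGood

/-! # Rare-stretch strategy: nonpositive mean log partition function gives a good exponent -/

open MeasureTheory ProbabilityTheory
open scoped ENNReal

namespace Copoly

variable {E : Type*} [MeasurableSpace E] {ν : Measure E} [IsProbabilityMeasure ν]

/-- Pointwise lower bounds. -/
private lemma ker_low {κ : ℕ → (ℕ → E) → ℝ} {b : ℝ} (hb : 1 ≤ b) {n₀ : ℕ}
    (hn₀ : 1 ≤ n₀) {a : E → ℝ} (ha0 : ∀ e, 0 < a e)
    (hlow : ∀ n, n₀ ≤ n → ∀ x : ℕ → E, (n : ℝ) ^ (-b) * a (x (n - 1)) ≤ κ n x)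
    {m N : ℕ} (hm : n₀ ≤ m) (hmN : m ≤ N) (x : ℕ → E) :
    (N : ℝ) ^ (-b) * a (x (m - 1)) ≤ κ m x := by
  refine le_trans (mul_le_mul_of_nonneg_right ?_ (ha0 _).le) (hlow m hm x)
  have h1 : (0 : ℝ) < m := by exact_mod_cast (by omega : 0 < m)
  have h2 : (m : ℝ) ≤ N := by exact_mod_cast hmN
  exact Real.rpow_le_rpow_of_nonpos h1 h2 (by linarith)

/-- Tail bound from the rare-stretch strategy. -/
theorem rare_tail {κ : ℕ → (ℕ → E) → ℝ} (hκ : IsKernel κ) {b : ℝ} (hb : 1 ≤ b) {n₀ : ℕ}
    (hn₀ : 1 ≤ n₀) {a : E → ℝ} (ham : Measurable a) (ha0 : ∀ e, 0 < a e) (ha1 : ∀ e, a e ≤ 1)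
    (hai : Integrable (fun e => Real.log (a e)) ν)
    (hlow : ∀ n, n₀ ≤ n → ∀ x : ℕ → E, (n : ℝ) ^ (-b) * a (x (n - 1)) ≤ κ n x)
    (hint : ∀ n, n₀ ≤ n → Integrable (fun x => Real.log (Z κ n x)) (mu ν))
    (hlog : ∀ n, n₀ ≤ n → ∫ x, Real.log (Z κ n x) ∂(mu ν) ≤ 0) :
    ∃ A : ℝ, 0 < A ∧ ∀ n, n₀ ≤ n → ∀ t : ℝ, 0 < t →
      (mu ν) {x | Real.exp t ≤ Z κ n x} ≤ ENNReal.ofReal (A * n * Real.exp (-t / (4 * b))) := by
  -- the constant
  set c : ℝ≥0∞ := ∫⁻ e, ENNReal.ofReal (-Real.log (a e)) ∂ν with hc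
  have hla : ∀ e, Real.log (a e) ≤ 0 := fun e => Real.log_nonpos (ha0 e).le (ha1 e)
  have hcfin : c ≠ ∞ := by
    have h := hai.neg.lintegral_lt_top
    exact h.ne
  set C : ℝ := c.toReal with hC
  have hC0 : 0 ≤ C := ENNReal.toReal_nonneg
  refine ⟨4 * Real.exp (3 * C / (2 * b)), by positivity, ?_⟩
  intro n hn t ht
  have hb0 : (0 : ℝ) < b := by linarith
  have hn1 : 1 ≤ n := le_trans hn₀ hn
  have hnR : (1 : ℝ) ≤ n := by exact_mod_cast hn1
  -- one-site functions
  have hcoord : ∀ k, ∫⁻ x : ℕ → E, ENNReal.ofReal (-Real.log (a (x k))) ∂(mu ν) = c := by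
    intro k
    have hmeas : Measurable (fun e => ENNReal.ofReal (-Real.log (a e))) :=
      ((Real.measurable_log.comp ham).neg).ennreal_ofReal
    have h := (measurePreserving_eval_infinitePi (fun _ : ℕ => ν) k).lintegral_comp hmeas
    exact h
  set G : Set (ℕ → E) := {x | Real.exp t ≤ Z κ n x} with hG
  have hZm : ∀ m, Measurable (Z κ m) := fun m => Z_meas hκ.meas m
  have hGm : MeasurableSet G := measurableSet_le measurable_const (hZm n)
  have hGd : Dep n (fun x => x ∈ G) := by
    intro x y hxy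
    have := Z_dep hκ.dep n x y hxy
    simp only [hG, Set.mem_setOf_eq, this]
  set P : ℝ≥0∞ := (mu ν) G with hP
  have hPle : P ≤ 1 := prob_le_one
  have hPfin : P ≠ ∞ := measure_ne_top _ _
  set p : ℝ := P.toReal with hp
  have hp0 : 0 ≤ p := ENNReal.toReal_nonneg
  have hp1 : p ≤ 1 := by
    have := ENNReal.toReal_mono ENNReal.one_ne_top hPle
    simpa using this
  suffices h : p ≤ 4 * Real.exp (3 * C / (2 * b)) * n * Real.exp (-t / (4 * b)) by
    rw [← ENNReal.ofReal_toReal hPfin]
    exact ENNReal.ofReal_le_ofReal h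
  rcases eq_or_lt_of_le hp0 with hpz | hppos
  · rw [← hpz]; positivity
  -- number of blocks
  set Q : ℕ := ⌈1 / p⌉₊ with hQ
  have hQ1 : 1 / p ≤ Q := Nat.le_ceil _
  have hQ2 : (Q : ℝ) < 1 / p + 1 := Nat.ceil_lt_add_one (by positivity)
  have hinv : 1 ≤ 1 / p := by rw [le_div_iff₀ hppos]; linarith
  set N : ℕ := (Q + 2) * n with hN
  have hNn : n ≤ N := by rw [hN]; nlinarith
  have hNR : (1 : ℝ) ≤ N := by exact_mod_cast le_trans hn1 hNn
  have hN0 : (0 : ℝ) < N := by linarith
  -- good blocks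
  set Gi : ℕ → Set (ℕ → E) := fun i => (sh (i * n)) ⁻¹' G with hGi
  have hGim : ∀ i, MeasurableSet (Gi i) := fun i => measurable_sh (i * n) hGm
  set U : Set (ℕ → E) := ⋃ i ∈ Finset.range Q, Gi (i + 1) with hU
  have hUm : MeasurableSet U := by
    refine Finset.measurableSet_biUnion _ fun i _ => hGim _
  -- probability of a good block
  have hUc : (mu ν) Uᶜ = (1 - P) ^ Q := by
    have h1 := measure_iter (ν := ν) (n := n) (A := Gᶜ) hGm.compl (by
      intro x y hxy
      have := hGd x y hxy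
      simp only [Set.mem_compl_iff, this]) Q
    have h2 : Uᶜ = (sh n) ⁻¹' {x : ℕ → E | ∀ i, i < Q → sh (i * n) x ∈ Gᶜ} := by
      ext x
      simp only [hU, hGi, Set.mem_compl_iff, Set.mem_iUnion, Finset.mem_range, Set.mem_preimage,
        Set.mem_setOf_eq, not_exists, exists_prop, not_and]
      refine forall_congr' fun i => forall_congr' fun _ => ?_
      rw [sh_sh, show n + i * n = (i + 1) * n by ring]
    have h3 : MeasurableSet {x : ℕ → E | ∀ i, i < Q → sh (i * n) x ∈ Gᶜ} := by
      have : {x : ℕ → E | ∀ i, i < Q → sh (i * n) x ∈ Gᶜ} =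
          ⋂ i ∈ Finset.range Q, (sh (i * n)) ⁻¹' Gᶜ := by
        ext x
        simp
      rw [this]
      exact Finset.measurableSet_biInter _ fun i _ => measurable_sh _ hGm.compl
    rw [h2, (mp_sh n).measure_preimage h3.nullMeasurableSet, h1, prob_compl_eq_one_sub hGm]
  have hUreal : 1 / 2 ≤ ((mu ν) U).toReal := by
    have h1 : ((mu ν) Uᶜ).toReal = (1 - p) ^ Q := by
      rw [hUc, ENNReal.toReal_pow, ENNReal.toReal_sub_of_le hPle ENNReal.one_ne_top]
      simp [hp]
    have h2 : ((mu ν) Uᶜ).toReal = 1 - ((mu ν) U).toReal := by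
      rw [prob_compl_eq_one_sub hUm, ENNReal.toReal_sub_of_le prob_le_one ENNReal.one_ne_top]
      simp
    have h3 : (1 - p) ^ Q ≤ 1 / 2 := by
      have h4 : (1 - p) ^ Q ≤ Real.exp (-p) ^ Q := by
        refine pow_le_pow_left₀ (by linarith) ?_ Q
        have := Real.add_one_le_exp (-p)
        linarith
      have h5 : Real.exp (-p) ^ Q = Real.exp (-(p * Q)) := by
        rw [← Real.exp_nat_mul]
        congr 1
        ring
      have h6 : 1 ≤ p * Q := by
        rw [div_le_iff₀ hppos] at hQ1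
        linarith
      have h7 : Real.exp (-(p * Q)) ≤ Real.exp (-1) := Real.exp_le_exp.2 (by linarith)
      have h8 : Real.exp (-1) ≤ 1 / 2 := by
        rw [Real.exp_neg, one_div]
        refine inv_anti₀ (by norm_num) ?_
        have := Real.add_one_le_exp (1 : ℝ)
        linarith
      linarith
    linarith
  -- pointwise lower bound
  set Ng : (ℕ → E) → ℝ := fun x => 2 * b * Real.log N + (-Real.log (a (x (N - 1)))) +
    ∑ i ∈ Finset.range Q, (Gi (i + 1)).indicator (fun x => -Real.log (a (x ((i + 1) * n - 1)))) x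
    with hNg
  have hlogN : 0 ≤ Real.log N := Real.log_nonneg hNR
  have hpt : ∀ x, t * U.indicator 1 x - Ng x ≤ Real.log (Z κ N x) := by
    intro x
    have hZ0 : ∀ m y, 0 ≤ Z κ m y := Z_nonneg hκ.nonneg
    have hterm : ∀ i ∈ Finset.range Q,
        0 ≤ (Gi (i + 1)).indicator (fun x => -Real.log (a (x ((i + 1) * n - 1)))) x := by
      intro i _
      refine Set.indicator_nonneg (fun y _ => ?_) x
      linarith [hla (y ((i + 1) * n - 1))]
    have hrp : (0 : ℝ) < (N : ℝ) ^ (-b) := Real.rpow_pos_of_pos hN0 _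
    have hlrp : Real.log ((N : ℝ) ^ (-b)) = -b * Real.log N := Real.log_rpow hN0 _
    by_cases hx : x ∈ U
    · rw [Set.indicator_of_mem hx]
      simp only [hU, Set.mem_iUnion, Finset.mem_range, exists_prop] at hx
      obtain ⟨i, hiQ, hxi⟩ := hx
      have hi' : i ∈ Finset.range Q := Finset.mem_range.2 hiQ
      have h1 := Finset.single_le_sum hterm hi'
      rw [Set.indicator_of_mem hxi] at h1
      -- the product bound
      have hxi' : Real.exp t ≤ Z κ n (sh ((i + 1) * n) x) := hxi
      have hin : n ≤ (i + 1) * n := by nlinarith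
      have hiN : (i + 1) * n ≤ N := by
        rw [hN]
        exact Nat.mul_le_mul_right n (by omega)
      set m3 : ℕ := (Q - i) * n with hm3
      have hm3n : n ≤ m3 := by
        rw [hm3]
        exact Nat.le_mul_of_pos_left n (by omega)
      have hm3N : m3 ≤ N := by
        rw [hm3, hN]
        exact Nat.mul_le_mul_right n (by omega)
      have hsum : (i + 1) * n + (n + m3) = N := by
        rw [hm3, hN]
        have : Q + 2 = (i + 1) + (1 + (Q - i)) := by omega
        rw [this]
        ring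
      have k1 := ker_low hb hn₀ ha0 hlow (le_trans hn hin) hiN x
      have k2 := kernel_le_Z hκ.nonneg (by omega : 1 ≤ (i + 1) * n) x
      have k3 := ker_low hb hn₀ ha0 hlow (le_trans hn hm3n) hm3N (sh n (sh ((i + 1) * n) x))
      have k4 := kernel_le_Z hκ.nonneg (by omega : 1 ≤ m3) (sh n (sh ((i + 1) * n) x))
      have k5 := Z_supermul hκ.nonneg n m3 (sh ((i + 1) * n) x)
      have k6 := Z_supermul hκ.nonneg ((i + 1) * n) (n + m3) x
      rw [hsum] at k6
      have k7 : (sh n (sh ((i + 1) * n) x)) (m3 - 1) = x (N - 1) := by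
        rw [sh_sh]
        simp only [sh]
        congr 1
        omega
      rw [k7] at k3
      have a1 := ha0 (x ((i + 1) * n - 1))
      have a2 := ha0 (x (N - 1))
      have hprod : ((N : ℝ) ^ (-b) * a (x ((i + 1) * n - 1))) *
          (Real.exp t * ((N : ℝ) ^ (-b) * a (x (N - 1)))) ≤ Z κ N x := by
        refine le_trans (mul_le_mul (k1.trans k2) ?_ (by positivity) (hZ0 _ _)) k6
        exact le_trans (mul_le_mul hxi' (k3.trans k4) (by positivity) (hZ0 _ _)) k5
      have hlg := Real.log_le_log (by positivity) hprod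
      rw [Real.log_mul (by positivity) (by positivity), Real.log_mul hrp.ne' a1.ne',
        Real.log_mul (Real.exp_pos t).ne' (by positivity), Real.log_mul hrp.ne' a2.ne',
        Real.log_exp, hlrp] at hlg
      simp only [hNg, Pi.one_apply]
      linarith
    · rw [Set.indicator_of_notMem hx]
      have h1 := Finset.sum_nonneg hterm
      have k1 := ker_low hb hn₀ ha0 hlow (le_trans hn hNn) le_rfl x
      have k2 := kernel_le_Z hκ.nonneg (by omega : 1 ≤ N) x
      have a2 := ha0 (x (N - 1))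
      have hlg := Real.log_le_log (by positivity) (k1.trans k2)
      rw [Real.log_mul hrp.ne' a2.ne', hlrp] at hlg
      simp only [hNg]
      nlinarith
  -- integral of the negative part
  have hNg0 : ∀ x, 0 ≤ Ng x := by
    intro x
    have hterm : ∀ i ∈ Finset.range Q,
        0 ≤ (Gi (i + 1)).indicator (fun x => -Real.log (a (x ((i + 1) * n - 1)))) x := by
      intro i _
      refine Set.indicator_nonneg (fun y _ => ?_) x
      linarith [hla (y ((i + 1) * n - 1))]
    have h1 := Finset.sum_nonneg hterm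
    have h2 := hla (x (N - 1))
    simp only [hNg]
    have h3 : 0 ≤ 2 * b * Real.log N := by positivity
    linarith
  have hlam : ∀ k, Measurable (fun x : ℕ → E => -Real.log (a (x k))) := fun k =>
    (Real.measurable_log.comp (ham.comp (measurable_pi_apply k))).neg
  have hNgm : Measurable Ng := by
    simp only [hNg]
    refine (measurable_const.add (hlam _)).add ?_
    refine Finset.measurable_sum _ fun i _ => ?_
    exact (hlam _).indicator (hGim _)
  have hlint : ∫⁻ x, ENNReal.ofReal (Ng x) ∂(mu ν) =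
      ENNReal.ofReal (2 * b * Real.log N) + c + Q * (c * P) := by
    have e : ∀ x, ENNReal.ofReal (Ng x) = ENNReal.ofReal (2 * b * Real.log N) +
        ENNReal.ofReal (-Real.log (a (x (N - 1)))) +
        ∑ i ∈ Finset.range Q, ENNReal.ofReal (-Real.log (a (x ((i + 1) * n - 1)))) *
          G.indicator 1 (sh ((i + 1) * n) x) := by
      intro x
      have hterm : ∀ i ∈ Finset.range Q,
          0 ≤ (Gi (i + 1)).indicator (fun x => -Real.log (a (x ((i + 1) * n - 1)))) x := by
        intro i _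
        refine Set.indicator_nonneg (fun y _ => ?_) x
        linarith [hla (y ((i + 1) * n - 1))]
      simp only [hNg]
      rw [ENNReal.ofReal_add, ENNReal.ofReal_add, ENNReal.ofReal_sum_of_nonneg hterm]
      · congr 1
        refine Finset.sum_congr rfl fun i _ => ?_
        by_cases hx : sh ((i + 1) * n) x ∈ G
        · have hx' : x ∈ Gi (i + 1) := hx
          rw [Set.indicator_of_mem hx', Set.indicator_of_mem hx]
          simp
        · have hx' : x ∉ Gi (i + 1) := hx
          rw [Set.indicator_of_notMem hx', Set.indicator_of_notMem hx]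
          simp
      · positivity
      · linarith [hla (x (N - 1))]
      · have h3 : 0 ≤ 2 * b * Real.log N := by positivity
        linarith [hla (x (N - 1))]
      · exact Finset.sum_nonneg hterm
    simp only [e]
    rw [lintegral_add_left, lintegral_add_left measurable_const, lintegral_const, hcoord,
      lintegral_finset_sum]
    · simp only [measure_univ, mul_one]
      congr 1
      have h1 : ∀ i ∈ Finset.range Q, ∫⁻ x, ENNReal.ofReal (-Real.log (a (x ((i + 1) * n - 1)))) *
          G.indicator 1 (sh ((i + 1) * n) x) ∂(mu ν) = c * P := by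
        intro i _
        rw [lintegral_mul_sh (m := (i + 1) * n)
          (f := fun x => ENNReal.ofReal (-Real.log (a (x ((i + 1) * n - 1)))))
          (g := fun x => G.indicator 1 x) (hlam _).ennreal_ofReal
          (measurable_one.indicator hGm), hcoord, lintegral_indicator_one hGm]
        intro x y hxy
        have : 1 ≤ (i + 1) * n := by nlinarith
        simp only [hxy ((i + 1) * n - 1) (by omega)]
      rw [Finset.sum_congr rfl h1]
      simp
    · intro i _
      exact (hlam _).ennreal_ofReal.mul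
        ((measurable_one.indicator hGm).comp (measurable_sh _))
    · exact measurable_const.add (hlam _).ennreal_ofReal
  have hfin : ENNReal.ofReal (2 * b * Real.log N) + c + Q * (c * P) ≠ ∞ := by
    refine ENNReal.add_ne_top.2 ⟨ENNReal.add_ne_top.2 ⟨ENNReal.ofReal_ne_top, hcfin⟩, ?_⟩
    exact ENNReal.mul_ne_top (ENNReal.natCast_ne_top _) (ENNReal.mul_ne_top hcfin hPfin)
  have hNgi : Integrable Ng (mu ν) := by
    refine ⟨hNgm.aestronglyMeasurable, ?_⟩
    rw [hasFiniteIntegral_iff_ofReal (Filter.Eventually.of_forall hNg0), hlint]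
    exact lt_top_iff_ne_top.2 hfin
  have hNgint : ∫ x, Ng x ∂(mu ν) = 2 * b * Real.log N + C + Q * (C * p) := by
    rw [integral_eq_lintegral_of_nonneg_ae (Filter.Eventually.of_forall hNg0)
      hNgm.aestronglyMeasurable, hlint, ENNReal.toReal_add, ENNReal.toReal_add,
      ENNReal.toReal_ofReal (by positivity), ENNReal.toReal_mul, ENNReal.toReal_mul]
    · simp [hC, hp]
    · exact ENNReal.ofReal_ne_top
    · exact hcfin
    · exact ENNReal.add_ne_top.2 ⟨ENNReal.ofReal_ne_top, hcfin⟩
    · exact ENNReal.mul_ne_top (ENNReal.natCast_ne_top _) (ENNReal.mul_ne_top hcfin hPfin)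
  have hindi : Integrable (fun x => t * U.indicator (1 : (ℕ → E) → ℝ) x) (mu ν) :=
    ((integrable_const (1 : ℝ)).indicator hUm).const_mul t
  have hfinal : t * ((mu ν) U).toReal - (2 * b * Real.log N + C + Q * (C * p)) ≤ 0 := by
    refine le_trans ?_ (hlog N (le_trans hn hNn))
    have h1 := integral_mono (hindi.sub hNgi) (hint N (le_trans hn hNn)) hpt
    have h2 : ∫ x, (t * U.indicator (1 : (ℕ → E) → ℝ) x - Ng x) ∂(mu ν) =
        t * ((mu ν) U).toReal - (2 * b * Real.log N + C + Q * (C * p)) := by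
      rw [integral_sub hindi hNgi, integral_const_mul, integral_indicator_one hUm, hNgint]
      rfl
    rw [← h2]
    exact h1
  -- conclude
  have hQp : (Q : ℝ) * p ≤ 2 := by
    have : (Q : ℝ) * p ≤ (1 / p + 1) * p := mul_le_mul_of_nonneg_right hQ2.le hp0
    have h2 : (1 / p + 1) * p = 1 + p := by field_simp
    linarith
  have h1 : t / 2 ≤ 2 * b * Real.log N + 3 * C := by
    have h2 : t * (1 / 2) ≤ t * ((mu ν) U).toReal := mul_le_mul_of_nonneg_left hUreal ht.le
    have h3 : (Q : ℝ) * (C * p) ≤ 2 * C := by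
      have := mul_le_mul_of_nonneg_left hQp hC0
      nlinarith
    linarith
  have h2 : Real.exp ((t / 2 - 3 * C) / (2 * b)) ≤ N := by
    rw [← Real.le_log_iff_exp_le hN0, div_le_iff₀ (by positivity)]
    linarith
  have h3 : (N : ℝ) * p ≤ 4 * n := by
    rw [hN]
    push_cast
    nlinarith [hQp, hp1, hnR]
  have h4 : Real.exp ((t / 2 - 3 * C) / (2 * b)) * p ≤ 4 * n :=
    le_trans (mul_le_mul_of_nonneg_right h2 hp0) h3
  have h5 : Real.exp (3 * C / (2 * b)) * Real.exp (-t / (4 * b)) *
      Real.exp ((t / 2 - 3 * C) / (2 * b)) = 1 := by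
    rw [← Real.exp_add, ← Real.exp_add, ← Real.exp_zero]
    congr 1
    field_simp
    ring
  have h6 : p = Real.exp (3 * C / (2 * b)) * Real.exp (-t / (4 * b)) *
      (Real.exp ((t / 2 - 3 * C) / (2 * b)) * p) := by
    rw [← mul_assoc, h5, one_mul]
  rw [h6]
  have h7 : 0 < Real.exp (3 * C / (2 * b)) * Real.exp (-t / (4 * b)) := by positivity
  have := mul_le_mul_of_nonneg_left h4 h7.le
  linarith

theorem exists_good {κ : ℕ → (ℕ → E) → ℝ} (hκ : IsKernel κ) {b : ℝ} (hb : 1 ≤ b) {n₀ : ℕ}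
    (hn₀ : 1 ≤ n₀) {a : E → ℝ} (ham : Measurable a) (ha0 : ∀ e, 0 < a e) (ha1 : ∀ e, a e ≤ 1)
    (hai : Integrable (fun e => Real.log (a e)) ν)
    (hlow : ∀ n, n₀ ≤ n → ∀ x : ℕ → E, (n : ℝ) ^ (-b) * a (x (n - 1)) ≤ κ n x)
    (hint : ∀ n, n₀ ≤ n → Integrable (fun x => Real.log (Z κ n x)) (mu ν))
    (hlog : ∀ n, n₀ ≤ n → ∫ x, Real.log (Z κ n x) ∂(mu ν) ≤ 0) :
    ∃ θ₀ : ℝ, 0 < θ₀ ∧ θ₀ < 1 ∧ ∀ n, mom ν θ₀ (Z κ n) ≤ 1 := by
  obtain ⟨A, hA, htail⟩ := rare_tail hκ hb hn₀ ham ha0 ha1 hai hlow hint hlog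
  have hb0 : (0 : ℝ) < b := by linarith
  obtain ⟨C, hC, hmom⟩ := mom_of_tail (E := E) (ν := ν) (θ := 1 / (8 * b)) (θ' := 1 / (4 * b))
    (by positivity) (by
      rw [div_lt_div_iff₀ (by positivity) (by positivity)]
      linarith)
  refine ⟨1 / (8 * b), by positivity, ?_, ?_⟩
  · rw [div_lt_one (by positivity)]
    linarith
  refine good_of_linear hκ (by positivity) (C := C * (1 + A)) (n₀ := n₀) ?_
  intro n hn
  have h1 := hmom (A * n) (by positivity) (Z κ n) (Z_meas hκ.meas n)
    (Z_nonneg hκ.nonneg n) (by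
      intro k hk
      have hk' : (0 : ℝ) < k := by exact_mod_cast (by omega : 0 < k)
      have h := htail n hn k hk'
      have e : -(k : ℝ) / (4 * b) = -(1 / (4 * b)) * k := by ring
      rw [e] at h
      exact h)
  refine le_trans h1 (ENNReal.ofReal_le_ofReal ?_)
  have hn' : (0 : ℝ) ≤ n := by positivity
  have : 1 + A * (n : ℝ) ≤ (1 + A) * (n + 1) := by nlinarith
  calc C * (1 + A * n) ≤ C * ((1 + A) * (n + 1)) := mul_le_mul_of_nonneg_left this hC.le
    _ = C * (1 + A) * (n + 1) := by ring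

end Copoly
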