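import Pool.Agent.Work.MP_fd21e9_pr.Free
import Pool.Agent.Work.MP_fd21e9_pr.S1

/-! # The free energy as a function of `h` and the critical point -/

open MeasureTheory ProbabilityTheory Filter Topology
open scoped ENNReal

namespace Copoly

variable {ν : Measure ℝ} {K : ℕ → ℝ} {α lam : ℝ}

/-- The free energy function and the critical point, with all elementary properties. -/
theorem critical_exists (hν : ChargeLaw ν) (hα : 0 < α) (hK : InterArrival α K) (hlam : 0 < lam) :
    ∃ f : ℝ → ℝ, (∀ h, Tendsto (fun N : ℕ => AA ν K lam h N / N) atTop (𝓝 (f h))) ∧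
      (∀ h (n : ℕ), 1 ≤ n → 0 < K n →
        (∫ x, Real.log (Z (ker K lam h) n x) ∂(mu ν)) / n ≤ f h) ∧
      (∀ h (L : ℕ), 1 ≤ L →
        f h ≤ (∫ x, Real.log (Rb (ker K lam h) (uker lam h) L x) ∂(mu ν)) / L) ∧
      (∀ h, 0 ≤ f h) ∧
      (∀ h h', h' ≤ h → f h ≤ f h' ∧ f h' ≤ f h + 2 * lam * (h - h')) ∧
      ∃ hc : ℝ, (∀ h : ℝ, 0 < f h ↔ h < hc) ∧ f hc = 0 ∧ 1 ≤ qq ν lam hc 1 ∧
        ∃ θ₀ : ℝ, 0 < θ₀ ∧ θ₀ < 1 ∧ ∀ n, mom ν θ₀ (Z (ker K lam hc) n) ≤ 1 := by
  have hνp : IsProbabilityMeasure ν := hν.prob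
  choose f hf1 hf2 hf3 using fun h => free_energy hν hα hK hlam h
  have hnonneg : ∀ h, 0 ≤ f h := fun h => free_nonneg hν hα hK hlam (hf1 h)
  have hmono : ∀ h h' : ℝ, h' ≤ h → f h ≤ f h' ∧ f h' ≤ f h + 2 * lam * (h - h') :=
    fun h h' hh => free_mono hν hK hlam hh (hf1 _) (hf1 _)
  have hann : ∀ h, qq ν lam h 1 ≤ 1 → f h ≤ 0 := fun h hq => free_ann hν hK hlam (hf1 h) hq
  refine ⟨f, hf1, hf2, hf3, hnonneg, hmono, ?_⟩
  -- the critical point
  set S : Set ℝ := {h | 0 < f h} with hS
  have hSne : (-1 : ℝ) ∈ S := by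
    have := free_lower hν hα hK hlam (hf1 (-1))
    have : 0 < f (-1) := by linarith
    exact this
  have hSb : BddAbove S := by
    refine ⟨Real.log (qq ν lam 0 1) / (2 * lam), ?_⟩
    intro h hh
    by_contra hc
    push Not at hc
    have hq : qq ν lam h 1 ≤ 1 := by
      have h1 := qq_shift hν lam 0 1 (-h)
      have h2 : qq ν lam h 1 = Real.exp (2 * lam * 1 * -h) * qq ν lam 0 1 := by
        rw [← h1]; congr 1; ring
      rw [h2]
      have hpos := qq_pos hν lam 0 1
      rw [← Real.exp_log hpos, ← Real.exp_add]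
      apply Real.exp_le_one_iff.2
      rw [div_lt_iff₀ (by linarith)] at hc
      linarith
    have := hann h hq
    have hh' : 0 < f h := hh
    linarith
  set hc := sSup S with hhc
  have hiff : ∀ h : ℝ, 0 < f h ↔ h < hc := by
    intro h
    constructor
    · intro hpos
      have hmem : h + f h / (4 * lam) ∈ S := by
        have hle : h ≤ h + f h / (4 * lam) := by
          have : 0 ≤ f h / (4 * lam) := by positivity
          linarith
        have h2 := (hmono _ _ hle).2
        have h3 : 2 * lam * (h + f h / (4 * lam) - h) = f h / 2 := by field_simp; ring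
        have : 0 < f (h + f h / (4 * lam)) := by linarith
        exact this
      have h4 := le_csSup hSb hmem
      have : 0 < f h / (4 * lam) := by positivity
      linarith
    · intro hlt
      obtain ⟨h', hh', hlt'⟩ := exists_lt_of_lt_csSup ⟨_, hSne⟩ hlt
      have := (hmono _ _ hlt'.le).1
      have h5 : 0 < f h' := hh'
      linarith
  have hfc : f hc = 0 := by
    have h1 := hnonneg hc
    by_contra hne
    have : 0 < f hc := lt_of_le_of_ne h1 (Ne.symm hne)
    exact lt_irrefl _ ((hiff hc).1 this)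
  have hqc : 1 ≤ qq ν lam hc 1 := by
    by_contra hlt
    push Not at hlt
    have hpos := qq_pos hν lam hc 1
    set ε := -Real.log (qq ν lam hc 1) / (2 * lam) with hε
    have hεpos : 0 < ε := by
      have : Real.log (qq ν lam hc 1) < 0 := Real.log_neg hpos hlt
      rw [hε]; apply div_pos <;> linarith
    have hq : qq ν lam (hc - ε) 1 ≤ 1 := by
      rw [qq_shift hν]
      conv_lhs => rw [← Real.exp_log hpos]
      rw [← Real.exp_add]
      apply Real.exp_le_one_iff.2
      have : 2 * lam * 1 * ε = -Real.log (qq ν lam hc 1) := by rw [hε]; field_simp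
      rw [this]; linarith
    have h1 := hann _ hq
    have h2 := (hiff (hc - ε)).2 (by linarith)
    linarith
  refine ⟨hc, hiff, hfc, hqc, ?_⟩
  obtain ⟨n₀, hn₀, hlowK⟩ := K_lower hα hK
  have hKpos : ∀ n, n₀ ≤ n → 0 < K n := by
    intro n hn
    have h1 := hlowK n hn
    have hn' : (0 : ℝ) < n := by
      have : 1 ≤ n := le_trans hn₀ hn
      exact_mod_cast this
    have : 0 < (n : ℝ) ^ (-(2 + α)) := Real.rpow_pos_of_pos hn' _
    linarith
  exact exists_good (ν := ν) (isKernel_ker hK.nonneg lam hc) (b := 2 + α) (by linarith) hn₀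
    (a := fun _ => 1) measurable_const (fun _ => one_pos) (fun _ => le_rfl) (by simp)
    (fun n hn x => by
      have h1 := hlowK n hn
      have h2 := ker_lower (lam := lam) (h := hc) hK.nonneg n x
      linarith)
    (fun n hn => logZ_integrable hν hK hc (le_trans hn₀ hn) (hKpos n hn))
    (fun n hn => by
      have h1 := hf2 hc n (le_trans hn₀ hn) (hKpos n hn)
      rw [hfc] at h1
      have hn' : (0 : ℝ) < n := by
        have : 1 ≤ n := le_trans hn₀ hn
        exact_mod_cast this
      rw [div_le_iff₀ hn'] at h1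
      simpa using h1)

end Copoly
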