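import Pool.Agent.Work.MP_fd21e9_pr.Prob

/-! # The copolymer kernels -/

open MeasureTheory ProbabilityTheory
open scoped ENNReal

namespace Copoly

/-- Energy of a negative excursion covering the first `n` charges. -/
noncomputable def En (lam h : ℝ) (n : ℕ) (x : ℕ → ℝ) : ℝ :=
  -2 * lam * ∑ j ∈ Finset.range n, (x j + h)

/-- Weight of a complete excursion. -/
noncomputable def ker (K : ℕ → ℝ) (lam h : ℝ) (n : ℕ) (x : ℕ → ℝ) : ℝ :=
  K n * ((1 + Real.exp (En lam h n x)) / 2)

/-- Probability that the first gap is larger than `m`. -/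
noncomputable def Kbar (K : ℕ → ℝ) (m : ℕ) : ℝ := 1 - ∑ i ∈ Finset.range (m + 1), K i

/-- Weight of an incomplete excursion. -/
noncomputable def kerf (K : ℕ → ℝ) (lam h : ℝ) (m : ℕ) (x : ℕ → ℝ) : ℝ :=
  Kbar K m * ((1 + Real.exp (En lam h m x)) / 2)

/-- Increase of the excursion weight when `h` is lowered by `δ`. -/
noncomputable def rker (K : ℕ → ℝ) (lam h δ : ℝ) (n : ℕ) (x : ℕ → ℝ) : ℝ :=
  K n * (Real.exp (En lam h n x) * (Real.exp (2 * lam * δ * n) - 1) / 2)

/-- Cutting weight. -/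
noncomputable def uker (lam h : ℝ) (n : ℕ) (x : ℕ → ℝ) : ℝ :=
  if n = 0 then 1 else 1 + Real.exp (En lam h n x)

/-- One-site majorant. -/
noncomputable def gfun (lam h : ℝ) (e : ℝ) : ℝ := 1 + Real.exp (-2 * lam * (e + h))

/-- Inter-arrival law: `K` is a probability on the positive integers with
`K n * n ^ (1 + α) → c > 0`. -/
structure InterArrival (α : ℝ) (K : ℕ → ℝ) : Prop where
  nonneg : ∀ n, 0 ≤ K n
  zero : K 0 = 0
  sum : HasSum K 1
  tail : ∃ c : ℝ, 0 < c ∧ Filter.Tendsto (fun n : ℕ => K n * (n : ℝ) ^ (1 + α)) Filter.atTop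
    (nhds c)

section
variable {K : ℕ → ℝ} {α lam h : ℝ}

theorem K_sum_le (hK : InterArrival α K) (n : ℕ) : ∑ i ∈ Finset.Icc 1 n, K i ≤ 1 := by
  exact sum_le_hasSum _ (fun i _ => hK.nonneg i) hK.sum

theorem Kbar_nonneg (hK : InterArrival α K) (n : ℕ) : 0 ≤ Kbar K n := by
  have := sum_le_hasSum (Finset.range (n + 1)) (fun i _ => hK.nonneg i) hK.sum
  simp only [Kbar]
  linarith

theorem Kbar_add (hK : InterArrival α K) (n : ℕ) : Kbar K n + ∑ i ∈ Finset.Icc 1 n, K i = 1 := by
  have h1 : ∑ i ∈ Finset.range (n + 1), K i = ∑ i ∈ Finset.Icc 1 n, K i := by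
    rw [Finset.range_eq_Ico, Finset.sum_eq_sum_Ico_succ_bot (Nat.succ_pos n), hK.zero, zero_add]
    rfl
  simp only [Kbar]
  rw [h1]
  ring

theorem Kbar_succ (n : ℕ) : Kbar K n = Kbar K (n + 1) + K (n + 1) := by
  simp only [Kbar]
  rw [Finset.sum_range_succ _ (n + 1)]
  ring

/-- Polynomial lower bound on `K`. -/
theorem K_lower (hα : 0 < α) (hK : InterArrival α K) :
    ∃ n₀ : ℕ, 1 ≤ n₀ ∧ ∀ n, n₀ ≤ n → 2 * (n : ℝ) ^ (-(2 + α)) ≤ K n := by
  obtain ⟨c, hc, ht⟩ := hK.tail
  have h1 : ∀ᶠ n : ℕ in Filter.atTop, c / 2 ≤ K n * (n : ℝ) ^ (1 + α) :=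
    (ht.eventually (eventually_ge_nhds (by linarith)))
  have h2 : ∀ᶠ n : ℕ in Filter.atTop, 4 / c ≤ (n : ℝ) :=
    tendsto_natCast_atTop_atTop.eventually_ge_atTop _
  obtain ⟨n₀, hn₀⟩ := Filter.eventually_atTop.mp (h1.and (h2.and (Filter.eventually_ge_atTop 1)))
  refine ⟨max n₀ 1, le_max_right _ _, fun n hn => ?_⟩
  obtain ⟨a1, a2, a3⟩ := hn₀ n (le_trans (le_max_left _ _) hn)
  have hn0 : (0 : ℝ) < n := by exact_mod_cast a3
  have hpow : (0 : ℝ) < (n : ℝ) ^ (1 + α) := Real.rpow_pos_of_pos hn0 _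
  have e1 : (n : ℝ) ^ (-(2 + α)) = ((n : ℝ) * (n : ℝ) ^ (1 + α))⁻¹ := by
    rw [Real.rpow_neg hn0.le]
    congr 1
    rw [show (2 + α) = 1 + (1 + α) by ring, Real.rpow_add hn0, Real.rpow_one]
  rw [e1, ← div_eq_mul_inv, div_le_iff₀ (mul_pos hn0 hpow)]
  have h3 : 2 ≤ (n : ℝ) * (c / 2) := by
    rw [div_le_iff₀ hc] at a2
    linarith
  calc (2 : ℝ) ≤ (n : ℝ) * (c / 2) := h3
    _ ≤ (n : ℝ) * (K n * (n : ℝ) ^ (1 + α)) := mul_le_mul_of_nonneg_left a1 hn0.le
    _ = _ := by ring

theorem En_meas (lam h : ℝ) (n : ℕ) : Measurable (En lam h n) := by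
  apply Measurable.const_mul
  apply Finset.measurable_fun_sum
  intro j _
  exact Measurable.add_const (f := fun x : ℕ → ℝ => x j) (measurable_pi_apply j) h

theorem En_dep (lam h : ℝ) (n : ℕ) : Dep n (En lam h n) := by
  intro x y hxy
  simp only [En]
  congr 1
  apply Finset.sum_congr rfl
  intro j hj
  rw [hxy j (Finset.mem_range.mp hj)]

theorem En_add (lam h : ℝ) (m n : ℕ) (x : ℕ → ℝ) :
    En lam h (m + n) x = En lam h m x + En lam h n (sh m x) := by
  simp only [En, sh]
  rw [Finset.sum_range_add, mul_add]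
  congr 2
  apply Finset.sum_congr rfl
  intro j _
  rw [add_comm j m]

theorem isKernel_ker (hK : ∀ n, 0 ≤ K n) (lam h : ℝ) : IsKernel (ker K lam h) := by
  refine ⟨fun n x => mul_nonneg (hK n) (by positivity), fun n => ?_, fun n x y hxy => ?_⟩
  · exact ((measurable_const.add (Real.measurable_exp.comp (En_meas lam h n))).div_const
      2).const_mul _
  · simp only [ker, En_dep lam h n x y hxy]

theorem kerf_nonneg (hK : InterArrival α K) (n : ℕ) (x : ℕ → ℝ) : 0 ≤ kerf K lam h n x := by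
  exact mul_nonneg (Kbar_nonneg hK n) (by positivity)

theorem isKernel_rker (hK : ∀ n, 0 ≤ K n) {lam h δ : ℝ} (hl : 0 < lam) (hδ : 0 ≤ δ) :
    IsKernel (rker K lam h δ) := by
  refine ⟨fun n x => ?_, fun n => ?_, fun n x y hxy => ?_⟩
  · have h1 : (1 : ℝ) ≤ Real.exp (2 * lam * δ * n) := Real.one_le_exp (by positivity)
    exact mul_nonneg (hK n) (div_nonneg (mul_nonneg (Real.exp_pos _).le (by linarith))
      (by norm_num))
  · exact (((Real.measurable_exp.comp (En_meas lam h n)).mul_const _).div_const 2).const_mul _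
  · simp only [rker, En_dep lam h n x y hxy]

theorem isKernel_uker (lam h : ℝ) : IsKernel (uker lam h) := by
  refine ⟨fun n x => ?_, fun n => ?_, fun n x y hxy => ?_⟩
  · simp only [uker]
    split
    · norm_num
    · positivity
  · by_cases hn : n = 0
    · subst hn
      have : uker lam h 0 = fun _ => (1 : ℝ) := by funext x; simp [uker]
      rw [this]
      exact measurable_const
    · have : uker lam h n = fun x => 1 + Real.exp (En lam h n x) := by
        funext x; simp [uker, hn]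
      rw [this]
      exact measurable_const.add (Real.measurable_exp.comp (En_meas lam h n))
  · simp only [uker, En_dep lam h n x y hxy]

theorem one_le_uker (n : ℕ) (x : ℕ → ℝ) : 1 ≤ uker lam h n x := by
  simp only [uker]
  split
  · exact le_rfl
  · have := Real.exp_pos (En lam h n x)
    linarith

theorem uker_zero (x : ℕ → ℝ) : uker lam h 0 x = 1 := by
  simp [uker]

theorem uker_submul (m n : ℕ) (x : ℕ → ℝ) :
    uker lam h (m + n) x ≤ uker lam h m x * uker lam h n (sh m x) := by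
  by_cases hm : m = 0
  · subst hm
    rw [uker_zero, one_mul, sh_zero, zero_add]
  by_cases hn : n = 0
  · subst hn
    rw [uker_zero, mul_one, add_zero]
  have hmn : m + n ≠ 0 := by omega
  simp only [uker, hm, hn, hmn, if_false]
  rw [En_add, Real.exp_add]
  have h1 := Real.exp_pos (En lam h m x)
  have h2 := Real.exp_pos (En lam h n (sh m x))
  nlinarith

theorem ker_le_uker (hK : ∀ n, 0 ≤ K n) (n : ℕ) (x : ℕ → ℝ) (hn : 1 ≤ n) :
    ker K lam h n x ≤ K n * uker lam h n x := by
  have hn0 : n ≠ 0 := by omega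
  simp only [ker, uker, hn0, if_false]
  apply mul_le_mul_of_nonneg_left _ (hK n)
  have h1 := Real.exp_pos (En lam h n x)
  linarith

theorem kerf_le_uker (hK : InterArrival α K) (n : ℕ) (x : ℕ → ℝ) :
    kerf K lam h n x ≤ Kbar K n * uker lam h n x := by
  simp only [kerf]
  apply mul_le_mul_of_nonneg_left _ (Kbar_nonneg hK n)
  by_cases hn : n = 0
  · subst hn
    simp [uker, En]
  · simp only [uker, hn, if_false]
    have h1 := Real.exp_pos (En lam h n x)
    linarith

theorem ker_pert (δ : ℝ) (n : ℕ) (x : ℕ → ℝ) :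
    ker K lam (h - δ) n x = ker K lam h n x + rker K lam h δ n x := by
  have h1 : En lam (h - δ) n x = En lam h n x + 2 * lam * δ * n := by
    simp only [En, Finset.sum_add_distrib, Finset.sum_const, Finset.card_range, nsmul_eq_mul]
    ring
  simp only [ker, rker, h1, Real.exp_add]
  ring

theorem one_le_gfun (e : ℝ) : 1 ≤ gfun lam h e := by
  have := Real.exp_pos (-2 * lam * (e + h))
  simp only [gfun]
  linarith

theorem measurable_gfun (lam h : ℝ) : Measurable (gfun lam h) := by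
  exact measurable_const.add (Real.measurable_exp.comp ((measurable_id.add_const h).const_mul _))

theorem gfun_anti (hl : 0 < lam) {h' : ℝ} (hh : h' ≤ h) (e : ℝ) :
    gfun lam h e ≤ gfun lam h' e := by
  simp only [gfun]
  have : Real.exp (-2 * lam * (e + h)) ≤ Real.exp (-2 * lam * (e + h')) := by
    apply Real.exp_le_exp.mpr
    nlinarith
  linarith

theorem uker_crude (n : ℕ) (x : ℕ → ℝ) :
    uker lam h n x ≤ ∏ j ∈ Finset.range n, gfun lam h (x j) := by
  induction n with
  | zero => simp [uker]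
  | succ n ih =>
    have hg : ∀ e, 0 ≤ gfun lam h e := fun e => le_trans zero_le_one (one_le_gfun e)
    rw [Finset.prod_range_succ]
    refine le_trans (uker_submul n 1 x) ?_
    have e1 : uker lam h 1 (sh n x) = gfun lam h (x n) := by
      simp [uker, gfun, En, sh]
    rw [e1]
    exact mul_le_mul_of_nonneg_right ih (hg _)

theorem Zker_crude (hK : InterArrival α K) (n : ℕ) (x : ℕ → ℝ) :
    Z (ker K lam h) n x ≤ ∏ j ∈ Finset.range n, gfun lam h (x j) := by
  apply Z_crude (K := K) (isKernel_ker hK.nonneg lam h).nonneg hK.nonneg (K_sum_le hK)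
    (fun e => le_trans zero_le_one (one_le_gfun e))
  intro n x hn
  exact le_trans (ker_le_uker hK.nonneg n x hn)
    (mul_le_mul_of_nonneg_left (uker_crude n x) (hK.nonneg n))

theorem ker_lower (hK : ∀ n, 0 ≤ K n) (n : ℕ) (x : ℕ → ℝ) : K n / 2 ≤ ker K lam h n x := by
  simp only [ker]
  have h1 := Real.exp_pos (En lam h n x)
  have h2 := hK n
  nlinarith

theorem ker_mono (hK : ∀ n, 0 ≤ K n) (hl : 0 < lam) {h' : ℝ} (hh : h' ≤ h) (n : ℕ) (x : ℕ → ℝ) :
    ker K lam h n x ≤ ker K lam h' n x := by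
  simp only [ker]
  apply mul_le_mul_of_nonneg_left _ (hK n)
  have : Real.exp (En lam h n x) ≤ Real.exp (En lam h' n x) := by
    apply Real.exp_le_exp.mpr
    simp only [En]
    have h1 : ∑ j ∈ Finset.range n, (x j + h') ≤ ∑ j ∈ Finset.range n, (x j + h) :=
      Finset.sum_le_sum fun j _ => by linarith
    nlinarith
  linarith

end

end Copoly
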