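import Pool.Agent.Work.MP_fd21e9_pr.ZAlg

/-! # Perturbation inequality: first marked excursion -/

namespace Copoly

variable {E : Type*}

private theorem reindexA (f : ℕ → ℕ → ℝ) (n : ℕ) :
    ∑ i ∈ Finset.Icc 1 n, ∑ t ∈ Finset.range (n - i + 1), f i (i + t) =
      ∑ u ∈ Finset.Icc 1 n, ∑ i ∈ Finset.Icc 1 u, f i u := by
  rw [Finset.sum_sigma', Finset.sum_sigma']
  refine Finset.sum_nbij' (fun p => ⟨p.1 + p.2, p.1⟩) (fun p => ⟨p.2, p.1 - p.2⟩) ?_ ?_ ?_ ?_ ?_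
  · rintro ⟨i, t⟩ h
    simp only [Finset.mem_sigma, Finset.mem_Icc, Finset.mem_range] at h ⊢
    omega
  · rintro ⟨u, i⟩ h
    simp only [Finset.mem_sigma, Finset.mem_Icc, Finset.mem_range] at h ⊢
    omega
  · rintro ⟨i, t⟩ h
    simp
  · rintro ⟨u, i⟩ h
    simp only [Finset.mem_sigma, Finset.mem_Icc, Finset.mem_range] at h
    have : i + (u - i) = u := by omega
    simp [this]
  · rintro ⟨i, t⟩ h
    rfl

private theorem reindexB (g : ℕ → ℕ → ℕ → ℝ) (n : ℕ) :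
    ∑ i ∈ Finset.Icc 1 n, ∑ t ∈ Finset.Icc 1 (n - i), ∑ s ∈ Finset.range t, g i (i + t) (i + s) =
      ∑ t ∈ Finset.Icc 1 n, ∑ s ∈ Finset.Ico 1 t, ∑ i ∈ Finset.Icc 1 s, g i t s := by
  rw [Finset.sum_sigma', Finset.sum_sigma', Finset.sum_sigma', Finset.sum_sigma']
  refine Finset.sum_nbij' (fun p => ⟨⟨p.1.1 + p.1.2, p.1.1 + p.2⟩, p.1.1⟩)
    (fun p => ⟨⟨p.2, p.1.1 - p.2⟩, p.1.2 - p.2⟩) ?_ ?_ ?_ ?_ ?_
  · rintro ⟨⟨i, t⟩, s⟩ h
    simp only [Finset.mem_sigma, Finset.mem_Icc, Finset.mem_range, Finset.mem_Ico] at h ⊢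
    omega
  · rintro ⟨⟨t, s⟩, i⟩ h
    simp only [Finset.mem_sigma, Finset.mem_Icc, Finset.mem_range, Finset.mem_Ico] at h ⊢
    omega
  · rintro ⟨⟨i, t⟩, s⟩ h
    simp
  · rintro ⟨⟨t, s⟩, i⟩ h
    simp only [Finset.mem_sigma, Finset.mem_Icc, Finset.mem_range, Finset.mem_Ico] at h
    have h1 : i + (t - i) = t := by omega
    have h2 : i + (s - i) = s := by omega
    simp [h1, h2]
  · rintro ⟨⟨i, t⟩, s⟩ h
    rfl

theorem Z_pert {κ κ' r : ℕ → (ℕ → E) → ℝ} {ε : ℝ} (hκ : ∀ n x, 0 ≤ κ n x)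
    (hκ' : ∀ n x, 0 ≤ κ' n x) (hr : ∀ n x, 0 ≤ r n x) (hε : 0 ≤ ε)
    (h : ∀ n x, 1 ≤ n → κ' n x ≤ (1 + ε) * κ n x + r n x) (n : ℕ) (x : ℕ → E) :
    Z κ' n x ≤ Z κ n x
      + ε * ∑ t ∈ Finset.Icc 1 n, Z κ t x * Z κ' (n - t) (sh t x)
      + ∑ t ∈ Finset.Icc 1 n, ∑ s ∈ Finset.range t,
          Z κ s x * r (t - s) (sh s x) * Z κ' (n - t) (sh t x) := by
  induction n using Nat.strong_induction_on generalizing x with
  | _ n ih =>
    rcases Nat.eq_zero_or_pos n with rfl | hn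
    · simp [Z_zero]
    -- the target sums
    have hA : ∑ i ∈ Finset.Icc 1 n, ∑ t ∈ Finset.range (n - i + 1),
          κ i x * Z κ t (sh i x) * Z κ' (n - (i + t)) (sh (i + t) x) =
        ∑ u ∈ Finset.Icc 1 n, Z κ u x * Z κ' (n - u) (sh u x) := by
      have h1 := reindexA (fun i u => κ i x * Z κ (u - i) (sh i x) * Z κ' (n - u) (sh u x)) n
      simp only [Nat.add_sub_cancel_left] at h1
      rw [h1]
      refine Finset.sum_congr rfl (fun u hu => ?_)
      rw [Z_first κ (Finset.mem_Icc.1 hu).1 x, Finset.sum_mul]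
    have hB : ∑ i ∈ Finset.Icc 1 n, ∑ t ∈ Finset.Icc 1 (n - i), ∑ s ∈ Finset.range t,
          κ i x * (Z κ s (sh i x) * r (t - s) (sh (i + s) x) * Z κ' (n - (i + t)) (sh (i + t) x)) =
        ∑ t ∈ Finset.Icc 1 n, ∑ s ∈ Finset.Ico 1 t,
          Z κ s x * r (t - s) (sh s x) * Z κ' (n - t) (sh t x) := by
      have h1 := reindexB (fun i t s => κ i x * (Z κ (s - i) (sh i x) * r (t - s) (sh s x) *
        Z κ' (n - t) (sh t x))) n
      simp only [Nat.add_sub_cancel_left, Nat.add_sub_add_left] at h1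
      rw [h1]
      refine Finset.sum_congr rfl (fun t _ => Finset.sum_congr rfl (fun s hs => ?_))
      rw [Z_first κ (Finset.mem_Ico.1 hs).1 x, Finset.sum_mul, Finset.sum_mul]
      exact Finset.sum_congr rfl (fun i _ => by ring)
    have hC : ∑ t ∈ Finset.Icc 1 n, ∑ s ∈ Finset.range t,
          Z κ s x * r (t - s) (sh s x) * Z κ' (n - t) (sh t x) =
        ∑ t ∈ Finset.Icc 1 n, r t x * Z κ' (n - t) (sh t x) +
        ∑ t ∈ Finset.Icc 1 n, ∑ s ∈ Finset.Ico 1 t,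
          Z κ s x * r (t - s) (sh s x) * Z κ' (n - t) (sh t x) := by
      rw [← Finset.sum_add_distrib]
      refine Finset.sum_congr rfl (fun t ht => ?_)
      have ht1 : 0 < t := (Finset.mem_Icc.1 ht).1
      rw [Finset.range_eq_Ico, Finset.sum_eq_sum_Ico_succ_bot ht1, Z_zero, one_mul, Nat.sub_zero,
        sh_zero]
    rw [hC, ← hA, ← hB]
    have hZ' := Z_nonneg hκ'
    -- split the ε-sum
    have hA' : ∑ i ∈ Finset.Icc 1 n, ∑ t ∈ Finset.range (n - i + 1),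
          κ i x * Z κ t (sh i x) * Z κ' (n - (i + t)) (sh (i + t) x) =
        ∑ i ∈ Finset.Icc 1 n, κ i x * Z κ' (n - i) (sh i x) +
        ∑ i ∈ Finset.Icc 1 n, κ i x * ∑ t ∈ Finset.Icc 1 (n - i),
          Z κ t (sh i x) * Z κ' (n - i - t) (sh t (sh i x)) := by
      rw [← Finset.sum_add_distrib]
      refine Finset.sum_congr rfl (fun i hi => ?_)
      rw [Finset.range_eq_Ico, Finset.sum_eq_sum_Ico_succ_bot (Nat.succ_pos _), Z_zero, mul_one,
        Nat.add_zero, Finset.mul_sum]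
      congr 1
      have hI : Finset.Ico (0 + 1) (n - i + 1) = Finset.Icc 1 (n - i) := by
        ext t; simp only [Finset.mem_Ico, Finset.mem_Icc]; omega
      rw [hI]
      refine Finset.sum_congr rfl (fun t _ => ?_)
      rw [sh_sh, Nat.sub_sub, Nat.add_comm i t, mul_assoc]
    have hB' : ∀ i, ∑ t ∈ Finset.Icc 1 (n - i), ∑ s ∈ Finset.range t,
          κ i x * (Z κ s (sh i x) * r (t - s) (sh (i + s) x) *
            Z κ' (n - (i + t)) (sh (i + t) x)) =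
        κ i x * ∑ t ∈ Finset.Icc 1 (n - i), ∑ s ∈ Finset.range t,
          Z κ s (sh i x) * r (t - s) (sh s (sh i x)) * Z κ' (n - i - t) (sh t (sh i x)) := by
      intro i
      rw [Finset.mul_sum]
      refine Finset.sum_congr rfl (fun t _ => ?_)
      rw [Finset.mul_sum]
      refine Finset.sum_congr rfl (fun s _ => ?_)
      rw [sh_sh, sh_sh, Nat.sub_sub, Nat.add_comm i t, Nat.add_comm i s]
    rw [hA', Finset.sum_congr rfl (fun i _ => hB' i), Z_first κ' hn x, Z_first κ hn x]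
    have key : ∀ i ∈ Finset.Icc 1 n, κ' i x * Z κ' (n - i) (sh i x) ≤
        κ i x * Z κ (n - i) (sh i x) +
        ε * (κ i x * Z κ' (n - i) (sh i x) + κ i x * ∑ t ∈ Finset.Icc 1 (n - i),
          Z κ t (sh i x) * Z κ' (n - i - t) (sh t (sh i x))) +
        (r i x * Z κ' (n - i) (sh i x) + κ i x * ∑ t ∈ Finset.Icc 1 (n - i),
          ∑ s ∈ Finset.range t,
          Z κ s (sh i x) * r (t - s) (sh s (sh i x)) * Z κ' (n - i - t) (sh t (sh i x))) := by
      intro i hi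
      obtain ⟨hi1, hi2⟩ := Finset.mem_Icc.1 hi
      have h1 := mul_le_mul_of_nonneg_right (h i x hi1) (hZ' (n - i) (sh i x))
      have h2 := mul_le_mul_of_nonneg_left (ih (n - i) (by omega) (sh i x)) (hκ i x)
      nlinarith [h1, h2]
    refine (Finset.sum_le_sum key).trans (le_of_eq ?_)
    simp only [Finset.sum_add_distrib, ← Finset.mul_sum, mul_add]

end Copoly
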