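import Pool.Agent.Work.MP_fd21e9_pr.ZAlg

/-! # Product structure of the environment law -/

open MeasureTheory ProbabilityTheory
open scoped ENNReal

namespace Copoly

variable {E : Type*} [MeasurableSpace E] {ν : Measure E} [IsProbabilityMeasure ν]

theorem mp_sh (m : ℕ) : MeasurePreserving (sh m : (ℕ → E) → (ℕ → E)) (mu ν) (mu ν) := by
  refine ⟨measurable_sh m, ?_⟩
  have h := Measure.map_infinitePi_infinitePi_of_inj (P := fun _ : ℕ => ν)
    (f := fun n : ℕ => n + m) (add_left_injective m)
  exact h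

/-- Gluing: the first `m` coordinates of the first environment, then the second one. -/
private def glue (m : ℕ) (p : (ℕ → E) × (ℕ → E)) : ℕ → E :=
  fun n => if n < m then p.1 n else p.2 (n - m)

private theorem measurable_glue (m : ℕ) :
    Measurable (glue m : (ℕ → E) × (ℕ → E) → (ℕ → E)) := by
  refine measurable_pi_iff.2 fun n => ?_
  unfold glue
  by_cases h : n < m
  · simp only [h, if_true]
    exact (measurable_pi_apply n).comp measurable_fst
  · simp only [h, if_false]
    exact (measurable_pi_apply (n - m)).comp measurable_snd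

private theorem mp_glue (m : ℕ) :
    MeasurePreserving (glue m : (ℕ → E) × (ℕ → E) → (ℕ → E)) ((mu ν).prod (mu ν)) (mu ν) := by
  classical
  refine ⟨measurable_glue m, ?_⟩
  refine Measure.eq_infinitePi _ fun s t ht => ?_
  have hms : MeasurableSet ((s : Set ℕ).pi t) := .pi s.countable_toSet fun _ _ => ht _
  rw [Measure.map_apply (measurable_glue m) hms]
  set A : Finset ℕ := s.filter (fun i => i < m) with hA
  set B : Finset ℕ := (s.filter (fun i => ¬ i < m)).image (fun i => i - m) with hB
  have hpre : (glue m : (ℕ → E) × (ℕ → E) → (ℕ → E)) ⁻¹' ((s : Set ℕ).pi t) =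
      ((A : Set ℕ).pi t) ×ˢ ((B : Set ℕ).pi (fun j => t (j + m))) := by
    ext p
    simp only [Set.mem_preimage, Set.mem_pi, Finset.mem_coe, Set.mem_prod, hA, hB,
      Finset.mem_filter, Finset.mem_image]
    constructor
    · intro h
      refine ⟨?_, ?_⟩
      · rintro i ⟨hi, him⟩
        have := h i hi
        simpa [glue, him] using this
      · rintro j ⟨i, ⟨hi, him⟩, rfl⟩
        have := h i hi
        have e : i - m + m = i := by omega
        rw [e]
        simpa [glue, him] using this
    · rintro ⟨h1, h2⟩ i hi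
      by_cases him : i < m
      · simpa [glue, him] using h1 i ⟨hi, him⟩
      · have := h2 (i - m) ⟨i, ⟨hi, him⟩, rfl⟩
        have e : i - m + m = i := by omega
        rw [e] at this
        simpa [glue, him] using this
  rw [hpre, Measure.prod_prod, Measure.infinitePi_pi _ (fun i _ => ht i),
    Measure.infinitePi_pi _ (fun i _ => ht (i + m))]
  have hBprod : ∏ j ∈ B, ν (t (j + m)) = ∏ i ∈ s.filter (fun i => ¬ i < m), ν (t i) := by
    rw [hB, Finset.prod_image]
    · refine Finset.prod_congr rfl fun i hi => ?_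
      have : ¬ i < m := (Finset.mem_filter.1 hi).2
      have e : i - m + m = i := by omega
      rw [e]
    · intro i hi j hj hij
      have h1 : ¬ i < m := (Finset.mem_filter.1 hi).2
      have h2 : ¬ j < m := (Finset.mem_filter.1 hj).2
      simp only at hij
      omega
  rw [hBprod, hA]
  exact Finset.prod_filter_mul_prod_filter_not s (fun i => i < m) (fun i => ν (t i))

/-- Independence of the first `m` coordinates and the shifted environment. -/
theorem lintegral_mul_sh {m : ℕ} {f g : (ℕ → E) → ℝ≥0∞} (hf : Measurable f) (hg : Measurable g)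
    (hd : Dep m f) :
    ∫⁻ x, f x * g (sh m x) ∂(mu ν) = (∫⁻ x, f x ∂(mu ν)) * ∫⁻ x, g x ∂(mu ν) := by
  have hF : Measurable fun x : ℕ → E => f x * g (sh m x) :=
    hf.mul (hg.comp (measurable_sh m))
  rw [← (mp_glue (ν := ν) m).lintegral_comp hF]
  have h1 : ∀ p : (ℕ → E) × (ℕ → E), f (glue m p) * g (sh m (glue m p)) = f p.1 * g p.2 := by
    intro p
    have e1 : f (glue m p) = f p.1 := hd _ _ fun i hi => by simp [glue, hi]
    have e2 : sh m (glue m p) = p.2 := by
      funext n
      simp [sh, glue]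
    rw [e1, e2]
  simp only [h1]
  exact lintegral_prod_mul hf.aemeasurable hg.aemeasurable

/-- Three-fold version: coordinates `[0,a)`, `[a,a+b)`, `[a+b,∞)`. -/
theorem lintegral_mul_sh3 {a b : ℕ} {f g h : (ℕ → E) → ℝ≥0∞} (hf : Measurable f)
    (hg : Measurable g) (hh : Measurable h) (hdf : Dep a f) (hdg : Dep b g) :
    ∫⁻ x, f x * g (sh a x) * h (sh (a + b) x) ∂(mu ν) =
      (∫⁻ x, f x ∂(mu ν)) * (∫⁻ x, g x ∂(mu ν)) * ∫⁻ x, h x ∂(mu ν) := by
  have e : ∀ x : ℕ → E, f x * g (sh a x) * h (sh (a + b) x) =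
      f x * (fun z => g z * h (sh b z)) (sh a x) := by
    intro x
    simp only [sh_sh]
    rw [mul_assoc]
  have k1 : ∫⁻ x, f x * (fun z => g z * h (sh b z)) (sh a x) ∂(mu ν) =
      (∫⁻ x, f x ∂(mu ν)) * ∫⁻ x, (fun z => g z * h (sh b z)) x ∂(mu ν) :=
    lintegral_mul_sh hf (hg.mul (hh.comp (measurable_sh b))) hdf
  rw [lintegral_congr e, k1, mul_assoc]
  congr 1
  exact lintegral_mul_sh hg hh hdg

/-- Product of one-site functions. -/
theorem lintegral_prod_coord {g : E → ℝ≥0∞} (hg : Measurable g) (n : ℕ) :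
    ∫⁻ x, ∏ j ∈ Finset.range n, g (x j) ∂(mu ν) = (∫⁻ e, g e ∂ν) ^ n := by
  induction n with
  | zero => simp
  | succ n ih =>
    have hm : Measurable fun x : ℕ → E => ∏ j ∈ Finset.range n, g (x j) :=
      Finset.measurable_prod _ fun j _ => hg.comp (measurable_pi_apply j)
    have hm0 : Measurable fun x : ℕ → E => g (x 0) := hg.comp (measurable_pi_apply 0)
    have hd : Dep n fun x : ℕ → E => ∏ j ∈ Finset.range n, g (x j) := by
      intro x y hxy
      refine Finset.prod_congr rfl fun j hj => ?_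
      rw [hxy j (Finset.mem_range.1 hj)]
    have e : ∀ x : ℕ → E, ∏ j ∈ Finset.range (n + 1), g (x j) =
        (∏ j ∈ Finset.range n, g (x j)) * (fun z : ℕ → E => g (z 0)) (sh n x) := by
      intro x
      rw [Finset.prod_range_succ]
      simp [sh]
    simp only [e]
    rw [lintegral_mul_sh hm hm0 hd, ih, pow_succ]
    congr 1
    have := (measurePreserving_eval_infinitePi (fun _ : ℕ => ν) 0).lintegral_comp hg
    exact this

/-- Independence for events. -/
private theorem measure_inter_sh {m : ℕ} {A B : Set (ℕ → E)} (hA : MeasurableSet A)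
    (hB : MeasurableSet B) (hd : Dep m (fun x => x ∈ A)) :
    (mu ν) (A ∩ sh m ⁻¹' B) = (mu ν) A * (mu ν) B := by
  have hfA : Measurable (A.indicator (1 : (ℕ → E) → ℝ≥0∞)) := measurable_one.indicator hA
  have hfB : Measurable (B.indicator (1 : (ℕ → E) → ℝ≥0∞)) := measurable_one.indicator hB
  have hdA : Dep m (A.indicator (1 : (ℕ → E) → ℝ≥0∞)) := by
    intro x y hxy
    have h1 : (x ∈ A) = (y ∈ A) := hd x y hxy
    by_cases hx : x ∈ A
    · have hy : y ∈ A := h1 ▸ hx
      simp [hx, hy]
    · have hy : y ∉ A := h1 ▸ hx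
      simp [hx, hy]
  have key := lintegral_mul_sh (ν := ν) hfA hfB hdA
  rw [lintegral_indicator_one hA, lintegral_indicator_one hB] at key
  rw [← key, ← lintegral_indicator_one (hA.inter ((measurable_sh m) hB))]
  refine lintegral_congr fun x => ?_
  by_cases hx : x ∈ A <;> by_cases hy : sh m x ∈ B <;> simp [Set.indicator, hx, hy]

/-- Probability that `k` consecutive blocks of length `n` all lie in `A`. -/
theorem measure_iter {n : ℕ} {A : Set (ℕ → E)} (hA : MeasurableSet A)
    (hd : Dep n (fun x => x ∈ A)) (k : ℕ) :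
    (mu ν) {x | ∀ i, i < k → sh (i * n) x ∈ A} = ((mu ν) A) ^ k := by
  have hmeas : ∀ k : ℕ, MeasurableSet {x : ℕ → E | ∀ i, i < k → sh (i * n) x ∈ A} := by
    intro k
    have : {x : ℕ → E | ∀ i, i < k → sh (i * n) x ∈ A} =
        ⋂ i : ℕ, ⋂ (_ : i < k), sh (i * n) ⁻¹' A := by
      ext x; simp
    rw [this]
    exact MeasurableSet.iInter fun i => MeasurableSet.iInter fun _ => (measurable_sh _) hA
  induction k with
  | zero => simp
  | succ k ih =>
    have e : {x : ℕ → E | ∀ i, i < k + 1 → sh (i * n) x ∈ A} =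
        A ∩ sh n ⁻¹' {x : ℕ → E | ∀ i, i < k → sh (i * n) x ∈ A} := by
      ext x
      simp only [Set.mem_ofPred_eq, Set.mem_inter_iff, Set.mem_preimage]
      constructor
      · intro h
        refine ⟨by simpa [sh_zero] using h 0 (by omega), fun i hi => ?_⟩
        rw [sh_sh]
        have := h (i + 1) (by omega)
        have e2 : (i + 1) * n = n + i * n := by ring
        rwa [e2] at this
      · rintro ⟨h0, h⟩ i hi
        rcases i with _ | i
        · simpa [sh_zero] using h0
        · have := h i (by omega)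
          rw [sh_sh] at this
          have e2 : (i + 1) * n = n + i * n := by ring
          rwa [e2]
    rw [e, measure_inter_sh hA (hmeas k) hd, ih, pow_succ, mul_comm]

theorem measurableSet_noWin {κ : ℕ → (ℕ → E) → ℝ} (h : ∀ n, Measurable (κ n)) (l : ℕ) (y : ℝ)
    (m : ℕ) : MeasurableSet (noWin κ l y m) := by
  have : noWin κ l y m = ⋂ s : ℕ, ⋂ (_ : s + l ≤ m), {x | Z κ l (sh s x) < y} := by
    ext x; simp [noWin]
  rw [this]
  exact MeasurableSet.iInter fun s => MeasurableSet.iInter fun _ =>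
    measurableSet_lt ((Z_meas h l).comp (measurable_sh s)) measurable_const

theorem noWin_dep {κ : ℕ → (ℕ → E) → ℝ} (h : ∀ n, Dep n (κ n)) (l : ℕ) (y : ℝ)
    (m : ℕ) : Dep m (fun x => x ∈ noWin κ l y m) := by
  intro x x' hxx
  have hZ : ∀ s, s + l ≤ m → Z κ l (sh s x) = Z κ l (sh s x') := by
    intro s hs
    refine Z_dep h l _ _ fun i hi => ?_
    exact hxx (i + s) (by omega)
  refine propext ⟨fun hx s hs => ?_, fun hx s hs => ?_⟩
  · rw [← hZ s hs]; exact hx s hs
  · rw [hZ s hs]; exact hx s hs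

omit [MeasurableSpace E] in
theorem noWin_anti {κ : ℕ → (ℕ → E) → ℝ} (l : ℕ) (y : ℝ) {m n : ℕ} (hmn : m ≤ n) :
    noWin κ l y n ⊆ noWin κ l y m := by
  intro x hx s hs
  exact hx s (le_trans hs hmn)

omit [MeasurableSpace E] in
theorem noWin_sh {κ : ℕ → (ℕ → E) → ℝ} (l : ℕ) (y : ℝ) {a b n : ℕ} (h : a + b ≤ n)
    {x : ℕ → E} (hx : x ∈ noWin κ l y n) : sh a x ∈ noWin κ l y b := by
  intro s hs
  rw [sh_sh]
  exact hx (a + s) (by omega)

end Copoly
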