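import Pool.Agent.Work.MP_fd21e9_pr.Model

/-! # The partition function as an expectation over the signed renewal process -/

open MeasureTheory ProbabilityTheory
open scoped ENNReal

namespace Copoly

/-- Renewal points: `tau y j` is the sum of the first `j` gaps. A signed renewal trajectory is
`y : ℕ → ℕ × Bool`, where `(y j).1` is the length of the `j`-th excursion and `(y j).2 = true`
means that it is negative. -/
def tau (y : ℕ → ℕ × Bool) (j : ℕ) : ℕ := ∑ i ∈ Finset.range j, (y i).1

open Classical in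
/-- `Δ_n = 1` if `n` lies in a negative excursion, and `0` otherwise. -/
noncomputable def Dl (y : ℕ → ℕ × Bool) (n : ℕ) : ℝ :=
  if ∃ j, tau y j < n ∧ n ≤ tau y (j + 1) ∧ (y j).2 = true then 1 else 0

/-- Law of the signed gap. -/
structure IsGapLaw (K : ℕ → ℝ) (ξ : Measure (ℕ × Bool)) : Prop where
  prob : IsProbabilityMeasure ξ
  mass : ∀ (n : ℕ) (s : Bool), ξ {(n, s)} = ENNReal.ofReal (K n / 2)

private theorem tau_zero (y : ℕ → ℕ × Bool) : tau y 0 = 0 := by simp [tau]

private theorem tau_one_add (y : ℕ → ℕ × Bool) (j : ℕ) :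
    tau y (j + 1) = (y 0).1 + tau (sh 1 y) j := by
  simp only [tau, sh]
  rw [Finset.sum_range_succ', add_comm]

private theorem Dl_low (y : ℕ → ℕ × Bool) {n : ℕ} (h1 : 1 ≤ n) (h2 : n ≤ (y 0).1) :
    Dl y n = if (y 0).2 = true then 1 else 0 := by
  have key : (∃ j, tau y j < n ∧ n ≤ tau y (j + 1) ∧ (y j).2 = true) ↔ (y 0).2 = true := by
    constructor
    · rintro ⟨j, hj1, hj2, hj3⟩
      rcases j with _ | j
      · exact hj3
      · rw [tau_one_add] at hj1; omega
    · intro h
      refine ⟨0, ?_, ?_, h⟩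
      · rw [tau_zero]; omega
      · rw [tau_one_add, tau_zero]; omega
  simp only [Dl, key]

private theorem Dl_high (y : ℕ → ℕ × Bool) {n : ℕ} (h1 : 1 ≤ n) :
    Dl y ((y 0).1 + n) = Dl (sh 1 y) n := by
  have key : (∃ j, tau y j < (y 0).1 + n ∧ (y 0).1 + n ≤ tau y (j + 1) ∧ (y j).2 = true) ↔
      ∃ j, tau (sh 1 y) j < n ∧ n ≤ tau (sh 1 y) (j + 1) ∧ (sh 1 y j).2 = true := by
    constructor
    · rintro ⟨j, hj1, hj2, hj3⟩
      rcases j with _ | j
      · rw [tau_one_add, tau_zero] at hj2; omega
      · rw [tau_one_add] at hj1 hj2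
        exact ⟨j, by omega, by omega, hj3⟩
    · rintro ⟨j, hj1, hj2, hj3⟩
      refine ⟨j + 1, ?_, ?_, hj3⟩
      · rw [tau_one_add]; omega
      · rw [tau_one_add]; omega
  by_cases hc : ∃ j, tau (sh 1 y) j < n ∧ n ≤ tau (sh 1 y) (j + 1) ∧ (sh 1 y j).2 = true
  · simp only [Dl]
    rw [if_pos hc, if_pos (key.2 hc)]
  · simp only [Dl]
    rw [if_neg hc, if_neg (fun h => hc (key.1 h))]

/-- The Boltzmann weight of a trajectory. -/
private noncomputable def FN (lam h : ℝ) (N : ℕ) (x : ℕ → ℝ) (y : ℕ → ℕ × Bool) : ℝ :=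
  Real.exp (-2 * lam * ∑ n ∈ Finset.Icc 1 N, Dl y n * (x (n - 1) + h))

/-- The weight of the first excursion. -/
private noncomputable def cf (lam h : ℝ) (N : ℕ) (x : ℕ → ℝ) (p : ℕ × Bool) : ℝ :=
  if p.2 = true then Real.exp (En lam h (min p.1 N) x) else 1

private theorem sum_Icc_range (f : ℕ → ℝ) (N : ℕ) :
    ∑ n ∈ Finset.Icc 1 N, f n = ∑ n ∈ Finset.range N, f (n + 1) := by
  induction N with
  | zero => simp
  | succ N ih => rw [Finset.sum_Icc_succ_top (by omega), Finset.sum_range_succ, ih]

private theorem FN_step (lam h : ℝ) (N : ℕ) (x : ℕ → ℝ) (y : ℕ → ℕ × Bool) :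
    FN lam h N x y =
      cf lam h N x (y 0) * FN lam h (N - (y 0).1) (sh (y 0).1 x) (sh 1 y) := by
  have hN : N = min (y 0).1 N + (N - (y 0).1) := by omega
  have h1 : ∑ n ∈ Finset.range (min (y 0).1 N), Dl y (n + 1) * (x (n + 1 - 1) + h) =
      (if (y 0).2 = true then 1 else 0) * ∑ n ∈ Finset.range (min (y 0).1 N), (x n + h) := by
    rw [Finset.mul_sum]
    refine Finset.sum_congr rfl fun n hn => ?_
    have hn' := Finset.mem_range.1 hn
    rw [Dl_low y (by omega) (by omega)]
    rfl
  have h2 : ∑ n ∈ Finset.range (N - (y 0).1),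
      Dl y (min (y 0).1 N + n + 1) * (x (min (y 0).1 N + n + 1 - 1) + h) =
      ∑ n ∈ Finset.range (N - (y 0).1), Dl (sh 1 y) (n + 1) * (sh (y 0).1 x (n + 1 - 1) + h) := by
    refine Finset.sum_congr rfl fun n hn => ?_
    have hn' := Finset.mem_range.1 hn
    have e : min (y 0).1 N = (y 0).1 := by omega
    rw [e, add_assoc, Dl_high y (by omega)]
    simp only [sh]
    have e2 : (y 0).1 + (n + 1) - 1 = n + 1 - 1 + (y 0).1 := by omega
    rw [e2]
  have h3 : FN lam h N x y = Real.exp (-2 * lam *
      ((if (y 0).2 = true then 1 else 0) * ∑ n ∈ Finset.range (min (y 0).1 N), (x n + h)) +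
      -2 * lam * ∑ n ∈ Finset.range (N - (y 0).1),
        Dl (sh 1 y) (n + 1) * (sh (y 0).1 x (n + 1 - 1) + h)) := by
    rw [← h1, ← h2, ← mul_add, ← Finset.sum_range_add
      (fun n => Dl y (n + 1) * (x (n + 1 - 1) + h)), ← hN]
    simp only [FN]
    rw [sum_Icc_range]
  rw [h3, Real.exp_add]
  simp only [FN, cf]
  rw [sum_Icc_range]
  congr 1
  split_ifs with hs
  · simp [En]
  · simp

private theorem FN_pos (lam h : ℝ) (N : ℕ) (x : ℕ → ℝ) (y : ℕ → ℕ × Bool) :
    0 < FN lam h N x y := Real.exp_pos _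

private theorem cf_pos (lam h : ℝ) (N : ℕ) (x : ℕ → ℝ) (p : ℕ × Bool) :
    0 < cf lam h N x p := by
  unfold cf
  split_ifs
  · exact Real.exp_pos _
  · exact one_pos

private theorem measurable_tau (j : ℕ) : Measurable (fun y : ℕ → ℕ × Bool => tau y j) := by
  unfold tau
  exact Finset.measurable_fun_sum _ fun i _ => measurable_fst.comp (measurable_pi_apply i)

private theorem measurable_Dl (n : ℕ) : Measurable (fun y : ℕ → ℕ × Bool => Dl y n) := by
  unfold Dl
  refine Measurable.ite ?_ measurable_const measurable_const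
  have e : {y : ℕ → ℕ × Bool | ∃ j, tau y j < n ∧ n ≤ tau y (j + 1) ∧ (y j).2 = true} =
      ⋃ j : ℕ, ({y | tau y j < n} ∩ ({y | n ≤ tau y (j + 1)} ∩ {y | (y j).2 = true})) := by
    ext y
    simp
  rw [e]
  refine MeasurableSet.iUnion fun j => ?_
  refine MeasurableSet.inter ?_ (MeasurableSet.inter ?_ ?_)
  · exact measurableSet_lt (measurable_tau j) measurable_const
  · exact measurableSet_le measurable_const (measurable_tau (j + 1))
  · exact (measurable_snd.comp (measurable_pi_apply j)) (measurableSet_singleton true)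

private theorem measurable_FN (lam h : ℝ) (N : ℕ) (x : ℕ → ℝ) :
    Measurable (FN lam h N x) := by
  unfold FN
  refine Real.measurable_exp.comp (Measurable.const_mul ?_ _)
  exact Finset.measurable_fun_sum _ fun n _ => (measurable_Dl n).mul_const _

private theorem lint_step (ξ : Measure (ℕ × Bool)) [IsProbabilityMeasure ξ] (lam h : ℝ) (N : ℕ)
    (x : ℕ → ℝ) :
    ∫⁻ y, ENNReal.ofReal (FN lam h N x y) ∂(mu ξ) =
      ∑' p : ℕ × Bool, ENNReal.ofReal (cf lam h N x p) * ξ {p} *
        ∫⁻ y, ENNReal.ofReal (FN lam h (N - p.1) (sh p.1 x) y) ∂(mu ξ) := by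
  have hpt : ∀ y : ℕ → ℕ × Bool, ENNReal.ofReal (FN lam h N x y) =
      ∑' p : ℕ × Bool, ({p} : Set (ℕ × Bool)).indicator
        (fun _ => ENNReal.ofReal (cf lam h N x p)) (y 0) *
        ENNReal.ofReal (FN lam h (N - p.1) (sh p.1 x) (sh 1 y)) := by
    intro y
    rw [tsum_eq_single (y 0)]
    · rw [Set.indicator_of_mem (Set.mem_singleton _), FN_step,
        ENNReal.ofReal_mul (cf_pos _ _ _ _ _).le]
    · intro p hp
      rw [Set.indicator_of_notMem, zero_mul]
      intro hc
      exact hp (Set.mem_singleton_iff.1 hc).symm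
  have hm1 : ∀ p : ℕ × Bool, Measurable (fun y : ℕ → ℕ × Bool =>
      ({p} : Set (ℕ × Bool)).indicator (fun _ => ENNReal.ofReal (cf lam h N x p)) (y 0)) :=
    fun p => (measurable_const.indicator (measurableSet_singleton p)).comp (measurable_pi_apply 0)
  have hm2 : ∀ p : ℕ × Bool, Measurable (fun y : ℕ → ℕ × Bool =>
      ENNReal.ofReal (FN lam h (N - p.1) (sh p.1 x) y)) :=
    fun p => (measurable_FN _ _ _ _).ennreal_ofReal
  simp only [hpt]
  rw [lintegral_tsum]
  · refine tsum_congr fun p => ?_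
    have hd : Dep 1 (fun y : ℕ → ℕ × Bool =>
        ({p} : Set (ℕ × Bool)).indicator (fun _ => ENNReal.ofReal (cf lam h N x p)) (y 0)) := by
      intro y z hyz
      simp only
      rw [hyz 0 one_pos]
    rw [lintegral_mul_sh (ν := ξ) (hm1 p) (hm2 p) hd]
    congr 1
    have hmi : Measurable (({p} : Set (ℕ × Bool)).indicator
        (fun _ => ENNReal.ofReal (cf lam h N x p))) :=
      measurable_const.indicator (measurableSet_singleton p)
    have := (measurePreserving_eval_infinitePi (fun _ : ℕ => ξ) 0).lintegral_comp hmi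
    refine this.trans ?_
    rw [lintegral_indicator_const (measurableSet_singleton p)]
  · intro p
    exact ((hm1 p).mul ((hm2 p).comp (measurable_sh 1))).aemeasurable

private theorem Zf_first (κ κf : ℕ → (ℕ → ℝ) → ℝ) (N : ℕ) (x : ℕ → ℝ) :
    Zf κ κf N x = κf N x + ∑ i ∈ Finset.Icc 1 N, κ i x * Zf κ κf (N - i) (sh i x) := by
  have e1 : Zf κ κf N x = κf N x + ∑ s ∈ Finset.Icc 1 N, Z κ s x * κf (N - s) (sh s x) := by
    unfold Zf
    rw [Finset.sum_range_succ', sum_Icc_range (fun s => Z κ s x * κf (N - s) (sh s x)), Z_zero,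
      sh_zero, one_mul, Nat.sub_zero, add_comm]
  rw [e1]
  congr 1
  have e2 : ∀ s ∈ Finset.Icc 1 N, Z κ s x * κf (N - s) (sh s x) =
      ∑ i ∈ Finset.Icc 1 N, if i ≤ s then
        κ i x * (Z κ (s - i) (sh i x) * κf (N - s) (sh s x)) else 0 := by
    intro s hs
    have hs' := Finset.mem_Icc.1 hs
    rw [Z_first κ hs'.1, Finset.sum_mul, ← Finset.sum_filter]
    refine Finset.sum_congr ?_ fun i _ => by ring
    ext i
    simp only [Finset.mem_Icc, Finset.mem_filter]
    omega
  rw [Finset.sum_congr rfl e2, Finset.sum_comm]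
  refine Finset.sum_congr rfl fun i hi => ?_
  have hi' := Finset.mem_Icc.1 hi
  rw [← Finset.sum_filter]
  unfold Zf
  rw [Finset.mul_sum]
  symm
  refine Finset.sum_bij (fun t _ => t + i) ?_ ?_ ?_ ?_
  · intro t ht
    have := Finset.mem_range.1 ht
    simp only [Finset.mem_Icc, Finset.mem_filter]
    omega
  · intro a _ b _ hab
    exact Nat.add_right_cancel hab
  · intro b hb
    simp only [Finset.mem_Icc, Finset.mem_filter] at hb
    exact ⟨b - i, Finset.mem_range.2 (by omega), by omega⟩
  · intro t ht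
    have := Finset.mem_range.1 ht
    have a1 : t + i - i = t := by omega
    have a2 : N - (t + i) = N - i - t := by omega
    rw [a1, a2, sh_sh, add_comm i t]

private theorem tsum_tail {K : ℕ → ℝ} {α : ℝ} (hK : InterArrival α K) (N : ℕ) :
    HasSum (fun i => K (i + (N + 1))) (Kbar K N) := by
  have := (hasSum_nat_add_iff' (N + 1)).2 hK.sum
  exact this

private theorem lint_eq {K : ℕ → ℝ} {α lam h : ℝ} (hK : InterArrival α K)
    {ξ : Measure (ℕ × Bool)} (hξ : IsGapLaw K ξ) (N : ℕ) (x : ℕ → ℝ) :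
    ∫⁻ y, ENNReal.ofReal (FN lam h N x y) ∂(mu ξ) =
      ENNReal.ofReal (Zf (ker K lam h) (kerf K lam h) N x) := by
  have := hξ.prob
  induction N using Nat.strong_induction_on generalizing x with
  | _ N ih =>
    have h0 : ∀ x : ℕ → ℝ, Zf (ker K lam h) (kerf K lam h) 0 x = 1 := by
      intro x
      simp [Zf, Z_zero, kerf, Kbar, hK.zero, En]
    rcases Nat.eq_zero_or_pos N with rfl | hN
    · simp [h0, FN]
    · have hZf : ∀ n x, 0 ≤ Zf (ker K lam h) (kerf K lam h) n x := by
        intro n x
        refine Finset.sum_nonneg fun s _ => mul_nonneg (Z_nonneg ?_ _ _) ?_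
        · intro n x
          exact mul_nonneg (hK.nonneg n) (by positivity)
        · exact mul_nonneg (Kbar_nonneg hK _) (by positivity)
      set a : ℕ → ℝ := fun m => K m * ((1 + Real.exp (En lam h (min m N) x)) / 2) *
        Zf (ker K lam h) (kerf K lam h) (N - m) (sh m x) with ha
      have ha0 : ∀ m, 0 ≤ a m := fun m =>
        mul_nonneg (mul_nonneg (hK.nonneg m) (by positivity)) (hZf _ _)
      have hstep : ∫⁻ y, ENNReal.ofReal (FN lam h N x y) ∂(mu ξ) =
          ∑' m : ℕ, ENNReal.ofReal (a m) := by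
        rw [lint_step, ENNReal.tsum_prod']
        refine tsum_congr fun m => ?_
        rw [tsum_fintype, Fintype.sum_bool]
        simp only [cf, if_true, hξ.mass]
        rcases Nat.eq_zero_or_pos m with rfl | hm
        · simp [ha, hK.zero]
        · rw [ih (N - m) (by omega)]
          simp only [ha]
          rw [← ENNReal.ofReal_mul (Real.exp_pos _).le, if_neg (by simp), ← ENNReal.ofReal_mul
            zero_le_one, ← ENNReal.ofReal_mul (mul_nonneg (Real.exp_pos _).le
            (div_nonneg (hK.nonneg m) two_pos.le)), ← ENNReal.ofReal_mul (mul_nonneg zero_le_one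
            (div_nonneg (hK.nonneg m) two_pos.le)), ← ENNReal.ofReal_add]
          · congr 1
            ring
          · exact mul_nonneg (mul_nonneg (Real.exp_pos _).le
              (div_nonneg (hK.nonneg m) two_pos.le)) (hZf _ _)
          · exact mul_nonneg (mul_nonneg zero_le_one
              (div_nonneg (hK.nonneg m) two_pos.le)) (hZf _ _)
      have htail : HasSum (fun i => a (i + (N + 1))) (kerf K lam h N x) := by
        have h1 := (tsum_tail hK N).mul_right ((1 + Real.exp (En lam h N x)) / 2)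
        have h2 : (fun i => a (i + (N + 1))) =
            fun i => K (i + (N + 1)) * ((1 + Real.exp (En lam h N x)) / 2) := by
          funext i
          simp only [ha]
          have e1 : min (i + (N + 1)) N = N := by omega
          have e2 : N - (i + (N + 1)) = 0 := by omega
          rw [e1, e2, h0, mul_one]
        rw [h2]
        exact h1
      have hsum : HasSum a (Zf (ker K lam h) (kerf K lam h) N x) := by
        have h1 := (hasSum_nat_add_iff (N + 1)).1 htail
        have h2 : Zf (ker K lam h) (kerf K lam h) N x =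
            kerf K lam h N x + ∑ i ∈ Finset.range (N + 1), a i := ?_
        · rw [h2]
          exact h1
        rw [Zf_first]
        congr 1
        rw [Finset.sum_range_succ', sum_Icc_range]
        simp only [ha, hK.zero, zero_mul, add_zero]
        refine Finset.sum_congr rfl fun n hn => ?_
        have := Finset.mem_range.1 hn
        have e : min (n + 1) N = n + 1 := by omega
        rw [e]
        rfl
      rw [hstep, ← ENNReal.ofReal_tsum_of_nonneg ha0 hsum.summable, hsum.tsum_eq]

/-- The expectation over the signed renewal process is the explicit partition function;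
the charge at monomer `n ≥ 1` is `x (n - 1)`. -/
theorem ren_formula {K : ℕ → ℝ} {α lam h : ℝ} (hK : InterArrival α K)
    {ξ : Measure (ℕ × Bool)} (hξ : IsGapLaw K ξ) (N : ℕ) (x : ℕ → ℝ) :
    ∫ y, Real.exp (-2 * lam * ∑ n ∈ Finset.Icc 1 N, Dl y n * (x (n - 1) + h))
      ∂(Measure.infinitePi (fun _ : ℕ => ξ)) = Zf (ker K lam h) (kerf K lam h) N x := by
  have := hξ.prob
  have h1 : ∫ y, FN lam h N x y ∂(mu ξ) =
      ENNReal.toReal (∫⁻ y, ENNReal.ofReal (FN lam h N x y) ∂(mu ξ)) :=
    integral_eq_lintegral_of_nonneg_ae (Filter.Eventually.of_forall fun y => (FN_pos _ _ _ _ _).le)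
      (measurable_FN _ _ _ _).aestronglyMeasurable
  refine h1.trans ?_
  rw [lint_eq hK hξ, ENNReal.toReal_ofReal]
  refine Finset.sum_nonneg fun s _ => mul_nonneg (Z_nonneg ?_ _ _) ?_
  · intro n x
    exact mul_nonneg (hK.nonneg n) (by positivity)
  · exact mul_nonneg (Kbar_nonneg hK _) (by positivity)

end Copoly
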