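import Pool.Agent.Work.MP_fd21e9_pr.Basic

/-! # Algebra of the partition function -/

open MeasureTheory ProbabilityTheory
open scoped ENNReal

namespace Copoly

variable {E : Type*}

theorem sh_zero (x : ℕ → E) : sh 0 x = x := by
  funext n; simp [sh]

theorem sh_sh (m n : ℕ) (x : ℕ → E) : sh m (sh n x) = sh (n + m) x := by
  funext k; simp only [sh]; congr 1; omega

theorem Z_zero (κ : ℕ → (ℕ → E) → ℝ) (x : ℕ → E) : Z κ 0 x = 1 := by
  simp [Z]

theorem Z_succ (κ : ℕ → (ℕ → E) → ℝ) (n : ℕ) (x : ℕ → E) :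
    Z κ (n + 1) x = ∑ i ∈ Finset.range (n + 1), κ (i + 1) x * Z κ (n - i) (sh (i + 1) x) := by
  rw [Z, ← Fin.sum_univ_eq_sum_range
    (fun i => κ (i + 1) x * Z κ (n - i) (sh (i + 1) x)) (n + 1)]

/-- First-excursion decomposition, indexed by the length `i ∈ [1, n]`. -/
theorem Z_first (κ : ℕ → (ℕ → E) → ℝ) {n : ℕ} (hn : 1 ≤ n) (x : ℕ → E) :
    Z κ n x = ∑ i ∈ Finset.Icc 1 n, κ i x * Z κ (n - i) (sh i x) := by
  obtain ⟨m, rfl⟩ : ∃ m, n = m + 1 := ⟨n - 1, by omega⟩
  rw [Z_succ]
  refine Finset.sum_bij (fun i _ => i + 1) ?_ ?_ ?_ ?_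
  · intro i hi
    rw [Finset.mem_range] at hi
    rw [Finset.mem_Icc]
    omega
  · intro a _ b _ hab
    exact Nat.succ_injective hab
  · intro b hb
    rw [Finset.mem_Icc] at hb
    exact ⟨b - 1, Finset.mem_range.mpr (by omega), by omega⟩
  · intro i hi
    have : m + 1 - (i + 1) = m - i := by omega
    rw [this]

/-- Last-excursion decomposition. -/
theorem Z_last (κ : ℕ → (ℕ → E) → ℝ) {n : ℕ} (hn : 1 ≤ n) (x : ℕ → E) :
    Z κ n x = ∑ s ∈ Finset.range n, Z κ s x * κ (n - s) (sh s x) := by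
  induction n using Nat.strong_induction_on generalizing x with
  | _ n ih =>
    have e1 : Z κ n x = κ n x + ∑ i ∈ Finset.Ico 1 n, κ i x * Z κ (n - i) (sh i x) := by
      rw [Z_first κ hn]
      have : Finset.Icc 1 n = insert n (Finset.Ico 1 n) := by
        ext a
        simp only [Finset.mem_Icc, Finset.mem_insert, Finset.mem_Ico]
        omega
      rw [this, Finset.sum_insert (by simp)]
      rw [Nat.sub_self, Z_zero, mul_one]
    have e2 : ∑ s ∈ Finset.range n, Z κ s x * κ (n - s) (sh s x) =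
        κ n x + ∑ t ∈ Finset.Ico 1 n, Z κ t x * κ (n - t) (sh t x) := by
      have : Finset.range n = insert 0 (Finset.Ico 1 n) := by
        ext a
        simp only [Finset.mem_range, Finset.mem_insert, Finset.mem_Ico]
        omega
      rw [this, Finset.sum_insert (by simp)]
      rw [Z_zero, one_mul, Nat.sub_zero, sh_zero]
    rw [e1, e2]
    congr 1
    have e3 : ∀ i ∈ Finset.Ico 1 n, κ i x * Z κ (n - i) (sh i x) =
        ∑ t ∈ Finset.Ico i n, κ i x * (Z κ (t - i) (sh i x) * κ (n - t) (sh t x)) := by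
      intro i hi
      rw [Finset.mem_Ico] at hi
      rw [ih (n - i) (by omega) (by omega) (sh i x), Finset.mul_sum]
      refine Finset.sum_bij (fun s _ => s + i) ?_ ?_ ?_ ?_
      · intro s hs
        rw [Finset.mem_range] at hs
        rw [Finset.mem_Ico]
        omega
      · intro a _ b _ hab
        have : a + i = b + i := hab
        omega
      · intro b hb
        rw [Finset.mem_Ico] at hb
        exact ⟨b - i, Finset.mem_range.mpr (by omega), by omega⟩
      · intro s hs
        rw [Finset.mem_range] at hs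
        have h1 : s + i - i = s := by omega
        have h2 : n - (s + i) = n - i - s := by omega
        rw [sh_sh, h1, h2, Nat.add_comm i s]
    have e4 : ∀ t ∈ Finset.Ico 1 n, Z κ t x * κ (n - t) (sh t x) =
        ∑ i ∈ Finset.Icc 1 t, κ i x * (Z κ (t - i) (sh i x) * κ (n - t) (sh t x)) := by
      intro t ht
      rw [Finset.mem_Ico] at ht
      rw [Z_first κ ht.1, Finset.sum_mul]
      refine Finset.sum_congr rfl fun i _ => ?_
      ring
    rw [Finset.sum_congr rfl e3, Finset.sum_congr rfl e4]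
    refine Finset.sum_comm' ?_
    intro i t
    simp only [Finset.mem_Ico, Finset.mem_Icc]
    omega

theorem Z_nonneg {κ : ℕ → (ℕ → E) → ℝ} (h : ∀ n x, 0 ≤ κ n x) (n : ℕ) (x : ℕ → E) :
    0 ≤ Z κ n x := by
  induction n using Nat.strong_induction_on generalizing x with
  | _ n ih =>
    rcases Nat.eq_zero_or_pos n with h0 | h0
    · rw [h0, Z_zero]; exact zero_le_one
    · rw [Z_first κ h0]
      refine Finset.sum_nonneg fun i hi => ?_
      rw [Finset.mem_Icc] at hi
      exact mul_nonneg (h i x) (ih (n - i) (by omega) _)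

theorem Z_dep {κ : ℕ → (ℕ → E) → ℝ} (h : ∀ n, Dep n (κ n)) (n : ℕ) : Dep n (Z κ n) := by
  induction n using Nat.strong_induction_on with
  | _ n ih =>
    intro x y hxy
    rcases Nat.eq_zero_or_pos n with h0 | h0
    · rw [h0, Z_zero, Z_zero]
    · rw [Z_first κ h0, Z_first κ h0]
      refine Finset.sum_congr rfl fun i hi => ?_
      rw [Finset.mem_Icc] at hi
      have h1 : κ i x = κ i y := h i x y fun j hj => hxy j (by omega)
      have h2 : Z κ (n - i) (sh i x) = Z κ (n - i) (sh i y) := by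
        refine ih (n - i) (by omega) _ _ fun j hj => ?_
        exact hxy (j + i) (by omega)
      rw [h1, h2]

theorem measurable_sh [MeasurableSpace E] (m : ℕ) : Measurable (sh m : (ℕ → E) → (ℕ → E)) := by
  rw [measurable_pi_iff]
  intro n
  exact measurable_pi_apply (n + m)

theorem Z_meas [MeasurableSpace E] {κ : ℕ → (ℕ → E) → ℝ} (h : ∀ n, Measurable (κ n)) (n : ℕ) :
    Measurable (Z κ n) := by
  induction n using Nat.strong_induction_on with
  | _ n ih =>
    rcases Nat.eq_zero_or_pos n with h0 | h0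
    · have : Z κ n = fun _ => (1 : ℝ) := by
        funext x
        rw [h0, Z_zero]
      rw [this]
      exact measurable_const
    · have : Z κ n = fun x => ∑ i ∈ Finset.Icc 1 n, κ i x * Z κ (n - i) (sh i x) := by
        funext x
        exact Z_first κ h0 x
      rw [this]
      refine Finset.measurable_fun_sum _ fun i hi => ?_
      rw [Finset.mem_Icc] at hi
      exact (h i).mul ((ih (n - i) (by omega)).comp (measurable_sh i))

/-- Supermultiplicativity. -/
theorem Z_supermul {κ : ℕ → (ℕ → E) → ℝ} (h : ∀ n x, 0 ≤ κ n x) (m n : ℕ) (x : ℕ → E) :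
    Z κ m x * Z κ n (sh m x) ≤ Z κ (m + n) x := by
  induction m using Nat.strong_induction_on generalizing x with
  | _ m ih =>
    rcases Nat.eq_zero_or_pos m with h0 | h0
    · rw [h0, Z_zero, sh_zero, one_mul, Nat.zero_add]
    · rw [Z_first κ h0, Z_first κ (by omega : 1 ≤ m + n), Finset.sum_mul]
      have hsub : Finset.Icc 1 m ⊆ Finset.Icc 1 (m + n) :=
        Finset.Icc_subset_Icc le_rfl (by omega)
      refine le_trans (Finset.sum_le_sum fun i hi => ?_)
        (Finset.sum_le_sum_of_subset_of_nonneg hsub fun i _ _ =>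
          mul_nonneg (h i x) (Z_nonneg h _ _))
      rw [Finset.mem_Icc] at hi
      have h1 := ih (m - i) (by omega) (sh i x)
      rw [sh_sh] at h1
      have h2 : i + (m - i) = m := by omega
      have h3 : m - i + n = m + n - i := by omega
      rw [h2, h3] at h1
      calc κ i x * Z κ (m - i) (sh i x) * Z κ n (sh m x)
          = κ i x * (Z κ (m - i) (sh i x) * Z κ n (sh m x)) := by ring
        _ ≤ κ i x * Z κ (m + n - i) (sh i x) := mul_le_mul_of_nonneg_left h1 (h i x)

theorem Z_supermul_pow {κ : ℕ → (ℕ → E) → ℝ} (h : ∀ n x, 0 ≤ κ n x) (k n : ℕ) (x : ℕ → E) :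
    ∏ i ∈ Finset.range k, Z κ n (sh (i * n) x) ≤ Z κ (k * n) x := by
  induction k with
  | zero => rw [Finset.prod_range_zero, Nat.zero_mul, Z_zero]
  | succ k ih =>
    rw [Finset.prod_range_succ, Nat.succ_mul]
    exact le_trans (mul_le_mul_of_nonneg_right ih (Z_nonneg h _ _)) (Z_supermul h (k * n) n x)

theorem kernel_le_Z {κ : ℕ → (ℕ → E) → ℝ} (h : ∀ n x, 0 ≤ κ n x) {n : ℕ} (hn : 1 ≤ n)
    (x : ℕ → E) : κ n x ≤ Z κ n x := by
  rw [Z_first κ hn]
  have h1 := Finset.single_le_sum (s := Finset.Icc 1 n)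
    (f := fun i => κ i x * Z κ (n - i) (sh i x))
    (fun i _ => mul_nonneg (h i x) (Z_nonneg h _ _))
    (Finset.mem_Icc.mpr ⟨hn, le_rfl⟩)
  simp only [Nat.sub_self, Z_zero, mul_one] at h1
  exact h1

theorem Z_mono {κ κ' : ℕ → (ℕ → E) → ℝ} (h : ∀ n x, 0 ≤ κ n x) (h' : ∀ n x, κ n x ≤ κ' n x)
    (n : ℕ) (x : ℕ → E) : Z κ n x ≤ Z κ' n x := by
  induction n using Nat.strong_induction_on generalizing x with
  | _ n ih =>
    rcases Nat.eq_zero_or_pos n with h0 | h0
    · rw [h0, Z_zero, Z_zero]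
    · rw [Z_first κ h0, Z_first κ' h0]
      refine Finset.sum_le_sum fun i hi => ?_
      rw [Finset.mem_Icc] at hi
      exact mul_le_mul (h' i x) (ih (n - i) (by omega) _) (Z_nonneg h _ _)
        (le_trans (h i x) (h' i x))

/-- Crude product upper bound. -/
theorem Z_crude {κ : ℕ → (ℕ → E) → ℝ} {K : ℕ → ℝ} {g : E → ℝ} (h : ∀ n x, 0 ≤ κ n x)
    (hK : ∀ n, 0 ≤ K n) (hK1 : ∀ n, ∑ i ∈ Finset.Icc 1 n, K i ≤ 1) (hg : ∀ e, 0 ≤ g e)
    (hκ : ∀ n x, 1 ≤ n → κ n x ≤ K n * ∏ j ∈ Finset.range n, g (x j)) (n : ℕ) (x : ℕ → E) :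
    Z κ n x ≤ ∏ j ∈ Finset.range n, g (x j) := by
  induction n using Nat.strong_induction_on generalizing x with
  | _ n ih =>
    rcases Nat.eq_zero_or_pos n with h0 | h0
    · rw [h0, Z_zero, Finset.prod_range_zero]
    · rw [Z_first κ h0]
      have hP : 0 ≤ ∏ j ∈ Finset.range n, g (x j) := Finset.prod_nonneg fun j _ => hg _
      have hb : ∀ i ∈ Finset.Icc 1 n, κ i x * Z κ (n - i) (sh i x) ≤
          K i * ∏ j ∈ Finset.range n, g (x j) := by
        intro i hi
        rw [Finset.mem_Icc] at hi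
        have h1 := hκ i x hi.1
        have h2 := ih (n - i) (by omega) (sh i x)
        have h3 : ∏ j ∈ Finset.range n, g (x j) =
            (∏ j ∈ Finset.range i, g (x j)) * ∏ j ∈ Finset.range (n - i), g (sh i x j) := by
          have h4 : n = i + (n - i) := by omega
          conv_lhs => rw [h4]
          rw [Finset.prod_range_add]
          congr 1
          refine Finset.prod_congr rfl fun j _ => ?_
          simp only [sh]
          rw [Nat.add_comm i j]
        rw [h3, ← mul_assoc]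
        exact mul_le_mul h1 h2 (Z_nonneg h _ _) (mul_nonneg (hK i)
          (Finset.prod_nonneg fun j _ => hg _))
      calc ∑ i ∈ Finset.Icc 1 n, κ i x * Z κ (n - i) (sh i x)
          ≤ ∑ i ∈ Finset.Icc 1 n, K i * ∏ j ∈ Finset.range n, g (x j) :=
            Finset.sum_le_sum hb
        _ = (∑ i ∈ Finset.Icc 1 n, K i) * ∏ j ∈ Finset.range n, g (x j) := by
            rw [Finset.sum_mul]
        _ ≤ 1 * ∏ j ∈ Finset.range n, g (x j) := mul_le_mul_of_nonneg_right (hK1 n) hP
        _ = ∏ j ∈ Finset.range n, g (x j) := one_mul _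

end Copoly
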